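import Pool.Agent.H17BP.Same

/-!
# CV StrA: forms which vanish on an entire curve in a curve

`form_of_curve`: let `Q` define a curve, `f : ℂ → openVar Q H` a non-constant entire curve, `R` a form which vanishes at all `f z`.  Then `R ∈ Q`: let `J = mapIdeal f univ` (`Pool/Agent/H17BP/MapIdeal.lean`):
homogeneous, prime (`mapIdeal_isPrime`), `Q ≤ J` (`le_mapIdeal`), `R ∈ J`, `exists_X_notMem`.  If `R ∉ Q` then `trdeg_lt` (`Pool/Agent/H17BP/TrdegLt.lean`; `exists_fin_basis`) shows that `FunField J` has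
transcendence degree `0`, so `variety J` is one point (`eq_of_trdeg_zero`), and `f` is constant (`mem_variety_mapIdeal`): contradiction.  (See the end of the proof of `picard_of_form` in `Pool/Agent/H17BP/Same.lean`.)
-/

set_option autoImplicit false

open Topology Filter MvPolynomial
open Pool.Agent.H17 (PN VanishesAt ZariskiClosedIn HolomorphicInto puncturedDisc)
open Pool.Agent.H17LG.Variety (FunField OnBoundary IsLogGeneralType)
open Pool.Agent.H62.FC (Homog)
open Pool.Agent.H17R (openVar)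

noncomputable section

namespace Pool.Agent.H13.CV

variable {N : ℕ}

theorem form_of_curve0 (Q : Ideal (MvPolynomial (Fin (N + 1)) ℂ)) [Q.IsPrime] (hQ : Homog Q)
    (hz : ∃ z : Fin 1 → FunField Q, IsTranscendenceBasis ℂ z) {f : ℂ → PN N} (hf : HolomorphicInto f Set.univ)
    (hfQ : ∀ z, ∀ R ∈ Q, ∀ n, R.IsHomogeneous n → VanishesAt R (f z)) (hne : ∃ z w, f z ≠ f w) {d : ℕ} {R : MvPolynomial (Fin (N + 1)) ℂ} (hR : R.IsHomogeneous d)
    (hfR : ∀ z, VanishesAt R (f z)) : R ∈ Q := by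
  by_contra hRQ
  set J := Pool.Agent.H17BP.mapIdeal f Set.univ with hJ
  have hJp : J.IsPrime := Pool.Agent.H17BP.mapIdeal_isPrime isOpen_univ isPreconnected_univ Set.univ_nonempty hf
  have hJX : ∃ i, (X i : MvPolynomial (Fin (N + 1)) ℂ) ∉ J := Pool.Agent.H17BP.exists_X_notMem Set.univ_nonempty
  have hJh : Homog J := Pool.Agent.H17BP.mapIdeal_homog
  have hQJ : Q ≤ J := Pool.Agent.H17BP.le_mapIdeal hQ fun z _ => ⟨hfQ z, fun m => m.elim0⟩
  have hRJ : R ∈ J := (Pool.Agent.H17BP.mem_mapIdeal_form hR).2 fun z _ => hfR z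
  obtain ⟨w, hw⟩ := Pool.Agent.H62.FC.exists_fin_basis (P := J) hJX
  have hlt : w < 1 := Pool.Agent.H17BP.trdeg_lt hQ hJh hQJ (fun h => hRQ (h hRJ)) hJX hz hw
  have hw0 : w = 0 := by omega
  subst hw0
  obtain ⟨a, b, hab⟩ := hne
  exact hab (Pool.Agent.H17BP.eq_of_trdeg_zero hJh hJX hw _ (Pool.Agent.H17BP.mem_variety_mapIdeal (Set.mem_univ a)) _
    (Pool.Agent.H17BP.mem_variety_mapIdeal (Set.mem_univ b)))

theorem form_of_curve (Q : Ideal (MvPolynomial (Fin (N + 1)) ℂ)) [Q.IsPrime] (hQ : Homog Q)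
    (hz : ∃ z : Fin 1 → FunField Q, IsTranscendenceBasis ℂ z) {b : ℕ} {H : Fin b → MvPolynomial (Fin (N + 1)) ℂ} {f : ℂ → PN N} (hf : HolomorphicInto f Set.univ)
    (hfQ : ∀ z, f z ∈ openVar Q H) (hne : ∃ z w, f z ≠ f w) {d : ℕ} {R : MvPolynomial (Fin (N + 1)) ℂ} (hR : R.IsHomogeneous d) (hfR : ∀ z, VanishesAt R (f z)) : R ∈ Q :=
  form_of_curve0 Q hQ hz hf (fun z => (hfQ z).1) hne hR hfR

end Pool.Agent.H13.CV
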