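import Pool.Agent.H13.CV.ThmC
import Pool.Agent.H13.CV.StrA

/-!
# CV Strong: the closed subvarieties which are not contained in the exceptional set

`strongly_of_brody`: `Ξ` is Zariski closed in `openVar P H`: `Ξ = {x ∈ openVar P H | all forms of S vanish at x}` (see the definition of `ZariskiClosedIn`).  Let `Q ⊇ P` be as in the field `strongly` of `GGLWith`
(`Pool/Agent/H17R/Defs.lean`), of dimension `w`.  If `Q ≤ P` then `Q = P` and `hlgt` applies.  Otherwise `w < 2` by `trdeg_lt`, so `w = 1` (`1 ≤ w`).  If `Q` is not of log general type then there is a non-constant entire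
curve in `openVar Q H` (`exists_entire_of_not_lgt`), it is in `openVar P H`, so in `Ξ` by `hbr`; so all forms of `S` vanish on it, so they are in `Q` by `form_of_curve`, so `openVar Q H ⊆ Ξ`: contradiction.
-/

set_option autoImplicit false

open Topology Filter MvPolynomial
open Pool.Agent.H17 (PN VanishesAt ZariskiClosedIn HolomorphicInto puncturedDisc)
open Pool.Agent.H17LG.Variety (FunField OnBoundary IsLogGeneralType)
open Pool.Agent.H62.FC (Homog)
open Pool.Agent.H17R (openVar)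
open Pool.Agent.H62.SA (locVar OnBd)

noncomputable section

namespace Pool.Agent.H13.CV

variable {N : ℕ}

/-- **The closed subvarieties which are not contained in the exceptional set are of log general type** -/
theorem strongly_of_brody (P : Ideal (MvPolynomial (Fin (N + 1)) ℂ)) [P.IsPrime] (hP : Homog P) (hz : ∃ z : Fin 2 → FunField P, IsTranscendenceBasis ℂ z)
    {b : ℕ} {H : Fin b → MvPolynomial (Fin (N + 1)) ℂ} (hH : ∀ m, ∃ d, (H m).IsHomogeneous d) {Ξ : Set (PN N)} (hΞ : ZariskiClosedIn (openVar P H) Ξ)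
    (hlgt : IsLogGeneralType (OnBoundary P H (k := 2)))
    (hbr : ∀ f : ℂ → PN N, HolomorphicInto f Set.univ → (∀ z, f z ∈ openVar P H) → (∃ z w, f z ≠ f w) → ∀ z, f z ∈ Ξ)
    (Q : Ideal (MvPolynomial (Fin (N + 1)) ℂ)) [Q.IsPrime] (hQ : Homog Q) (hPQ : P ≤ Q) (hHQ : ∀ m, H m ∉ Q) (hQΞ : ¬ openVar Q H ⊆ Ξ) (w : ℕ) (hw : 1 ≤ w)
    (hz' : ∃ z : Fin w → FunField Q, IsTranscendenceBasis ℂ z) : IsLogGeneralType (OnBoundary Q H (k := w)) := by
  have hsub : openVar Q H ⊆ openVar P H := fun x hx => ⟨fun R hR n hn => hx.1 R (hPQ hR) n hn, hx.2⟩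
  have hX : ∃ i, (X i : MvPolynomial (Fin (N + 1)) ℂ) ∉ Q := by
    obtain ⟨x, hx, _⟩ := Set.not_subset.1 hQΞ
    by_contra hcon
    push Not at hcon
    apply x.rep_nonzero
    funext i
    have h1 : VanishesAt (X i : MvPolynomial (Fin (N + 1)) ℂ) x := hx.1 _ (hcon i) 1 (isHomogeneous_X ℂ i)
    have h2 : eval x.rep (X i : MvPolynomial (Fin (N + 1)) ℂ) = 0 := h1
    rw [eval_X] at h2
    exact h2
  by_cases hle : Q ≤ P
  · have hEq : P = Q := le_antisymm hPQ hle
    subst hEq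
    have h1 : w ≤ 2 := Pool.Agent.H62.FC.trdeg_mono hP hP le_rfl hz hz'
    have h2 : 2 ≤ w := Pool.Agent.H62.FC.trdeg_mono hP hP le_rfl hz' hz
    obtain rfl : w = 2 := le_antisymm h1 h2
    exact hlgt
  · have hlt : w < 2 := Pool.Agent.H17BP.trdeg_lt hP hQ hPQ hle hX hz hz'
    obtain rfl : w = 1 := by omega
    by_contra hl
    obtain ⟨f, hf, hfQ, hne⟩ := exists_entire_of_not_lgt Q hQ hX hz' hH hl
    have hΞf : ∀ z, f z ∈ Ξ := hbr f hf (fun z => hsub (hfQ z)) hne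
    obtain ⟨S, hS, hSΞ⟩ := hΞ
    apply hQΞ
    intro x hx
    rw [hSΞ]
    refine ⟨hsub hx, fun R hR => ?_⟩
    obtain ⟨n, hn⟩ := hS R hR
    have hRf : ∀ z, VanishesAt R (f z) := by
      intro z
      have h3 := hΞf z
      rw [hSΞ] at h3
      exact h3.2 R hR
    exact hx.1 R (form_of_curve Q hQ hz' hf hfQ hne hn hRf) n hn

/-- the version for the complement of the common zeros of forms -/
theorem strongly_of_brodyL (P : Ideal (MvPolynomial (Fin (N + 1)) ℂ)) [P.IsPrime] (hP : Homog P) (hz : ∃ z : Fin 2 → FunField P, IsTranscendenceBasis ℂ z)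
    {s : ℕ} {G : Fin s → MvPolynomial (Fin (N + 1)) ℂ} (hG : ∀ m, ∃ d, (G m).IsHomogeneous d) {Ξ : Set (PN N)} (hΞ : ZariskiClosedIn (locVar P G) Ξ)
    (hlgt : IsLogGeneralType (OnBd P G (k := 2)))
    (hbr : ∀ f : ℂ → PN N, HolomorphicInto f Set.univ → (∀ z, f z ∈ locVar P G) → (∃ z w, f z ≠ f w) → ∀ z, f z ∈ Ξ)
    (Q : Ideal (MvPolynomial (Fin (N + 1)) ℂ)) [Q.IsPrime] (hQ : Homog Q) (hPQ : P ≤ Q) (hQΞ : ¬ locVar Q G ⊆ Ξ) (w : ℕ) (hw : 1 ≤ w)
    (hz' : ∃ z : Fin w → FunField Q, IsTranscendenceBasis ℂ z) : IsLogGeneralType (OnBd Q G (k := w)) := by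
  have hsub : locVar Q G ⊆ locVar P G := fun x hx => ⟨fun R hR n hn => hx.1 R (hPQ hR) n hn, hx.2⟩
  have hX : ∃ i, (X i : MvPolynomial (Fin (N + 1)) ℂ) ∉ Q := by
    obtain ⟨x, hx, _⟩ := Set.not_subset.1 hQΞ
    by_contra hcon
    push Not at hcon
    apply x.rep_nonzero
    funext i
    have h1 : VanishesAt (X i : MvPolynomial (Fin (N + 1)) ℂ) x := hx.1 _ (hcon i) 1 (isHomogeneous_X ℂ i)
    have h2 : eval x.rep (X i : MvPolynomial (Fin (N + 1)) ℂ) = 0 := h1
    rw [eval_X] at h2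
    exact h2
  by_cases hle : Q ≤ P
  · have hEq : P = Q := le_antisymm hPQ hle
    subst hEq
    have h1 : w ≤ 2 := Pool.Agent.H62.FC.trdeg_mono hP hP le_rfl hz hz'
    have h2 : 2 ≤ w := Pool.Agent.H62.FC.trdeg_mono hP hP le_rfl hz' hz
    obtain rfl : w = 2 := le_antisymm h1 h2
    exact hlgt
  · have hlt : w < 2 := Pool.Agent.H17BP.trdeg_lt hP hQ hPQ hle hX hz hz'
    obtain rfl : w = 1 := by omega
    by_contra hl
    obtain ⟨f, hf, hfQ, hne⟩ := exists_entire_of_not_lgtL Q hX hz' hG hl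
    have hΞf : ∀ z, f z ∈ Ξ := hbr f hf (fun z => hsub (hfQ z)) hne
    obtain ⟨S, hS, hSΞ⟩ := hΞ
    apply hQΞ
    intro x hx
    rw [hSΞ]
    refine ⟨hsub hx, fun R hR => ?_⟩
    obtain ⟨n, hn⟩ := hS R hR
    have hRf : ∀ z, VanishesAt R (f z) := by
      intro z
      have h3 := hΞf z
      rw [hSΞ] at h3
      exact h3.2 R hR
    exact hx.1 R (form_of_curve0 Q hQ hz' hf (fun z => (hfQ z).1) hne hn hRf) n hn

end Pool.Agent.H13.CV
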