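import Pool.Agent.H13.CV.CaseA

/-!
# CV EllA: generators with poles of order two and three

`ell_gens`: if some `f ∈ LD (dv E 1)` is not a constant then `ℂ(f) = K` (`top_of_dv_one`).  So assume that all `f ∈ LD (dv E 1)` are constants.  `W` for `k = 2` contains a non-constant `u` (`exists_not_const`),
`oz E u ≥ -2`, and `oz E u ≠ -1, 0, …` (otherwise `u ∈ LD (dv E 1)`), so `oz E u = -2`.  `LD (dv E 2)` contains no `3`-dimensional subspace: for `W ≤ LD (dv E 2)` finite-dimensional,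
`finrank W ≤ finrank (W ⊓ ordGe E (-1)) + 1` (`finrank_le_step`), and `W ⊓ ordGe E (-1) ≤ LD (dv E 1)` consists of constants, so it has dimension `≤ 1`.  So `W` for `k = 3` contains `v ∉ LD (dv E 2)`: `oz E v = -3`.
-/

set_option autoImplicit false

open Pool.Agent.H23.Fano (PrimeDivisorOver Form regularForms)

noncomputable section

namespace Pool.Agent.H13.CV

variable {K : Type} [Field K] [Algebra ℂ K]

private theorem ella_mem_iff {E : Place K} {k : ℤ} {f : K} :
    f ∈ LD (dv E k) ↔ ((-k : ℤ) : WithTop ℤ) ≤ E.ord f ∧ ∀ E' : Place K, E' ≠ E → 0 ≤ E'.ord f := by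
  rw [mem_LD]
  constructor
  · intro h
    refine ⟨?_, fun E' hE' => ?_⟩
    · have := h E
      simpa [dv] using this
    · have := h E'
      simpa [dv, hE'] using this
  · rintro ⟨h1, h2⟩ E'
    by_cases hE' : E' = E
    · subst hE'
      simpa [dv] using h1
    · simpa [dv, hE'] using h2 E' hE'

private theorem ella_oz_eq {E : Place K} {k : ℤ} {f : K} (hf0 : f ≠ 0) (hf : f ∈ LD (dv E (k + 1)))
    (hf' : f ∉ LD (dv E k)) : oz E f = -(k + 1) := by
  rw [ella_mem_iff] at hf hf'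
  have h1 : -(k + 1) ≤ oz E f := (le_ord_iff.1 hf.1).resolve_left hf0
  have h2 : ¬ (-k ≤ oz E f) := fun h => hf' ⟨le_ord_iff.2 (Or.inr h), hf.2⟩
  omega

theorem ell_gens (hK : CurveField K) {E : Place K}
    (hW : ∀ k : ℕ, 1 ≤ k → ∃ W : Submodule ℂ K, FiniteDimensional ℂ W ∧ W ≤ LD (dv E k) ∧ k ≤ Module.finrank ℂ W) :
    (∃ t : K, IntermediateField.adjoin ℂ {t} = ⊤) ∨
    ((∀ f ∈ LD (dv E 1), ∃ c : ℂ, f = algebraMap ℂ K c) ∧ ∃ u v : K, oz E u = -2 ∧ oz E v = -3 ∧ (∀ E', E' ≠ E → 0 ≤ E'.ord u) ∧ (∀ E', E' ≠ E → 0 ≤ E'.ord v)) := by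
  by_cases h1 : ∀ f ∈ LD (dv E 1), ∃ c : ℂ, f = algebraMap ℂ K c
  · right
    refine ⟨h1, ?_⟩
    obtain ⟨W2, hfin2, hle2, hdim2⟩ := hW 2 (by norm_num)
    obtain ⟨W3, hfin3, hle3, hdim3⟩ := hW 3 (by norm_num)
    obtain ⟨u, huW, huc⟩ := exists_not_const (W := W2) hdim2
    have hu := hle2 huW
    have hu0 : u ≠ 0 := by
      have := huc 0
      simpa using this
    have hu' : u ∉ LD (dv E 1) := fun h => by
      obtain ⟨c, hc⟩ := h1 u h
      exact huc c hc
    have hnot : ¬ W3 ≤ LD (dv E 2) := by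
      intro hle
      have hs := finrank_le_step hK W3 E (-2) (fun f hf => by
        have := (ella_mem_iff.1 (hle hf)).1
        exact this)
      have hI : Module.finrank ℂ (W3 ⊓ ordGe E (-2 + 1) : Submodule ℂ K) ≤ 1 := by
        by_contra hcon
        push Not at hcon
        have : FiniteDimensional ℂ (W3 ⊓ ordGe E (-2 + 1) : Submodule ℂ K) :=
          Submodule.finiteDimensional_of_le inf_le_left
        obtain ⟨f, hf, hfc⟩ := exists_not_const (W := W3 ⊓ ordGe E (-2 + 1)) hcon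
        rw [Submodule.mem_inf] at hf
        have hf1 : f ∈ LD (dv E 1) := by
          rw [ella_mem_iff]
          exact ⟨hf.2, (ella_mem_iff.1 (hle hf.1)).2⟩
        obtain ⟨c, hc⟩ := h1 f hf1
        exact hfc c hc
      omega
    obtain ⟨v, hvW, hv'⟩ : ∃ v ∈ W3, v ∉ LD (dv E 2) := by
      by_contra hcon
      push Not at hcon
      exact hnot hcon
    have hv := hle3 hvW
    have hv0 : v ≠ 0 := by
      rintro rfl
      exact hv' (Submodule.zero_mem _)
    refine ⟨u, v, ?_, ?_, (ella_mem_iff.1 hu).2, (ella_mem_iff.1 hv).2⟩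
    · exact ella_oz_eq (k := 1) hu0 (by exact_mod_cast hu) hu'
    · exact ella_oz_eq (k := 2) hv0 (by exact_mod_cast hv) hv'
  · left
    push Not at h1
    obtain ⟨f, hf, hfc⟩ := h1
    exact ⟨f, top_of_dv_one hK hf hfc⟩

end Pool.Agent.H13.CV
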