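import Pool.Agent.H13.CV.Pl
import Pool.Agent.H62.FC.Trdeg

/-!
# CV FunF: the function field of a curve in projective space

`FunField Q` is generated over `ℂ` by the finitely many functions `ratio Q i j`.  `exists_tr`: the member of the transcendence basis.  `fin`: let `x` be transcendental.  The transcendence degree is `1`, so `x` is
a transcendence basis (`AlgebraicIndependent.isTranscendenceBasis_of_trdeg_le_of_finite` or similar, see the proof of `trdeg_lt` in `Pool/Agent/H17BP/TrdegLt.lean`), and `K` is algebraic over
`ℂ(x)` and generated by finitely many elements, so it is finite over `ℂ(x)` (`IntermediateField.finiteDimensional_adjoin`, `IntermediateField.finiteDimensional_of_exists_…`,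
`IntermediateField.essFiniteType`, `Algebra.IsAlgebraic` + `Algebra.EssFiniteType` → `Module.Finite`: `Algebra.finite_of_essFiniteType_of_isAlgebraic`-like; there is also
`Pool.Agent.H23` material with `[Algebra.EssFiniteType ℂ K]`).
-/

set_option autoImplicit false

open MvPolynomial
open Pool.Agent.H17LG.Variety (FunField OnBoundary IsLogGeneralType)
open Pool.Agent.H62.FC (Homog)

noncomputable section

namespace Pool.Agent.H13.CV

variable {N : ℕ}

private lemma funF_core {K : Type} [Field K] [Algebra ℂ K] (y : Fin (N + 1) → K)
    (hy : IntermediateField.adjoin ℂ (Set.range y) = ⊤) {z : Fin 1 → K} (hz : IsTranscendenceBasis ℂ z) :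
    CurveField K := by
  refine ⟨⟨z 0, hz.1.transcendental 0⟩, fun x hx => ?_⟩
  have hind : AlgebraicIndependent ℂ (fun _ : Fin 1 => x) := algebraicIndependent_unique_type_iff.2 hx
  have h2 := IsTranscendenceBasis.cardinalMk_eq_trdeg (R := ℂ) (A := K) (x := z) hz
  have hbasis : IsTranscendenceBasis ℂ fun _ : Fin 1 => x :=
    hind.isTranscendenceBasis_of_trdeg_le_of_finite h2.ge
  have halg := hbasis.isAlgebraic_field
  have hr : Set.range (fun _ : Fin 1 => x) = {x} := Set.range_const
  rw [hr] at halg
  have hfin : FiniteDimensional (IntermediateField.adjoin ℂ {x})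
      (IntermediateField.adjoin (IntermediateField.adjoin ℂ {x}) (Set.range y)) :=
    IntermediateField.finiteDimensional_adjoin fun u _ => (halg.isAlgebraic u).isIntegral
  have htop : IntermediateField.adjoin (IntermediateField.adjoin ℂ {x}) (Set.range y) = ⊤ := by
    rw [eq_top_iff]
    intro u _
    have hu : u ∈ IntermediateField.adjoin ℂ (Set.range y) := by
      rw [hy]
      exact IntermediateField.mem_top
    have hle : IntermediateField.adjoin ℂ (Set.range y) ≤
        (IntermediateField.adjoin (IntermediateField.adjoin ℂ {x}) (Set.range y)).restrictScalars ℂ := by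
      rw [IntermediateField.adjoin_le_iff]
      exact IntermediateField.subset_adjoin (IntermediateField.adjoin ℂ {x}) (Set.range y)
    exact hle hu
  rw [htop] at hfin
  exact FiniteDimensional.of_surjective
    ((⊤ : IntermediateField (IntermediateField.adjoin ℂ {x}) K).val.toLinearMap)
    (fun u => ⟨⟨u, IntermediateField.mem_top⟩, rfl⟩)

theorem curveField_funField (Q : Ideal (MvPolynomial (Fin (N + 1)) ℂ)) [Q.IsPrime] (hz : ∃ z : Fin 1 → FunField Q, IsTranscendenceBasis ℂ z) :
    CurveField (FunField Q) := by
  obtain ⟨z, hz⟩ := hz
  obtain ⟨j, hj⟩ := Pool.Agent.H92.GT.Proj.exists_coordFun_ne_zero Q (k := 0) z hz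
  obtain ⟨y, -, hygen, -⟩ := Pool.Agent.H92.GT.Proj.proj_point Q hj
  exact funF_core (K := FunField Q) y hygen hz

end Pool.Agent.H13.CV
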