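import Pool.Agent.H13.CV.Deg

/-!
# CV CaseA: functions with a simple pole

`top_of_dv_one`: `f` has a pole (`const_of_no_pole`), so `oz E f = - 1` and there are no other poles: `adjoin_eq_top_of_simple_pole`.
`exists_not_const`: the constants form a subspace of dimension `1`, it does not contain `W`.
-/

set_option autoImplicit false

open Pool.Agent.H23.Fano (PrimeDivisorOver Form regularForms)

noncomputable section

namespace Pool.Agent.H13.CV

variable {K : Type} [Field K] [Algebra ℂ K]

/-- a non-constant function with at most a simple pole at `E` generates the field -/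
theorem top_of_dv_one (hK : CurveField K) {E : Place K} {f : K} (hf : f ∈ LD (dv E 1)) (hc : ∀ c : ℂ, f ≠ algebraMap ℂ K c) :
    IntermediateField.adjoin ℂ {f} = ⊤ := by
  have hf' : ∀ E' : Place K, ((-(dv E 1 E') : ℤ) : WithTop ℤ) ≤ E'.ord f := by
    intro E'
    have h1 := (Submodule.mem_iInf _).mp hf E'
    exact h1
  have hoth : ∀ E' : Place K, E' ≠ E → 0 ≤ E'.ord f := by
    intro E' hE'
    have h1 := hf' E'
    unfold dv at h1
    rw [if_neg hE', neg_zero] at h1
    exact h1
  have hE1 : ((-1 : ℤ) : WithTop ℤ) ≤ E.ord f := by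
    have h1 := hf' E
    unfold dv at h1
    rw [if_pos rfl] at h1
    exact h1
  have hneg : E.ord f < 0 := by
    by_contra h
    rw [not_lt] at h
    obtain ⟨c, hc'⟩ := const_of_no_pole hK (f := f) (fun E' => by
      by_cases hE' : E' = E
      · rw [hE']
        exact h
      · exact hoth E' hE')
    exact hc c hc'
  refine adjoin_eq_top_of_simple_pole hK (E := E) ?_ hoth
  unfold oz
  have hne : E.ord f ≠ ⊤ := by
    intro h
    rw [h] at hneg
    exact absurd hneg (not_lt.mpr le_top)
  obtain ⟨a, ha⟩ := WithTop.ne_top_iff_exists.mp hne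
  rw [← ha] at hneg hE1 ⊢
  have h1 : a < 0 := by exact_mod_cast hneg
  have h2 : -1 ≤ a := by exact_mod_cast hE1
  have h3 : a = -1 := by omega
  rw [h3]
  rfl

theorem exists_not_const {W : Submodule ℂ K} [FiniteDimensional ℂ W] (h : 2 ≤ Module.finrank ℂ W) : ∃ f ∈ W, ∀ c : ℂ, f ≠ algebraMap ℂ K c := by
  by_contra hcon
  push Not at hcon
  have hle : W ≤ Submodule.span ℂ {(1 : K)} := by
    intro f hf
    obtain ⟨c, hc⟩ := hcon f hf
    rw [Submodule.mem_span_singleton]
    exact ⟨c, by rw [hc, Algebra.smul_def, mul_one]⟩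
  have h1 := Submodule.finrank_mono hle
  have h2 : Module.finrank ℂ (Submodule.span ℂ {(1 : K)}) ≤ 1 := by
    have := finrank_span_le_card (R := ℂ) ({(1 : K)} : Set K)
    simpa using this
  omega

end Pool.Agent.H13.CV
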