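import Pool.Agent.H13.CV.Dx

/-!
# CV Lgt: pluricanonical forms

`pole_mul_pow`: `ω = g • η`, `0 ≤ ord (h * g ^ 1)`; the same `g`, `η`: `f * h ^ m * g ^ m = f * (h * g) ^ m`.
`lgt_of_forms`: in the definition of `IsLogGeneralType` take `r = 1`, `f = ![f₀, f₁]`.  `K` is finite over `ℂ(f₁ / f₀)` (`hK.fin`), so it is algebraic over `ℂ(f₀ / f₀, f₁ / f₀)`.
-/

set_option autoImplicit false

open Pool.Agent.H23.Fano (PrimeDivisorOver Form regularForms)
open Pool.Agent.H17LG.Variety (PoleAtMost IsLogGeneralType)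

noncomputable section

namespace Pool.Agent.H13.CV

variable {K : Type} [Field K] [Algebra ℂ K]

theorem pole_mul_pow {E : Place K} {h f : K} {ω : Form K 1} {m p : ℕ} (hh : PoleAtMost 0 E 1 h ω) (hf : 0 ≤ E.ord f + p) : PoleAtMost p E m (f * h ^ m) ω := by
  obtain ⟨g, η, hη, hω, h0⟩ := hh
  refine ⟨g, η, hη, hω, ?_⟩
  have h1 : (0 : WithTop ℤ) ≤ E.ord (h * g) := by
    simpa using h0
  have h2 : f * h ^ m * g ^ m = f * (h * g) ^ m := by
    rw [mul_pow, mul_assoc]
  have h3 : (0 : WithTop ℤ) ≤ E.ord ((h * g) ^ m) := by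
    rw [E.ord.map_pow]
    exact nsmul_nonneg h1 m
  rw [h2, E.ord.map_mul]
  calc (0 : WithTop ℤ) ≤ E.ord f + p := hf
    _ = E.ord f + 0 + p := by rw [add_zero]
    _ ≤ E.ord f + E.ord ((h * g) ^ m) + p := by
      gcongr

/-- two pluricanonical forms with a non-constant ratio -/
theorem lgt_of_forms (hK : CurveField K) {B : Place K → Prop} {ω : Form K 1} (hω : ω ≠ 0) {m : ℕ} (hm : 1 ≤ m) {f₀ f₁ : K} (hf₀ : f₀ ≠ 0)
    (htr : Transcendental ℂ (f₁ / f₀)) (h₀ : ∀ E, (¬ B E → PoleAtMost 0 E m f₀ ω) ∧ (B E → PoleAtMost m E m f₀ ω))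
    (h₁ : ∀ E, (¬ B E → PoleAtMost 0 E m f₁ ω) ∧ (B E → PoleAtMost m E m f₁ ω)) : IsLogGeneralType B := by
  refine ⟨m, hm, ω, hω, 1, ![f₀, f₁], by simpa using hf₀, ?_, ?_⟩
  · intro i E
    fin_cases i
    · exact h₀ E
    · exact h₁ E
  · have he : IntermediateField.adjoin ℂ (Set.range fun i : Fin (1 + 1) => (![f₀, f₁] : Fin 2 → K) i / (![f₀, f₁] : Fin 2 → K) 0)
        = IntermediateField.adjoin ℂ {f₁ / f₀} := by
      apply le_antisymm
      · rw [IntermediateField.adjoin_le_iff]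
        rintro _ ⟨i, rfl⟩
        fin_cases i
        · have : (f₀ / f₀ : K) ∈ IntermediateField.adjoin ℂ {f₁ / f₀} := by
            rw [div_self hf₀]
            exact one_mem _
          simpa using this
        · have : (f₁ / f₀ : K) ∈ IntermediateField.adjoin ℂ {f₁ / f₀} :=
            IntermediateField.subset_adjoin _ _ rfl
          simpa using this
      · apply IntermediateField.adjoin.mono
        rintro _ rfl
        exact ⟨1, by simp⟩
    rw [he]
    have := hK.fin _ htr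
    exact Algebra.IsAlgebraic.of_finite _ _

end Pool.Agent.H13.CV
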