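import Pool.Agent.H13.CV.Dims
import Pool.Agent.H13.CV.CaseA
import Pool.Agent.H13.CV.Lgt

/-!
# CV PoleF: functions with a single pole

`exists_pole_only`: let `oz E t = 1`, `x = t⁻¹` (transcendental: `tr_of_oz_ne`), `L = ℂ(x)`, `n = finrank L K`, `w, a` a Birkhoff basis (`exists_birk`).  `Birk.exists_dv` with `k = m ≥ 2 + ∑ i, a i`, `oz E x = - 1`:
`∑ i, (m + 1 - a i) ≥ n * (m + 1) - ∑ a i`, so `finrank W ≥ n + m - ∑ a i ≥ 2`; so `W` contains a non-constant function (`exists_not_const`), it is transcendental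
(`transcendental_of_not_const`).
`lgt_of_boundary`: the functions `h ^ k`, `f * h ^ k` (`pole_mul_pow`), `lgt_of_forms` with `m = k`: at `E₀` (`B E₀`): `f` has order `≥ - k`; at the other places `0 ≤ ord f`.
-/

set_option autoImplicit false

open Pool.Agent.H23.Fano (PrimeDivisorOver Form regularForms)
open Pool.Agent.H17LG.Variety (PoleAtMost IsLogGeneralType)

noncomputable section

namespace Pool.Agent.H13.CV

variable {K : Type} [Field K] [Algebra ℂ K]

theorem exists_pole_only (hK : CurveField K) (E : Place K) : ∃ (f : K) (k : ℕ), 1 ≤ k ∧ Transcendental ℂ f ∧ f ∈ LD (dv E k) := by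
  obtain ⟨t, -, ht⟩ := exists_uni E
  have hoz : oz E t⁻¹ = -1 := by rw [oz_inv, ht]
  have htr : Transcendental ℂ t⁻¹ := tr_of_oz_ne (E := E) (by rw [hoz]; norm_num)
  have hL : Gen (IntermediateField.adjoin ℂ {t⁻¹}) t⁻¹ := ⟨htr, rfl⟩
  have := hK.fin _ htr
  obtain ⟨w, a, hw⟩ := exists_birk hK hL
  have hE : E.ord t⁻¹ < 0 := by
    rw [neg_iff, hoz]
    norm_num
  obtain ⟨n, hn⟩ : ∃ n, n = Module.finrank (IntermediateField.adjoin ℂ {t⁻¹}) K := ⟨_, rfl⟩
  obtain ⟨A, hA⟩ : ∃ A, A = ∑ i, a i := ⟨_, rfl⟩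
  obtain ⟨W, hWf, hW, hWd⟩ := hw.exists_dv hK hL (A + 2) (A + 2) hE (by rw [hoz]; simp)
  have h1 : n * (A + 2 + 1) ≤ (∑ i, (A + 2 + 1 - a i)) + A := by
    rw [hA, ← Finset.sum_add_distrib, ← hA]
    calc n * (A + 2 + 1) = ∑ _i : Fin (Module.finrank (IntermediateField.adjoin ℂ {t⁻¹}) K), (A + 2 + 1) := by
          simp [hn]
      _ ≤ _ := Finset.sum_le_sum fun i _ => by omega
  have hn1 : 1 ≤ n := by
    rw [hn]
    exact Module.finrank_pos
  have h2 : 2 ≤ Module.finrank ℂ W := by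
    obtain ⟨S, hS⟩ : ∃ S, S = ∑ i, (A + 2 + 1 - a i) := ⟨_, rfl⟩
    rw [← hS] at hWd h1
    rw [← hn] at hWd
    have h3 : n * (A + 2 + 1) = (A + 2) * n + n := by ring
    rw [h3] at h1
    generalize (A + 2) * n = z at h1 hWd
    omega
  have := hWf
  obtain ⟨f, hf, hc⟩ := exists_not_const h2
  exact ⟨f, A + 2, by omega, transcendental_of_not_const hc, hW hf⟩

theorem lgt_of_boundary (hK : CurveField K) {B : Place K → Prop} {ω : Form K 1} (hω : ω ≠ 0) {h : K} (h0 : h ≠ 0) (hh : ∀ E, PoleAtMost 0 E 1 h ω)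
    {E₀ : Place K} (hE₀ : B E₀) : IsLogGeneralType B := by
  obtain ⟨f, k, hk, htr, hf⟩ := exists_pole_only hK E₀
  rw [mem_LD] at hf
  have hone : ∀ (E : Place K) (p : ℕ), PoleAtMost p E k (h ^ k) ω := by
    intro E p
    have h1 := pole_mul_pow (f := (1 : K)) (m := k) (p := p) (hh E) (by
      rw [E.ord.map_one, zero_add]
      exact_mod_cast Nat.zero_le p)
    rwa [one_mul] at h1
  have hle : ∀ E : Place K, 0 ≤ E.ord f + ((k : ℕ) : WithTop ℤ) := by
    intro E
    have h1 := hf E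
    have h2 : dv E₀ k E ≤ (k : ℤ) := by
      unfold dv
      split_ifs
      · exact le_rfl
      · positivity
    have h3 : ((-(k : ℤ) : ℤ) : WithTop ℤ) ≤ E.ord f := le_trans (by exact_mod_cast neg_le_neg h2) h1
    have h4 : (0 : WithTop ℤ) = ((-(k : ℤ) : ℤ) : WithTop ℤ) + ((k : ℕ) : WithTop ℤ) := by
      have : ((k : ℕ) : WithTop ℤ) = ((k : ℤ) : WithTop ℤ) := by norm_cast
      rw [this, ← WithTop.coe_add, neg_add_cancel]
      rfl
    rw [h4]
    exact add_le_add h3 le_rfl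
  refine lgt_of_forms hK hω hk (pow_ne_zero k h0) (f₁ := f * h ^ k) ?_ (fun E => ⟨fun _ => hone E 0, fun _ => hone E k⟩)
    (fun E => ⟨fun hE => ?_, fun _ => pole_mul_pow (hh E) (hle E)⟩)
  · rwa [mul_div_assoc, div_self (pow_ne_zero k h0), mul_one]
  · refine pole_mul_pow (hh E) ?_
    have h1 := hf E
    have h2 : dv E₀ k E = 0 := by
      unfold dv
      rw [if_neg]
      rintro rfl
      exact hE hE₀
    rw [h2, neg_zero] at h1
    simpa using h1

end Pool.Agent.H13.CV
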