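import Pool.Agent.H13.CV.Loc

/-!
# CV BirkA: replacing an element of a basis over `ℂ[x]`

`w' i₀ = ∑ c i * w i`, `w' i = w i` for `i ≠ i₀`: a basis over `L` because `c i₀ = γ ≠ 0` (e.g. `Module.Basis.mk` with linear independence and span; or the change of basis by an invertible matrix / linear
equivalence; or `basisOfLinearIndependentOfCardEqFinrank`).  Let `f = ∑ r i * w i = ∑ r' i * w' i`: `r i₀ = γ r' i₀`, `r i = r' i + r' i₀ * c i` for `i ≠ i₀`.  So the `r i` are in `ℂ[x]` if and only if the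
`r' i` are (`γ⁻¹ ∈ ℂ[x]`).
-/

set_option autoImplicit false

open Pool.Agent.H23.Fano (PrimeDivisorOver Form regularForms)

noncomputable section

namespace Pool.Agent.H13.CV

variable {K : Type} [Field K] [Algebra ℂ K] {L : IntermediateField ℂ K} {x : K} {n : ℕ}

theorem AffB.replace (hL : Gen L x) {w : Module.Basis (Fin n) L K} (hw : AffB x w) (i₀ : Fin n) (c : Fin n → K)
    (hc : ∀ i, c i ∈ Algebra.adjoin ℂ {x}) {γ : ℂ} (hγ : γ ≠ 0) (hi₀ : c i₀ = algebraMap ℂ K γ) :
    ∃ w' : Module.Basis (Fin n) L K, AffB x w' ∧ w' i₀ = ∑ i, c i * w i ∧ ∀ i, i ≠ i₀ → w' i = w i := by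
  classical
  have hcL : ∀ i, c i ∈ L := by
    intro i
    rw [hL.eq]
    exact IntermediateField.algebra_adjoin_le_adjoin ℂ {x} (hc i)
  obtain ⟨c', hc'⟩ : ∃ c' : Fin n → L, ∀ i, ((c' i : L) : K) = c i := ⟨fun i => ⟨c i, hcL i⟩, fun i => rfl⟩
  obtain ⟨g, hg⟩ : ∃ g : L, g = algebraMap ℂ L γ := ⟨_, rfl⟩
  have hgK : (g : K) = algebraMap ℂ K γ := by rw [hg]; rfl
  have hg0 : g ≠ 0 := by
    rw [hg]
    exact (map_ne_zero_iff _ (algebraMap ℂ L).injective).2 hγ
  have hcg : c' i₀ = g := by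
    apply Subtype.ext
    rw [hc' i₀, hi₀, hgK]
  obtain ⟨u, hu⟩ : ∃ u : K, u = (∑ i, c' i • w i) - w i₀ := ⟨_, rfl⟩
  have hur : ∀ i, w.repr u i = c' i - if i = i₀ then 1 else 0 := by
    intro i
    rw [hu, map_sub, Finsupp.sub_apply, Module.Basis.repr_sum_self, Module.Basis.repr_self,
      Finsupp.single_apply]
    congr 1
    by_cases h : i = i₀
    · simp [h]
    · simp [h, Ne.symm h]
  have hur0 : w.repr u i₀ = g - 1 := by rw [hur, if_pos rfl, hcg]
  have hT : ∀ f : K, (LinearMap.id + (LinearMap.toSpanSingleton L K u) ∘ₗ (w.coord i₀) : K →ₗ[L] K) f =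
      f + w.repr f i₀ • u := by
    intro f
    simp
  have hS : ∀ f : K, (LinearMap.id - (LinearMap.toSpanSingleton L K u) ∘ₗ (g⁻¹ • w.coord i₀) : K →ₗ[L] K) f =
      f - (g⁻¹ * w.repr f i₀) • u := by
    intro f
    simp
  obtain ⟨T, hTd⟩ : ∃ T : K →ₗ[L] K, ∀ f, T f = f + w.repr f i₀ • u := ⟨_, hT⟩
  obtain ⟨S, hSd⟩ : ∃ S : K →ₗ[L] K, ∀ f, S f = f - (g⁻¹ * w.repr f i₀) • u := ⟨_, hS⟩
  have hTS : ∀ f, T (S f) = f := by
    intro f
    rw [hTd, hSd, map_sub, map_smul, Finsupp.sub_apply, Finsupp.smul_apply, hur0, smul_eq_mul]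
    have e : w.repr f i₀ - g⁻¹ * w.repr f i₀ * (g - 1) = g⁻¹ * w.repr f i₀ := by
      field_simp
      ring
    rw [e]
    abel
  have hST : ∀ f, S (T f) = f := by
    intro f
    rw [hSd, hTd, map_add, map_smul, Finsupp.add_apply, Finsupp.smul_apply, hur0, smul_eq_mul]
    have e : g⁻¹ * (w.repr f i₀ + w.repr f i₀ * (g - 1)) = w.repr f i₀ := by
      field_simp
      ring
    rw [e]
    abel
  let e : K ≃ₗ[L] K := LinearEquiv.ofLinearMap T S (LinearMap.ext hTS) (LinearMap.ext hST)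
  have he : ∀ f, e f = T f := fun f => rfl
  have hes : ∀ f, e.symm f = S f := fun f => rfl
  have hrepr : ∀ f i, (w.map e).repr f i = w.repr f i - g⁻¹ * w.repr f i₀ * (c' i - if i = i₀ then 1 else 0) := by
    intro f i
    rw [Module.Basis.map_repr, LinearEquiv.trans_apply, hes, hSd, map_sub, map_smul, Finsupp.sub_apply,
      Finsupp.smul_apply, hur, smul_eq_mul]
  have hgi : algebraMap ℂ K γ⁻¹ ∈ Algebra.adjoin ℂ {x} := Subalgebra.algebraMap_mem _ _
  have hgg : algebraMap ℂ K γ ∈ Algebra.adjoin ℂ {x} := Subalgebra.algebraMap_mem _ _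
  have hginv : ((g⁻¹ : L) : K) = algebraMap ℂ K γ⁻¹ := by
    rw [map_inv₀, ← hgK]
    rfl
  have hd : ∀ i, (((c' i - if i = i₀ then 1 else 0 : L)) : K) ∈ Algebra.adjoin ℂ {x} := by
    intro i
    have e1 : (((c' i - if i = i₀ then 1 else 0 : L)) : K) = c i - if i = i₀ then 1 else 0 := by
      split_ifs
      · rw [← hc' i]; rfl
      · rw [← hc' i]; rfl
    rw [e1]
    refine Subalgebra.sub_mem _ (hc i) ?_
    split_ifs
    · exact Subalgebra.one_mem _
    · exact Subalgebra.zero_mem _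
  refine ⟨w.map e, ?_, ?_, ?_⟩
  · intro f
    rw [hw f]
    constructor
    · intro h i
      rw [hrepr]
      have e1 : ((w.repr f i - g⁻¹ * w.repr f i₀ * (c' i - if i = i₀ then 1 else 0) : L) : K) =
          ((w.repr f i : L) : K) - ((g⁻¹ : L) : K) * ((w.repr f i₀ : L) : K) *
            (((c' i - if i = i₀ then 1 else 0 : L)) : K) := rfl
      rw [e1, hginv]
      exact Subalgebra.sub_mem _ (h i) (Subalgebra.mul_mem _ (Subalgebra.mul_mem _ hgi (h i₀)) (hd i))
    · intro h
      have h0 : ((w.repr f i₀ : L) : K) ∈ Algebra.adjoin ℂ {x} := by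
        have h1 := h i₀
        rw [hrepr, if_pos rfl, hcg] at h1
        have e1 : w.repr f i₀ - g⁻¹ * w.repr f i₀ * (g - 1) = g⁻¹ * w.repr f i₀ := by
          field_simp
          ring
        rw [e1] at h1
        have e2 : ((w.repr f i₀ : L) : K) = algebraMap ℂ K γ * (((g⁻¹ * w.repr f i₀ : L)) : K) := by
          have e3 : w.repr f i₀ = g * (g⁻¹ * w.repr f i₀) := by
            field_simp
          rw [← hgK]
          conv_lhs => rw [e3]
          rfl
        rw [e2]
        exact Subalgebra.mul_mem _ hgg h1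
      intro i
      have h1 := h i
      rw [hrepr] at h1
      have e1 : ((w.repr f i : L) : K) =
          ((w.repr f i - g⁻¹ * w.repr f i₀ * (c' i - if i = i₀ then 1 else 0) : L) : K) +
            ((g⁻¹ : L) : K) * ((w.repr f i₀ : L) : K) * (((c' i - if i = i₀ then 1 else 0 : L)) : K) := by
        have e2 : w.repr f i = (w.repr f i - g⁻¹ * w.repr f i₀ * (c' i - if i = i₀ then 1 else 0)) +
            g⁻¹ * w.repr f i₀ * (c' i - if i = i₀ then 1 else 0) := by ring
        conv_lhs => rw [e2]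
        rfl
      rw [e1, hginv]
      exact Subalgebra.add_mem _ h1 (Subalgebra.mul_mem _ (Subalgebra.mul_mem _ hgi h0) (hd i))
  · rw [Module.Basis.map_apply, he, hTd, Module.Basis.repr_self, Finsupp.single_eq_same, one_smul, hu]
    have e1 : ∑ i, c' i • w i = ∑ i, c i * w i := by
      refine Finset.sum_congr rfl fun i _ => ?_
      rw [← hc' i]
      rfl
    rw [e1]
    ring
  · intro i hi
    rw [Module.Basis.map_apply, he, hTd, Module.Basis.repr_self, Finsupp.single_apply, if_neg hi, zero_smul,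
      add_zero]

end Pool.Agent.H13.CV
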