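import Pool.Agent.H13.CV.BirkA

/-!
# CV BirkB: a basis with minimal pole orders at infinity

`exists_bound`: the places with `ord x < 0` are finitely many (`finite_over` for `x⁻¹`, `Gen.inv`); `a ≥ - oz E f` for all of them.
`exists_min`: for every basis `w` with `AffB x w` (one exists: `exists_affB`) let `a i` be the least `a : ℕ` with `RegLoc x⁻¹ ((x⁻¹) ^ a * w i)` (`Nat.find`, `exists_bound`); choose `w` with `∑ a i`
minimal (`Nat.find` or well-foundedness).  Claim: if `∑ i, γ i • ((x⁻¹) ^ a i * w i) = x⁻¹ * g` with `RegLoc x⁻¹ g`, `γ i : ℂ`, then all `γ i = 0`.  Suppose not; let `i₀` with `γ i₀ ≠ 0` and `a i₀`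
maximal among the `a i` with `γ i ≠ 0`.  Let `c i = γ i • x ^ (a i₀ - a i)` if `γ i ≠ 0`, and `0` otherwise; `c i₀ = γ i₀`.  Multiplying by `x ^ a i₀`: `w₀' = ∑ c i * w i = x ^ (a i₀) * x⁻¹ * g`.
`AffB.replace` gives a basis `w'` with `w' i₀ = w₀'`.  If `1 ≤ a i₀` then `(x⁻¹) ^ (a i₀ - 1) * w₀' = g` is `RegLoc x⁻¹`, so the sum for `w'` is smaller: contradiction.  If `a i₀ = 0`, then
`w₀' = x⁻¹ * g` is regular over `x = ∞`, with positive order there, and it is `RegAff x` (`AffB.basis_regAff` for `w'`); so it has no poles, and it has a zero at a place over `x = ∞` (`exists_place_inf`), so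
`w₀' = 0` (`zero_of_no_pole`): contradiction, as it is an element of a basis.
-/

set_option autoImplicit false

open Pool.Agent.H23.Fano (PrimeDivisorOver Form regularForms)

noncomputable section

namespace Pool.Agent.H13.CV

variable {K : Type} [Field K] [Algebra ℂ K] {L : IntermediateField ℂ K} {x : K} {n : ℕ}

theorem exists_bound (hL : Gen L x) [FiniteDimensional L K] (f : K) : ∃ a : ℕ, RegLoc x⁻¹ ((x⁻¹) ^ a * f) := by
  classical
  have hx := hL.ne_zero
  have hfin := finite_over (Gen.inv hL)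
  rcases eq_or_ne f 0 with rfl | hf
  · refine ⟨0, fun E _ => ?_⟩
    rw [mul_zero, E.ord.map_zero]
    exact le_top
  refine ⟨∑ E ∈ hfin.toFinset, (-oz E f).toNat, fun E hE => ?_⟩
  rw [nonneg_iff]
  right
  rw [oz_mul E (pow_ne_zero _ (inv_ne_zero hx)) hf, oz_pow]
  have h1 : 0 < oz E x⁻¹ := by
    rcases pos_iff.mp hE with h | h
    · exact absurd h (inv_ne_zero hx)
    · exact h
  have h2 : (-oz E f).toNat ≤ ∑ E ∈ hfin.toFinset, (-oz E f).toNat :=
    Finset.single_le_sum (f := fun E => (-oz E f).toNat) (fun _ _ => Nat.zero_le _) (hfin.mem_toFinset.mpr hE)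
  have h3 : -oz E f ≤ ((∑ E ∈ hfin.toFinset, (-oz E f).toNat : ℕ) : ℤ) :=
    (Int.self_le_toNat _).trans (by exact_mod_cast h2)
  have h4 : (0 : ℤ) ≤ ((∑ E ∈ hfin.toFinset, (-oz E f).toNat : ℕ) : ℤ) := Int.natCast_nonneg _
  generalize ((∑ E ∈ hfin.toFinset, (-oz E f).toNat : ℕ) : ℤ) = s at h3 h4 ⊢
  nlinarith

theorem exists_min (hK : CurveField K) (hL : Gen L x) [FiniteDimensional L K] :
    ∃ (w : Module.Basis (Fin (Module.finrank L K)) L K) (a : Fin (Module.finrank L K) → ℕ), AffB x w ∧ (∀ i, RegLoc x⁻¹ ((x⁻¹) ^ a i * w i)) ∧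
      ∀ (γ : Fin (Module.finrank L K) → ℂ) (g : K), RegLoc x⁻¹ g → ∑ i, γ i • ((x⁻¹) ^ a i * w i) = x⁻¹ * g → ∀ i, γ i = 0 := by
  classical
  have hx := hL.ne_zero
  have hP : ∃ s : ℕ, ∃ (w : Module.Basis (Fin (Module.finrank L K)) L K) (a : Fin (Module.finrank L K) → ℕ),
      AffB x w ∧ (∀ i, RegLoc x⁻¹ ((x⁻¹) ^ a i * w i)) ∧ ∑ i, a i = s := by
    obtain ⟨w, hw⟩ := exists_affB hL
    choose a ha using fun i => exists_bound hL (w i)
    exact ⟨_, w, a, hw, ha, rfl⟩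
  obtain ⟨w, a, hw, ha, hs⟩ := Nat.find_spec hP
  have hmin : ∀ (w' : Module.Basis (Fin (Module.finrank L K)) L K) (a' : Fin (Module.finrank L K) → ℕ), AffB x w' →
      (∀ i, RegLoc x⁻¹ ((x⁻¹) ^ a' i * w' i)) → ∑ i, a i ≤ ∑ i, a' i := by
    intro w' a' h1 h2
    rw [hs]
    exact Nat.find_min' hP ⟨w', a', h1, h2, rfl⟩
  refine ⟨w, a, hw, ha, fun γ g hg hsum => ?_⟩
  by_contra hcon
  push Not at hcon
  obtain ⟨i₁, hi₁⟩ := hcon
  obtain ⟨i₀, hi₀, hmax⟩ := Finset.exists_max_image (Finset.univ.filter fun i => γ i ≠ 0) a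
    ⟨i₁, Finset.mem_filter.mpr ⟨Finset.mem_univ _, hi₁⟩⟩
  have hγ : γ i₀ ≠ 0 := (Finset.mem_filter.mp hi₀).2
  have hmax' : ∀ i, γ i ≠ 0 → a i ≤ a i₀ := fun i hi => hmax i (Finset.mem_filter.mpr ⟨Finset.mem_univ _, hi⟩)
  have hxm : x ∈ Algebra.adjoin ℂ {x} := Algebra.subset_adjoin rfl
  obtain ⟨w', hw', hw0, hwi⟩ := AffB.replace hL hw i₀ (fun i => γ i • x ^ (a i₀ - a i))
    (fun i => Subalgebra.smul_mem _ (Subalgebra.pow_mem _ hxm _) _) hγ
    (by simp [Algebra.smul_def])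
  have hkey : w' i₀ = x ^ (a i₀) * (x⁻¹ * g) := by
    rw [hw0, ← hsum, Finset.mul_sum]
    refine Finset.sum_congr rfl fun i _ => ?_
    rcases eq_or_ne (γ i) 0 with h | h
    · simp [h]
    · have h1 : x ^ (a i₀ - a i) = x ^ a i₀ * (x⁻¹) ^ a i := by
        rw [inv_pow, pow_sub₀ x hx (hmax' i h)]
      rw [h1]
      simp only [Algebra.smul_def]
      ring
  rcases Nat.eq_zero_or_pos (a i₀) with h0 | h0
  · -- no poles and a zero
    rw [h0, pow_zero, one_mul] at hkey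
    have h1 : ∀ E : Place K, 0 ≤ E.ord (w' i₀) := by
      intro E
      rcases le_or_gt 0 (E.ord x) with h | h
      · exact hw'.basis_regAff i₀ E h
      · rw [hkey]
        have h2 : 0 < E.ord x⁻¹ := (inv_pos_iff hx).mpr h
        exact (pos_mul h2 (hg E h2)).le
    obtain ⟨E, hE⟩ := exists_place_inf hK hL.tr
    have h2 : 0 < E.ord x⁻¹ := (inv_pos_iff hx).mpr hE
    have h3 : w' i₀ = 0 := zero_of_no_pole hK h1 ⟨E, by rw [hkey]; exact pos_mul h2 (hg E h2)⟩
    exact w'.ne_zero i₀ h3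
  · have h1 := hmin w' (Function.update a i₀ (a i₀ - 1)) hw' (fun i => by
      rcases eq_or_ne i i₀ with rfl | hi
      · rw [Function.update_self, hkey]
        have h2 : (x⁻¹) ^ (a i - 1) * (x ^ a i * (x⁻¹ * g)) = g := by
          obtain ⟨k, hk⟩ : ∃ k, a i = k + 1 := ⟨a i - 1, by omega⟩
          rw [hk, Nat.add_sub_cancel, pow_succ]
          have h3 : (x⁻¹) ^ k * x ^ k = 1 := by rw [inv_pow]; exact inv_mul_cancel₀ (pow_ne_zero _ hx)
          calc (x⁻¹) ^ k * (x ^ k * x * (x⁻¹ * g)) = ((x⁻¹) ^ k * x ^ k) * (x * x⁻¹) * g := by ring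
            _ = g := by rw [h3, mul_inv_cancel₀ hx, one_mul, one_mul]
        rw [h2]
        exact hg
      · rw [Function.update_of_ne hi, hwi i hi]
        exact ha i)
    have h2 : ∑ i, Function.update a i₀ (a i₀ - 1) i < ∑ i, a i := by
      refine Finset.sum_lt_sum (fun i _ => ?_) ⟨i₀, Finset.mem_univ _, ?_⟩
      · rcases eq_or_ne i i₀ with rfl | hi
        · rw [Function.update_self]
          omega
        · rw [Function.update_of_ne hi]
      · rw [Function.update_self]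
        omega
    omega

end Pool.Agent.H13.CV
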