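import Pool.Agent.H13.CV.BirkB

/-!
# CV BirkC: Birkhoff bases

`exists_birk`: `w, a` as in `exists_min`; claim: `Birk x w a`.  Let `y = x⁻¹` (`Gen L y`, there is a place over `y = 0`).  (⇐ of `inf`) `f = ∑ (x ^ a i * r i) * (y ^ a i * w i)`, `r i = w.repr f i`.
(⇒ of `inf`) Let `RegLoc y f`, `s i = x ^ a i * r i ∈ L`, `f = ∑ s i * (y ^ a i * w i)`.  By `exists_zpow` (for `y`): for the `s i ≠ 0`: `oz E (s i) = k i * oz E y` for all `E` over `y = 0`.
Suppose that not all `s i` are `RegLoc y`; so some `k i < 0`; let `k₀ < 0` be the least of the `k i` (`s i ≠ 0`).  `s' i = y ^ (-k₀) * s i` is `RegLoc y` for all `i`, in `L`, and for an `i₁` with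
`k i₁ = k₀` it has order `0` at the places over `y = 0`.  `∑ s' i * (y ^ a i * w i) = y ^ (-k₀) * f = y * (y ^ (-k₀ - 1) * f)`.  By `exists_residue`: `s' i = γ i + y * s'' i`, with `RegLoc y (s'' i)`; so
`∑ γ i • (y ^ a i * w i) = y * g` with `g = y ^ (-k₀ - 1) * f - ∑ s'' i * (y ^ a i * w i)`, `RegLoc y g`.  So all `γ i = 0` by `exists_min`; but `s' i₁ = y * s'' i₁` has positive order at a place over `y = 0`:
contradiction.

`Birk.exists_zero`: `1 = ∑ r i * w i` is `RegAff x` and `RegLoc x⁻¹`, so `r i ∈ ℂ[x]` and `RegLoc x⁻¹ (x ^ a i * r i)`; by `poly_inf`, `r i = 0` if `1 ≤ a i`; as `1 ≠ 0` there is `i₀` with `a i₀ = 0`.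
If `a i = 0` then `w i` is `RegAff x` and (its coordinates are `0` and `1`) `RegLoc x⁻¹`; so it has no poles and is a constant.  Two different elements of the basis are not both constants (linearly
independent over `L ∋` constants).
`Birk.pole`: `(x⁻¹) ^ a i * w i` is `RegLoc x⁻¹`: its `i`-th coordinate times `x ^ a i` is `1`.
-/

set_option autoImplicit false

open Pool.Agent.H23.Fano (PrimeDivisorOver Form regularForms)

noncomputable section

namespace Pool.Agent.H13.CV

variable {K : Type} [Field K] [Algebra ℂ K] {L : IntermediateField ℂ K} {x : K} {n : ℕ}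

private theorem BC_sum (w : Module.Basis (Fin n) L K) (f : K) : f = ∑ i, ((w.repr f i : L) : K) * w i := by
  conv_lhs => rw [← w.sum_repr f]
  rfl

private theorem BC_zero (y : K) : RegLoc y (0 : K) := fun E _ => by
  rw [E.ord.map_zero]
  exact le_top

private theorem BC_one (y : K) : RegLoc y (1 : K) := fun E _ => by
  rw [E.ord.map_one]

private theorem BC_mul {y f g : K} (hf : RegLoc y f) (hg : RegLoc y g) : RegLoc y (f * g) :=
  fun E hE => nonneg_mul (hf E hE) (hg E hE)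

private theorem BC_pow (y : K) (k : ℕ) : RegLoc y (y ^ k) := fun _ hE => nonneg_pow hE.le k

private theorem BC_step (hL : Gen L x) (hex : ∃ E : Place K, 0 < E.ord x⁻¹) {b : Fin n → K}
    (hb : ∀ i, RegLoc x⁻¹ (b i))
    (hmin : ∀ (γ : Fin n → ℂ) (g : K), RegLoc x⁻¹ g → ∑ i, γ i • b i = x⁻¹ * g → ∀ i, γ i = 0) (m : ℕ) :
    ∀ s : Fin n → K, (∀ i, s i ∈ L) → (∀ i, RegLoc x⁻¹ ((x⁻¹) ^ m * s i)) → RegLoc x⁻¹ (∑ i, s i * b i) →
      ∀ i, RegLoc x⁻¹ (s i) := by
  have hx : x⁻¹ ≠ 0 := inv_ne_zero hL.ne_zero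
  have hxL : x⁻¹ ∈ L := L.inv_mem hL.mem
  induction m with
  | zero =>
    intro s _ h _ i
    simpa using h i
  | succ m ih =>
    intro s hsL hs hF
    refine ih s hsL (fun i => ?_) hF
    have hres := fun i => exists_residue hL.inv hex (L.mul_mem (pow_mem hxL (m + 1)) (hsL i)) (hs i)
    choose γ s' hs'L hs' heq using hres
    have h1 : ∑ i, γ i • b i = x⁻¹ * ((x⁻¹) ^ m * (∑ i, s i * b i) - ∑ i, s' i * b i) := by
      have h2 : ∑ i, γ i • b i = ∑ i, ((x⁻¹) ^ (m + 1) * s i - x⁻¹ * s' i) * b i := by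
        refine Finset.sum_congr rfl fun i _ => ?_
        rw [heq i, Algebra.smul_def]
        ring
      rw [h2, mul_sub, Finset.mul_sum, Finset.mul_sum, Finset.mul_sum, ← Finset.sum_sub_distrib]
      refine Finset.sum_congr rfl fun i _ => ?_
      ring
    have h3 := hmin γ _ (fun E hE => nonneg_sub (nonneg_mul (nonneg_pow hE.le m) (hF E hE))
      (nonneg_sum fun i _ => nonneg_mul (hs' i E hE) (hb i E hE))) h1 i
    have h4 : (x⁻¹) ^ m * s i = s' i := by
      have h5 := heq i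
      rw [h3, map_zero, zero_add] at h5
      refine mul_left_cancel₀ hx ?_
      rw [← h5]
      ring
    rw [h4]
    exact hs' i

theorem exists_birk (hK : CurveField K) (hL : Gen L x) [FiniteDimensional L K] :
    ∃ (w : Module.Basis (Fin (Module.finrank L K)) L K) (a : Fin (Module.finrank L K) → ℕ), Birk x w a := by
  obtain ⟨w, a, hA, hreg, hmin⟩ := exists_min hK hL
  refine ⟨w, a, hA, fun f => ?_⟩
  have hx0 : x ≠ 0 := hL.ne_zero
  have hsum : f = ∑ i, (x ^ a i * ((w.repr f i : L) : K)) * ((x⁻¹) ^ a i * w i) := by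
    conv_lhs => rw [BC_sum w f]
    refine Finset.sum_congr rfl fun i _ => ?_
    have h1 : x ^ a i * (x⁻¹) ^ a i = 1 := by rw [← mul_pow, mul_inv_cancel₀ hx0, one_pow]
    calc ((w.repr f i : L) : K) * w i = (x ^ a i * (x⁻¹) ^ a i) * (((w.repr f i : L) : K) * w i) := by
          rw [h1, one_mul]
      _ = _ := by ring
  constructor
  · intro hf
    have hL' : ∀ i, x ^ a i * ((w.repr f i : L) : K) ∈ L := fun i =>
      L.mul_mem (pow_mem hL.mem _) (w.repr f i).2
    have hb := fun i => exists_bound hL (x ^ a i * ((w.repr f i : L) : K))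
    choose m hm using hb
    refine BC_step hL (exists_place_over hK hL.inv.tr) hreg hmin (Finset.univ.sup m) _ hL' (fun i => ?_) ?_
    · have h1 : m i ≤ Finset.univ.sup m := Finset.le_sup (Finset.mem_univ i)
      have h2 := BC_mul (BC_pow x⁻¹ (Finset.univ.sup m - m i)) (hm i)
      rwa [← mul_assoc, ← pow_add, Nat.sub_add_cancel h1] at h2
    · rw [← hsum]
      exact hf
  · intro h E hE
    rw [hsum]
    exact nonneg_sum fun i _ => nonneg_mul (h i E hE) (hreg i E hE)

private theorem BC_pole (hL : Gen L x) {w : Module.Basis (Fin n) L K} {a : Fin n → ℕ} (hw : Birk x w a)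
    (i : Fin n) : RegLoc x⁻¹ ((x⁻¹) ^ a i * w i) := by
  have hx0 : x ≠ 0 := hL.ne_zero
  have hxL : x⁻¹ ∈ L := L.inv_mem hL.mem
  refine (hw.inf _).2 fun j => ?_
  have h1 : (x⁻¹) ^ a i * w i = (⟨x⁻¹, hxL⟩ ^ a i : L) • w i := rfl
  rw [h1, map_smul, w.repr_self, Finsupp.smul_apply, Finsupp.single_apply]
  by_cases hij : i = j
  · subst hij
    rw [if_pos rfl, smul_eq_mul, mul_one]
    have h2 : x ^ a i * (((⟨x⁻¹, hxL⟩ ^ a i : L)) : K) = 1 := by
      show x ^ a i * (x⁻¹) ^ a i = 1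
      rw [← mul_pow, mul_inv_cancel₀ hx0, one_pow]
    rw [h2]
    exact BC_one _
  · rw [if_neg hij, smul_zero]
    have h2 : x ^ a j * ((0 : L) : K) = 0 := by
      rw [ZeroMemClass.coe_zero, mul_zero]
    rw [h2]
    exact BC_zero _

theorem Birk.exists_zero (hK : CurveField K) (hL : Gen L x) {w : Module.Basis (Fin n) L K} {a : Fin n → ℕ} (hw : Birk x w a) :
    ∃ i₀, a i₀ = 0 ∧ ∀ i, i ≠ i₀ → 1 ≤ a i := by
  have hinf := exists_place_inf hK hL.tr
  have h1 : ∃ i₀, a i₀ = 0 := by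
    by_contra hcon
    push Not at hcon
    have haff := (hw.aff 1).1 fun E _ => by rw [E.ord.map_one]
    have hloc := (hw.inf 1).1 (BC_one _)
    have h2 : (1 : K) = 0 := by
      rw [BC_sum w 1]
      refine Finset.sum_eq_zero fun i _ => ?_
      rw [(poly_inf hL hinf (haff i) (hloc i)).1 (Nat.one_le_iff_ne_zero.2 (hcon i)), zero_mul]
    exact one_ne_zero h2
  obtain ⟨i₀, hi₀⟩ := h1
  have hconst : ∀ j, a j = 0 → ∃ c : ℂ, w j = algebraMap ℂ K c := by
    intro j hj
    refine const_of_no_pole hK fun E => ?_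
    rcases lt_or_ge (E.ord x) 0 with h | h
    · have h2 := BC_pole hL hw j E ((inv_pos_iff hL.ne_zero).2 h)
      rwa [hj, pow_zero, one_mul] at h2
    · exact hw.aff.basis_regAff j E h
  refine ⟨i₀, hi₀, fun i hi => ?_⟩
  rw [Nat.one_le_iff_ne_zero]
  intro hai
  obtain ⟨c₀, hc₀⟩ := hconst i₀ hi₀
  obtain ⟨c, hc⟩ := hconst i hai
  have h3 : (algebraMap ℂ L c₀) • w i = (algebraMap ℂ L c) • w i₀ := by
    rw [hc, hc₀]
    show algebraMap ℂ K c₀ * algebraMap ℂ K c = algebraMap ℂ K c * algebraMap ℂ K c₀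
    ring
  have h4 := congrArg (fun v => w.repr v i) h3
  simp only [map_smul, w.repr_self, Finsupp.smul_apply, Finsupp.single_apply, if_neg hi.symm,
    if_true, smul_eq_mul, mul_one, mul_zero] at h4
  have h5 : c₀ = 0 := by
    by_contra hne
    exact hne ((algebraMap ℂ L).injective (by rw [h4, map_zero]))
  rw [h5, map_zero] at hc₀
  exact w.ne_zero i₀ hc₀

theorem Birk.pole (hL : Gen L x) {w : Module.Basis (Fin n) L K} {a : Fin n → ℕ} (hw : Birk x w a) (i : Fin n) : RegLoc x⁻¹ ((x⁻¹) ^ a i * w i) :=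
  BC_pole hL hw i

end Pool.Agent.H13.CV
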