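import Pool.Agent.H13.CV.Val

/-!
# CV Step: one more condition at a place lowers the dimension by at most one

`finrank_le_step`: let `oz E t = 1` (`exists_uni`).  The map `W → ℂ`, `f ↦ res E (f * t ^ (-d))` is linear (`res_add`, `res_smul`: `0 ≤ ord (f * t ^ (-d))` for `f ∈ W`), and its kernel is
`W ⊓ ordGe E (d + 1)` (`res_eq_zero_iff`).  Rank-nullity: `LinearMap.finrank_range_add_finrank_ker`, and the range has dimension `≤ 1`.
`finrank_le_steps`: induction on `T`, and on `e E` for the new place.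
-/

set_option autoImplicit false

open Pool.Agent.H23.Fano (PrimeDivisorOver Form regularForms)

noncomputable section

namespace Pool.Agent.H13.CV

variable {K : Type} [Field K] [Algebra ℂ K]

theorem mem_ordGe {E : Place K} {d : ℤ} {f : K} : f ∈ ordGe E d ↔ (d : WithTop ℤ) ≤ E.ord f := Iff.rfl

theorem mem_LD {D : Place K → ℤ} {f : K} : f ∈ LD D ↔ ∀ E, ((-D E : ℤ) : WithTop ℤ) ≤ E.ord f := by
  rw [LD, Submodule.mem_iInf]
  exact Iff.rfl

theorem ordGe_anti (E : Place K) {d d' : ℤ} (h : d ≤ d') : ordGe E d' ≤ ordGe E d := by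
  intro f hf
  rw [mem_ordGe] at hf ⊢
  exact le_trans (WithTop.coe_le_coe.mpr h) hf

theorem LD_mono {D D' : Place K → ℤ} (h : ∀ E, D E ≤ D' E) : LD D ≤ LD D' :=
  iInf_mono fun E => ordGe_anti E (neg_le_neg (h E))

/-- the twisted function is regular -/
private theorem Step_nonneg {E : Place K} {u f : K} {d : ℤ} (hu : u ≠ 0) (hou : oz E u = -d) (hf : f ∈ ordGe E d) :
    0 ≤ E.ord (f * u) := by
  rw [nonneg_iff]
  rw [mem_ordGe, le_ord_iff] at hf
  by_cases h0 : f = 0
  · left
    rw [h0, zero_mul]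
  · right
    rw [oz_mul E h0 hu, hou]
    rcases hf with h | h
    · exact absurd h h0
    · omega

/-- the twisted function vanishes at the place iff the order is one larger -/
private theorem Step_pos {E : Place K} {u f : K} {d : ℤ} (hu : u ≠ 0) (hou : oz E u = -d) (h : 0 < E.ord (f * u)) :
    f ∈ ordGe E (d + 1) := by
  rw [mem_ordGe, le_ord_iff]
  by_cases h0 : f = 0
  · left
    exact h0
  · right
    rw [pos_iff, oz_mul E h0 hu, hou] at h
    rcases h with h | h
    · exact absurd h (mul_ne_zero h0 hu)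
    · omega

/-- the linear map: the leading coefficient -/
private def Step_map (hK : CurveField K) (W : Submodule ℂ K) (E : Place K) (d : ℤ) (hW : W ≤ ordGe E d) (u : K)
    (hu : u ≠ 0) (hou : oz E u = -d) : W →ₗ[ℂ] ℂ where
  toFun f := res E ((f : K) * u)
  map_add' f g := by
    show res E (((f + g : W) : K) * u) = _
    rw [Submodule.coe_add, add_mul]
    exact res_add hK (Step_nonneg hu hou (hW f.2)) (Step_nonneg hu hou (hW g.2))
  map_smul' c f := by
    show res E (((c • f : W) : K) * u) = _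
    rw [Submodule.coe_smul, smul_mul_assoc]
    exact res_smul hK c (Step_nonneg hu hou (hW f.2))

theorem finrank_le_step (hK : CurveField K) (W : Submodule ℂ K) [FiniteDimensional ℂ W] (E : Place K) (d : ℤ) (hW : W ≤ ordGe E d) :
    Module.finrank ℂ W ≤ Module.finrank ℂ (W ⊓ ordGe E (d + 1) : Submodule ℂ K) + 1 := by
  obtain ⟨t, ht, hot⟩ := exists_uni E
  have hu : t ^ (-d) ≠ 0 := zpow_ne_zero _ ht
  have hou : oz E (t ^ (-d)) = -d := by
    rw [oz_zpow, hot, mul_one]
  have hrk := LinearMap.finrank_range_add_finrank_ker (Step_map hK W E d hW (t ^ (-d)) hu hou)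
  have hr : Module.finrank ℂ (LinearMap.range (Step_map hK W E d hW (t ^ (-d)) hu hou)) ≤ 1 := by
    have h := Submodule.finrank_le (LinearMap.range (Step_map hK W E d hW (t ^ (-d)) hu hou))
    rwa [Module.finrank_self] at h
  have hk : Module.finrank ℂ (LinearMap.ker (Step_map hK W E d hW (t ^ (-d)) hu hou)) ≤
      Module.finrank ℂ (W ⊓ ordGe E (d + 1) : Submodule ℂ K) := by
    rw [← Submodule.finrank_map_subtype_eq W (LinearMap.ker (Step_map hK W E d hW (t ^ (-d)) hu hou))]
    refine Submodule.finrank_mono ?_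
    rintro f hf
    obtain ⟨g, hg, rfl⟩ := Submodule.mem_map.mp hf
    refine Submodule.mem_inf.mpr ⟨g.2, ?_⟩
    have h1 : res E ((g : K) * t ^ (-d)) = 0 := hg
    have h2 := (res_eq_zero_iff hK (Step_nonneg hu hou (hW g.2))).mp h1
    exact Step_pos hu hou h2
  omega

private theorem Step_iter (hK : CurveField K) (W : Submodule ℂ K) [FiniteDimensional ℂ W] (E : Place K) (d : ℤ)
    (hW : W ≤ ordGe E d) (k : ℕ) :
    Module.finrank ℂ W ≤ Module.finrank ℂ (W ⊓ ordGe E (d + k) : Submodule ℂ K) + k := by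
  induction k with
  | zero =>
    have h : W ⊓ ordGe E (d + (0 : ℕ)) = W := by
      rw [Nat.cast_zero, add_zero]
      exact inf_eq_left.mpr hW
    rw [h, add_zero]
  | succ k ih =>
    have h1 := finrank_le_step hK (W ⊓ ordGe E (d + k)) E (d + k) inf_le_right
    have h2 : (W ⊓ ordGe E (d + k)) ⊓ ordGe E (d + k + 1) = W ⊓ ordGe E (d + ((k + 1 : ℕ) : ℤ)) := by
      have h3 : d + (k : ℤ) + 1 = d + ((k + 1 : ℕ) : ℤ) := by
        push_cast
        ring
      rw [inf_assoc, inf_eq_right.mpr (ordGe_anti E (by omega : d + (k : ℤ) ≤ d + (k : ℤ) + 1)), h3]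
    rw [h2] at h1
    omega

theorem finrank_le_steps (hK : CurveField K) (W : Submodule ℂ K) [FiniteDimensional ℂ W] (T : Finset (Place K)) (d : Place K → ℤ) (e : Place K → ℕ)
    (hW : ∀ E ∈ T, W ≤ ordGe E (d E)) :
    Module.finrank ℂ W ≤ Module.finrank ℂ (W ⊓ ⨅ E ∈ T, ordGe E (d E + e E) : Submodule ℂ K) + ∑ E ∈ T, e E := by
  classical
  induction T using Finset.induction_on with
  | empty =>
    have h : W ⊓ ⨅ E ∈ (∅ : Finset (Place K)), ordGe E (d E + e E) = W :=
      inf_eq_left.mpr (le_iInf fun E => le_iInf fun hE => absurd hE (Finset.notMem_empty E))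
    rw [h]
    exact Nat.le_add_right _ _
  | insert E T hE ih =>
    have ih' := ih fun E' hE' => hW E' (Finset.mem_insert_of_mem hE')
    have hle : W ⊓ ⨅ E' ∈ T, ordGe E' (d E' + e E') ≤ ordGe E (d E) :=
      le_trans inf_le_left (hW E (Finset.mem_insert_self E T))
    have h1 := Step_iter hK (W ⊓ ⨅ E' ∈ T, ordGe E' (d E' + e E')) E (d E) hle (e E)
    have h2 : (W ⊓ ⨅ E' ∈ T, ordGe E' (d E' + e E')) ⊓ ordGe E (d E + e E) =
        W ⊓ ⨅ E' ∈ insert E T, ordGe E' (d E' + e E') := by
      rw [Finset.iInf_insert, inf_assoc, inf_comm (ordGe E (d E + e E))]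
    rw [h2] at h1
    rw [Finset.sum_insert hE]
    omega

end Pool.Agent.H13.CV
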