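import Pool.Agent.H13.CV.Loc
import Pool.Agent.H13.CV.Step

/-!
# CV Deg: the degree of the divisor `x = 0`

`≤`: `sum_le`.  `≥`: let `w` be a basis as in `exists_locB`, `W` the span of the `w i` over `ℂ`: it has dimension `n = finrank L K` (the `w i` are linearly independent over `L`, so over `ℂ`:
`LinearIndependent.restrict_scalars`), and `W ≤ ordGe E 0` for the places over `x = 0`.  `finrank_le_steps` with `d = 0`, `e E = (oz E x).toNat`: it suffices that `W ⊓ ⨅ E ∈ T, ordGe E (oz E x)` is zero.  Let
`f = ∑ γ i • w i` be in it.  Then `RegLoc x (f / x)`, and its coordinates are `γ i / x`; so `0 ≤ ord (γ i / x)` at the places over `x = 0`; there is one (`exists_place_over`), and if `γ i ≠ 0` then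
`ord (γ i / x) = - ord x < 0`.  So all `γ i = 0`.
`degree_inf`: `degree_eq` for `x⁻¹` (`Gen.inv`).
`adjoin_eq_top_of_simple_pole`: `f` is transcendental (`tr_of_oz_ne`); `degree_inf` for `x = f`, `L = ℂ(f)`, `T = {E}`: `finrank L K = 1`, so `L = ⊤`.
`adjoin_eq_top_of_double_pole`: `finrank ℂ(u) K = 2` (`degree_inf`).  The elements `c ≠ 0` of `ℂ(u)` have even order at `E` (`exists_zpow` for `x = u⁻¹`: `oz E c = k * 2`), so `v ∉ ℂ(u)`.
`ℂ(u) < ℂ(u, v) ≤ K` and `finrank ℂ(u) K = 2`, so `ℂ(u, v) = K` (`1, v` are linearly independent over `ℂ(u)`, so they are a basis of `K` over `ℂ(u)`; or multiplicativity of degrees).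
-/

set_option autoImplicit false

open Pool.Agent.H23.Fano (PrimeDivisorOver Form regularForms)

noncomputable section

namespace Pool.Agent.H13.CV

variable {K : Type} [Field K] [Algebra ℂ K] {L : IntermediateField ℂ K} {x : K}

theorem degree_eq (hK : CurveField K) (hL : Gen L x) [FiniteDimensional L K] (T : Finset (Place K)) (hT : ∀ E, E ∈ T ↔ 0 < E.ord x) :
    ∑ E ∈ T, oz E x = (Module.finrank L K : ℤ) := by
  classical
  have hx0 : x ≠ 0 := hL.ne_zero
  apply le_antisymm (sum_le hL T (fun E hE => (hT E).1 hE))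
  obtain ⟨w, hw⟩ := exists_locB hK hL
  have hinj : Function.Injective (fun r : ℂ => r • (1 : L)) := by
    intro a b hab
    have h1 : algebraMap ℂ L a = algebraMap ℂ L b := by
      simpa [Algebra.algebraMap_eq_smul_one] using hab
    exact (algebraMap ℂ L).injective h1
  have hli : LinearIndependent ℂ (w : Fin (Module.finrank L K) → K) := w.linearIndependent.restrict_scalars hinj
  have hWdim : Module.finrank ℂ (Submodule.span ℂ (Set.range w)) = Module.finrank L K := by
    rw [finrank_span_eq_card hli, Fintype.card_fin]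
  have : FiniteDimensional ℂ (Submodule.span ℂ (Set.range w)) := FiniteDimensional.span_of_finite ℂ (Set.finite_range w)
  have hW0 : ∀ E ∈ T, Submodule.span ℂ (Set.range w) ≤ ordGe E 0 := by
    intro E hE
    rw [Submodule.span_le]
    rintro _ ⟨i, rfl⟩
    exact hw.basis_regLoc i E ((hT E).1 hE)
  have hpos : ∀ E ∈ T, 0 < oz E x := by
    intro E hE
    rcases pos_iff.1 ((hT E).1 hE) with h | h
    · exact absurd h hx0
    · exact h
  have h1 := finrank_le_steps hK (Submodule.span ℂ (Set.range w)) T (fun _ => 0) (fun E => (oz E x).toNat) hW0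
  have hbot : (Submodule.span ℂ (Set.range w) ⊓ ⨅ E ∈ T, ordGe E ((0 : ℤ) + ((oz E x).toNat : ℤ)) : Submodule ℂ K) = ⊥ := by
    rw [eq_bot_iff]
    intro f hf
    obtain ⟨hf1, hf2⟩ := Submodule.mem_inf.1 hf
    obtain ⟨γ, hγ⟩ := (Submodule.mem_span_range_iff_exists_fun ℂ).1 hf1
    have hf3 : ∀ E ∈ T, ((oz E x : ℤ) : WithTop ℤ) ≤ E.ord f := by
      intro E hE
      have h2 := (Submodule.mem_iInf _).1 hf2 E
      have h3 := (Submodule.mem_iInf _).1 h2 hE
      rw [mem_ordGe, zero_add, Int.toNat_of_nonneg (hpos E hE).le] at h3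
      exact h3
    have hreg : RegLoc x (f / x) := by
      intro E hE
      by_cases hf0 : f = 0
      · rw [hf0, zero_div, E.ord.map_zero]
        exact le_top
      · have h4 := hf3 E ((hT E).2 hE)
        rw [le_ord_iff] at h4
        rcases h4 with h4 | h4
        · exact absurd h4 hf0
        · rw [nonneg_iff]
          right
          rw [oz_div E hf0 hx0]
          omega
    let xi : L := ⟨x, hL.mem⟩
    have hcoord : w.repr (f / x) = Finsupp.equivFunOnFinite.symm (fun i => xi⁻¹ * algebraMap ℂ L (γ i)) := by
      have h5 : f / x = ∑ i, (xi⁻¹ * algebraMap ℂ L (γ i)) • w i := by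
        rw [← hγ, Finset.sum_div]
        refine Finset.sum_congr rfl fun i _ => ?_
        rw [Algebra.smul_def, Algebra.smul_def]
        have h6 : algebraMap L K (xi⁻¹ * algebraMap ℂ L (γ i)) = x⁻¹ * algebraMap ℂ K (γ i) := by
          rw [map_mul, map_inv₀]
          rfl
        rw [h6]
        field_simp
      rw [h5]
      ext i
      rw [w.repr_sum_self]
      rfl
    have hall : ∀ i, γ i = 0 := by
      intro i
      by_contra hne
      obtain ⟨E, hE⟩ := exists_place_over hK hL.tr
      have h7 := (hw (f / x)).1 hreg i E hE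
      rw [hcoord] at h7
      have h8 : ((Finsupp.equivFunOnFinite.symm (fun i => xi⁻¹ * algebraMap ℂ L (γ i)) i : L) : K) = algebraMap ℂ K (γ i) / x := by
        show (((xi⁻¹ * algebraMap ℂ L (γ i) : L)) : K) = _
        have h9 : (((xi⁻¹ * algebraMap ℂ L (γ i) : L)) : K) = x⁻¹ * algebraMap ℂ K (γ i) := rfl
        rw [h9]
        field_simp
      rw [h8] at h7
      have hc0 : algebraMap ℂ K (γ i) ≠ 0 := by
        intro h
        exact hne ((map_eq_zero _).1 h)
      have hp := hpos E ((hT E).2 hE)
      rcases nonneg_iff.1 h7 with h10 | h10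
      · rw [div_eq_zero_iff] at h10
        rcases h10 with h10 | h10
        · exact hc0 h10
        · exact hx0 h10
      · rw [oz_div E hc0 hx0, oz_const] at h10
        omega
    rw [Submodule.mem_bot, ← hγ]
    refine Finset.sum_eq_zero fun i _ => ?_
    rw [hall i, zero_smul]
  have h11 : Module.finrank L K ≤ ∑ E ∈ T, (oz E x).toNat := by
    rw [hbot, finrank_bot, zero_add, hWdim] at h1
    exact h1
  have h13 : ∑ E ∈ T, oz E x = ((∑ E ∈ T, (oz E x).toNat : ℕ) : ℤ) := by
    rw [Nat.cast_sum]
    refine Finset.sum_congr rfl fun E hE => ?_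
    rw [Int.toNat_of_nonneg (hpos E hE).le]
  rw [h13]
  exact_mod_cast h11

theorem degree_inf (hK : CurveField K) (hL : Gen L x) [FiniteDimensional L K] (T : Finset (Place K)) (hT : ∀ E, E ∈ T ↔ E.ord x < 0) :
    ∑ E ∈ T, -oz E x = (Module.finrank L K : ℤ) := by
  have h := degree_eq hK hL.inv T (fun E => by rw [hT, inv_pos_iff hL.ne_zero])
  rw [← h]
  exact Finset.sum_congr rfl fun E _ => (oz_inv E x).symm

/-- a function whose only pole is a simple pole generates the field -/
theorem adjoin_eq_top_of_simple_pole (hK : CurveField K) {f : K} {E : Place K} (hE : oz E f = -1) (h : ∀ E' : Place K, E' ≠ E → 0 ≤ E'.ord f) :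
    IntermediateField.adjoin ℂ {f} = ⊤ := by
  classical
  have htr : Transcendental ℂ f := tr_of_oz_ne (E := E) (by omega)
  have := hK.fin f htr
  have hG : Gen (IntermediateField.adjoin ℂ {f}) f := ⟨htr, rfl⟩
  have h1 := degree_inf hK hG {E} (fun E' => by
    rw [Finset.mem_singleton]
    constructor
    · rintro rfl
      rw [neg_iff]
      omega
    · intro h2
      by_contra hne
      exact absurd (h E' hne) (not_le.2 h2))
  rw [Finset.sum_singleton, hE] at h1
  rw [← IntermediateField.finrank_eq_one_iff_eq_top]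
  omega

/-- a function `u` with a double pole at `E` and no other poles, and a function `v` with odd order at `E`, generate the field -/
theorem adjoin_eq_top_of_double_pole (hK : CurveField K) {u v : K} {E : Place K} (hE : oz E u = -2) (h : ∀ E' : Place K, E' ≠ E → 0 ≤ E'.ord u) (hv : Odd (oz E v)) :
    v ∉ IntermediateField.adjoin ℂ {u} ∧ IntermediateField.adjoin ℂ {u, v} = ⊤ := by
  classical
  have htr : Transcendental ℂ u := tr_of_oz_ne (E := E) (by omega)
  have := hK.fin u htr
  have hG : Gen (IntermediateField.adjoin ℂ {u}) u := ⟨htr, rfl⟩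
  have hneg : E.ord u < 0 := by
    rw [neg_iff]
    omega
  have h1 := degree_inf hK hG {E} (fun E' => by
    rw [Finset.mem_singleton]
    constructor
    · rintro rfl
      exact hneg
    · intro h2
      by_contra hne
      exact absurd (h E' hne) (not_le.2 h2))
  rw [Finset.sum_singleton, hE] at h1
  have hv0 : v ≠ 0 := by
    rintro rfl
    rw [oz_zero] at hv
    exact absurd hv (by decide)
  have hvL : v ∉ IntermediateField.adjoin ℂ {u} := by
    intro hmem
    obtain ⟨k, hk⟩ := exists_zpow hG.inv hmem hv0
    have h2 := hk E ((inv_pos_iff hG.ne_zero).2 hneg)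
    rw [oz_inv, hE] at h2
    rw [h2] at hv
    obtain ⟨m, hm⟩ := hv
    omega
  refine ⟨hvL, ?_⟩
  have hli : LinearIndependent (IntermediateField.adjoin ℂ {u}) ![(1 : K), v] := by
    rw [LinearIndependent.pair_iff]
    intro s t hst
    have ht : t = 0 := by
      by_contra ht
      apply hvL
      have h3 : v = ((-s / t : IntermediateField.adjoin ℂ {u}) : K) := by
        have ht' : (t : K) ≠ 0 := by
          intro h4
          exact ht (Subtype.ext h4)
        have h5 : (s : K) + (t : K) * v = 0 := by
          have h6 := hst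
          rw [Algebra.smul_def, Algebra.smul_def, mul_one] at h6
          exact h6
        have h7 : ((-s / t : IntermediateField.adjoin ℂ {u}) : K) = -(s : K) / (t : K) := rfl
        rw [h7, eq_div_iff ht']
        linear_combination h5
      rw [h3]
      exact Subtype.mem _
    refine ⟨?_, ht⟩
    rw [ht, zero_smul, add_zero, Algebra.smul_def, mul_one] at hst
    exact Subtype.ext hst
  have hspan := hli.span_eq_top_of_card_eq_finrank' (by
    rw [Fintype.card_fin]
    omega)
  rw [eq_top_iff]
  intro y _
  have hy : y ∈ Submodule.span (IntermediateField.adjoin ℂ {u}) (Set.range ![(1 : K), v]) := by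
    rw [hspan]
    exact Submodule.mem_top
  rw [Matrix.range_cons, Matrix.range_cons, Matrix.range_empty, Set.union_empty, ← Set.insert_eq, Submodule.mem_span_pair] at hy
  obtain ⟨a, b, hab⟩ := hy
  have hle : IntermediateField.adjoin ℂ {u} ≤ IntermediateField.adjoin ℂ {u, v} :=
    IntermediateField.adjoin.mono ℂ _ _ (by simp)
  have hvm : v ∈ IntermediateField.adjoin ℂ {u, v} := IntermediateField.subset_adjoin ℂ _ (by simp)
  rw [← hab, Algebra.smul_def, Algebra.smul_def, mul_one]
  exact add_mem (hle a.2) (mul_mem (hle b.2) hvm)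

end Pool.Agent.H13.CV
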