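import Pool.Agent.H13.CV.BirkC
import Pool.Agent.H13.CV.Deg

/-!
# CV Dims: dimensions of spaces of functions with given poles

`exists_W`: the functions `x ^ j * w i`, `0 ≤ j ≤ m - a i` (`j < m + 1 - a i`), are linearly independent over `ℂ` (the `w i` are a basis over `L`, and the powers of `x` are linearly independent over `ℂ`), their
number is `∑ i, (m + 1 - a i)` (truncated subtraction).  They are `RegAff x`, and at the places with `ord x < 0` their order is `≥ (j + a i) * oz E x ≥ m * oz E x` (`Birk.pole`); `polar x E = - oz E x` there and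
`0` elsewhere.  `W` is their span.

`exists_dv`: let `E` be a place with `ord x < 0`, `k ≤ m * (- oz E x)`.  Let `W ≤ LD (m * polar x)` as in `exists_W`, `T` the finite set of the places with `ord x < 0`, `∑ E' ∈ T, - oz E' x = n`
(`degree_inf`, `n = finrank L K`).  Apply `finrank_le_steps` with `d E' = - m * polar x E' = m * oz E' x`, `e E' = m * (- oz E' x)` for `E' ≠ E` and `e E = m * (- oz E x) - k`:
`W' = W ⊓ ⨅ E' ∈ T, ordGe E' (d E' + e E')` is contained in `LD (dv E k)` and `finrank W ≤ finrank W' + (m * n - k)`.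
-/

set_option autoImplicit false

open Pool.Agent.H23.Fano (PrimeDivisorOver Form regularForms)

noncomputable section

namespace Pool.Agent.H13.CV

variable {K : Type} [Field K] [Algebra ℂ K] {L : IntermediateField ℂ K} {x : K} {n : ℕ}

/-- the powers of a transcendental element are linearly independent -/
private theorem Dims_pow (hL : Gen L x) : LinearIndependent ℂ (fun j : ℕ => (⟨x, hL.mem⟩ : L) ^ j) := by
  have h1 : Transcendental ℂ (⟨x, hL.mem⟩ : L) := by
    intro h
    apply hL.tr
    have h2 := (isAlgebraic_algebraMap_iff (R := ℂ) (S := L) (A := K) (a := (⟨x, hL.mem⟩ : L))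
      (algebraMap L K).injective).2 h
    exact h2
  have h2 := transcendental_iff_injective.1 h1
  have h3 : LinearIndependent ℂ (fun j : ℕ => (Polynomial.monomial j (1 : ℂ))) := by
    have := (Polynomial.basisMonomials ℂ).linearIndependent
    rwa [Polynomial.coe_basisMonomials] at this
  have h4 := h3.map' (Polynomial.aeval (⟨x, hL.mem⟩ : L)).toLinearMap (LinearMap.ker_eq_bot.2 h2)
  have h5 : (⇑(Polynomial.aeval (⟨x, hL.mem⟩ : L)).toLinearMap ∘ fun j : ℕ => (Polynomial.monomial j (1 : ℂ))) =
      fun j : ℕ => (⟨x, hL.mem⟩ : L) ^ j := by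
    funext j
    simp [Polynomial.aeval_monomial]
  rwa [h5] at h4

private theorem Dims_polar_of_neg {E : Place K} (hE : E.ord x < 0) : polar x E = -oz E x := by
  have h1 := neg_iff.1 hE
  unfold polar
  omega

private theorem Dims_polar_of_nonneg {E : Place K} (hx : x ≠ 0) (hE : 0 ≤ E.ord x) : polar x E = 0 := by
  have h1 := (nonneg_iff.1 hE).resolve_left hx
  unfold polar
  omega

theorem Birk.exists_W (hK : CurveField K) (hL : Gen L x) {w : Module.Basis (Fin n) L K} {a : Fin n → ℕ} (hw : Birk x w a) (m : ℕ) :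
    ∃ W : Submodule ℂ K, FiniteDimensional ℂ W ∧ W ≤ LD (fun E => m * polar x E) ∧ Module.finrank ℂ W = ∑ i, (m + 1 - a i) := by
  have hx : x ≠ 0 := hL.ne_zero
  have h1 : LinearIndependent ℂ (fun p : ℕ × Fin n => ((⟨x, hL.mem⟩ : L) ^ p.1) • w p.2) :=
    linearIndependent_smul (Dims_pow hL) w.linearIndependent
  have h2 : LinearIndependent ℂ (fun p : (i : Fin n) × Fin (m + 1 - a i) => x ^ (p.2 : ℕ) * w p.1) := by
    have h3 := h1.comp (fun p : (i : Fin n) × Fin (m + 1 - a i) => ((p.2 : ℕ), p.1)) (by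
      rintro ⟨i, j⟩ ⟨i', j'⟩ h
      simp only [Prod.mk.injEq] at h
      obtain ⟨h4, h5⟩ := h
      subst h5
      have h6 : j = j' := Fin.ext h4
      rw [h6])
    refine h3
  refine ⟨Submodule.span ℂ (Set.range fun p : (i : Fin n) × Fin (m + 1 - a i) => x ^ (p.2 : ℕ) * w p.1),
    FiniteDimensional.span_of_finite ℂ (Set.finite_range _), ?_, ?_⟩
  · rw [Submodule.span_le]
    rintro _ ⟨⟨i, j⟩, rfl⟩
    show x ^ (j : ℕ) * w i ∈ LD _
    rw [mem_LD]
    intro E
    have hwi : w i ≠ 0 := w.ne_zero i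
    have hxj : x ^ (j : ℕ) ≠ 0 := pow_ne_zero _ hx
    rw [le_ord_iff]
    right
    rw [oz_mul E hxj hwi, oz_pow]
    have hj : (j : ℕ) < m + 1 - a i := j.2
    rcases lt_or_ge (E.ord x) 0 with hE | hE
    · show -((m : ℤ) * polar x E) ≤ _
      rw [Dims_polar_of_neg hE]
      have hxE : oz E x < 0 := neg_iff.1 hE
      have h3 := Birk.pole hL hw i E ((inv_pos_iff hx).2 hE)
      have h4 := (nonneg_iff.1 h3).resolve_left (mul_ne_zero (pow_ne_zero _ (inv_ne_zero hx)) hwi)
      rw [oz_mul E (pow_ne_zero _ (inv_ne_zero hx)) hwi, oz_pow, oz_inv] at h4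
      have h5 : ((j : ℕ) : ℤ) + a i ≤ m := by omega
      nlinarith
    · show -((m : ℤ) * polar x E) ≤ _
      rw [Dims_polar_of_nonneg hx hE]
      have hxE : 0 ≤ oz E x := (nonneg_iff.1 hE).resolve_left hx
      have h3 := AffB.basis_regAff hw.aff i E hE
      have h4 := (nonneg_iff.1 h3).resolve_left hwi
      have h5 : (0 : ℤ) ≤ ((j : ℕ) : ℤ) * oz E x := mul_nonneg (Int.natCast_nonneg _) hxE
      linarith
  · rw [finrank_span_eq_card h2, Fintype.card_sigma]
    simp only [Fintype.card_fin]

theorem Birk.exists_dv (hK : CurveField K) (hL : Gen L x) {w : Module.Basis (Fin n) L K} {a : Fin n → ℕ} (hw : Birk x w a) (m k : ℕ)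
    {E : Place K} (hE : E.ord x < 0) (hk : (k : ℤ) ≤ m * (-oz E x)) :
    ∃ W : Submodule ℂ K, FiniteDimensional ℂ W ∧ W ≤ LD (dv E k) ∧ (∑ i, (m + 1 - a i)) + k ≤ Module.finrank ℂ W + m * n := by
  classical
  have hx : x ≠ 0 := hL.ne_zero
  obtain ⟨W, hW1, hW2, hW3⟩ := hw.exists_W hK hL m
  have := hW1
  have : FiniteDimensional L K := Module.Finite.of_basis w
  have hn : Module.finrank L K = n := by
    rw [Module.finrank_eq_card_basis w, Fintype.card_fin]
  have hfin := finite_over hL.inv
  set T : Finset (Place K) := hfin.toFinset with hTdef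
  have hT : ∀ E', E' ∈ T ↔ E'.ord x < 0 := by
    intro E'
    rw [hTdef, Set.Finite.mem_toFinset]
    exact inv_pos_iff hx
  have hdeg := degree_inf hK hL T hT
  rw [hn] at hdeg
  have hET : E ∈ T := (hT E).2 hE
  set d : Place K → ℤ := fun E' => -(m * polar x E') with hd
  set e : Place K → ℕ := fun E' => if E' = E then (m * (-oz E x) - k).toNat else (m * (-oz E' x)).toNat with he
  have hstep := finrank_le_steps hK W T d e (fun E' _ => hW2.trans (iInf_le _ E'))
  have he1 : ((e E : ℕ) : ℤ) = m * (-oz E x) - k := by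
    simp only [he, if_true]
    rw [Int.toNat_of_nonneg (by linarith)]
  have he2 : ∀ E' ∈ T, E' ≠ E → ((e E' : ℕ) : ℤ) = m * (-oz E' x) := by
    intro E' hE' hne
    simp only [he, if_neg hne]
    have h1 := neg_iff.1 ((hT E').1 hE')
    rw [Int.toNat_of_nonneg (mul_nonneg (Int.natCast_nonneg _) (by linarith))]
  have hsum : ((∑ E' ∈ T, e E' : ℕ) : ℤ) = m * n - k := by
    push_cast
    rw [← Finset.add_sum_erase T _ hET, he1, Finset.sum_congr rfl (fun E' hE' =>
      he2 E' (Finset.mem_of_mem_erase hE') (Finset.ne_of_mem_erase hE')), ← hdeg,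
      ← Finset.add_sum_erase T _ hET, mul_add, Finset.mul_sum]
    ring
  refine ⟨W ⊓ ⨅ E' ∈ T, ordGe E' (d E' + e E'), Submodule.finiteDimensional_of_le inf_le_left, ?_, ?_⟩
  · intro f hf
    obtain ⟨hf1, hf2⟩ := Submodule.mem_inf.1 hf
    rw [mem_LD]
    intro E'
    by_cases hE' : E' ∈ T
    · have h1 : f ∈ ordGe E' (d E' + e E') := by
        have h2 := (Submodule.mem_iInf _).1 hf2 E'
        exact (Submodule.mem_iInf _).1 h2 hE'
      rw [mem_ordGe] at h1
      have h2 : d E' + e E' = -dv E k E' := by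
        have h3 : d E' = -(m * (-oz E' x)) := by
          simp only [hd]
          rw [Dims_polar_of_neg ((hT E').1 hE')]
        by_cases hne : E' = E
        · subst hne
          rw [h3, he1]
          unfold dv
          rw [if_pos rfl]
          ring
        · rw [h3, he2 E' hE' hne]
          unfold dv
          rw [if_neg hne]
          ring
      rw [h2] at h1
      exact h1
    · have hne : E' ≠ E := fun h => hE' (h ▸ hET)
      have h1 : 0 ≤ E'.ord x := by
        by_contra hcon
        exact hE' ((hT E').2 (not_le.1 hcon))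
      have h2 := mem_LD.1 (hW2 hf1) E'
      have h3 : -((m : ℤ) * polar x E') = -dv E k E' := by
        rw [Dims_polar_of_nonneg hx h1]
        unfold dv
        rw [if_neg hne]
        ring
      have h4 : ((-((m : ℤ) * polar x E') : ℤ) : WithTop ℤ) ≤ E'.ord f := h2
      rw [h3] at h4
      exact h4
  · have h1 : (Module.finrank ℂ W : ℤ) ≤ (Module.finrank ℂ (W ⊓ ⨅ E' ∈ T, ordGe E' (d E' + e E') : Submodule ℂ K) : ℤ) +
        ((∑ E' ∈ T, e E' : ℕ) : ℤ) := by exact_mod_cast hstep
    rw [hsum, hW3] at h1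
    have h2 : (((∑ i, (m + 1 - a i)) + k : ℕ) : ℤ) ≤
        ((Module.finrank ℂ (W ⊓ ⨅ E' ∈ T, ordGe E' (d E' + e E') : Submodule ℂ K) + m * n : ℕ) : ℤ) := by
      push_cast at h1 ⊢
      linarith
    exact_mod_cast h2

end Pool.Agent.H13.CV
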