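import Pool.Agent.H13.CV.CubB

/-!
# CV CubI: a disc in the cubic

`exists_disc`: let `u₀` with `4 u₀³ - α u₀ - β = 1` (`IsAlgClosed`).  `s z = exp (log (4 (u₀ + z)³ - α (u₀ + z) - β) / 2)` (principal branch) is holomorphic for `|z| < r` (there the argument is in the slit plane), nowhere
zero, `s² = 4 (u₀ + z)³ - …`.  `F z = (u₀ + r z, s (r z), 1)` on the unit disc (`r > 0` small), `F' = (r, r s', 0)`, `2 s s' = 12 (u₀ + r z)² - α`; `F × F' = (- r s', r, …)`, `gr F = (- (12 u² - α), 2 s, …)`, so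
`l = r / (2 s)`; the third component: `u s' r - s r = l (s² + 2 α u + 3 β)`: use `s² = 4 u³ - α u - β`.
-/

set_option autoImplicit false

open Topology Filter Metric
open Pool.Agent.H36.BP

noncomputable section

namespace Pool.Agent.H13.CV

private theorem CubI_root (α β : ℂ) : ∃ u : ℂ, 4 * u ^ 3 - α * u - β = 1 := by
  have h : ∃ z : ℂ, (Polynomial.C 4 * Polynomial.X ^ 3 - Polynomial.C α * Polynomial.X - Polynomial.C (β + 1) : Polynomial ℂ).IsRoot z := by
    apply Complex.exists_root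
    have : (Polynomial.C 4 * Polynomial.X ^ 3 - Polynomial.C α * Polynomial.X - Polynomial.C (β + 1) : Polynomial ℂ).degree = 3 := by
      compute_degree!
    rw [this]
    norm_num
  obtain ⟨z, hz⟩ := h
  refine ⟨z, ?_⟩
  simp only [Polynomial.IsRoot.def, Polynomial.eval_sub, Polynomial.eval_mul, Polynomial.eval_C, Polynomial.eval_pow, Polynomial.eval_X] at hz
  linear_combination hz

private theorem CubI_toLp {G : ℂ → Fin 3 → ℂ} {G' : Fin 3 → ℂ} {z : ℂ} (h : ∀ i, HasDerivAt (fun z => G z i) (G' i) z) :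
    HasDerivAt (fun z => (WithLp.toLp 2 (G z) : EN 2)) (WithLp.toLp 2 G') z := by
  have h1 : HasDerivAt G G' z := hasDerivAt_pi.2 h
  have h2 := ((PiLp.continuousLinearEquiv 2 ℂ (fun _ : Fin 3 => ℂ)).symm : (Fin 3 → ℂ) →L[ℂ] EN 2).hasFDerivAt (x := G z)
  exact h2.comp_hasDerivAt z h1

theorem exists_disc (α β : ℂ) : ∃ (l : ℂ → ℂ) (F : ℂ → EN 2), Dsc α β l F := by
  obtain ⟨u₀, hu₀⟩ := CubI_root α β
  set p : ℂ → ℂ := fun u => 4 * u ^ 3 - α * u - β with hp
  have hpc : Continuous p := by fun_prop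
  -- a small radius
  have h1 : ∀ᶠ u in 𝓝 u₀, p u ∈ Complex.slitPlane := by
    have : p u₀ ∈ Complex.slitPlane := by
      show 4 * u₀ ^ 3 - α * u₀ - β ∈ Complex.slitPlane
      rw [hu₀]
      exact Complex.one_mem_slitPlane
    exact hpc.continuousAt.eventually (Complex.isOpen_slitPlane.mem_nhds this)
  obtain ⟨r, hr, hb⟩ := Metric.eventually_nhds_iff_ball.1 h1
  set u : ℂ → ℂ := fun z => u₀ + r * z with hu
  set s : ℂ → ℂ := fun z => Complex.exp (Complex.log (p (u z)) / 2) with hs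
  have hr0 : (r : ℂ) ≠ 0 := by exact_mod_cast hr.ne'
  have hus : ∀ z ∈ ball (0 : ℂ) 1, p (u z) ∈ Complex.slitPlane := by
    intro z hz
    apply hb
    rw [mem_ball_zero_iff] at hz
    rw [mem_ball, dist_eq_norm]
    simp only [hu, add_sub_cancel_left, norm_mul, Complex.norm_real, Real.norm_eq_abs, abs_of_pos hr]
    nlinarith
  have hs2 : ∀ z ∈ ball (0 : ℂ) 1, s z ^ 2 = p (u z) := by
    intro z hz
    simp only [hs]
    rw [← Complex.exp_nat_mul]
    have : ((2 : ℕ) : ℂ) * (Complex.log (p (u z)) / 2) = Complex.log (p (u z)) := by push_cast; ring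
    rw [this, Complex.exp_log (Complex.slitPlane_ne_zero (hus z hz))]
  have hsn : ∀ z, s z ≠ 0 := fun z => Complex.exp_ne_zero _
  have hud : ∀ z, HasDerivAt u r z := by
    intro z
    have := ((hasDerivAt_id z).const_mul (r : ℂ)).const_add u₀
    rw [mul_one] at this
    exact this
  have hsd : ∀ z ∈ ball (0 : ℂ) 1, HasDerivAt s ((12 * u z ^ 2 - α) * r / (2 * s z)) z := by
    intro z hz
    have e1 : HasDerivAt (fun w => p (u w)) ((12 * u z ^ 2 - α) * r) z := by
      have := ((((hud z).pow 3).const_mul 4).sub ((hud z).const_mul α)).sub_const β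
      refine this.congr_deriv ?_
      push_cast
      ring
    have e2 := ((e1.clog (hus z hz)).div_const 2).cexp
    refine e2.congr_deriv ?_
    have e3 : Complex.exp (Complex.log (p (u z)) / 2) = s z := rfl
    rw [e3]
    have e4 := hs2 z hz
    have e5 := hsn z
    rw [← e4]
    field_simp
  refine ⟨fun z => r / (2 * s z), fun z => WithLp.toLp 2 ![u z, s z, 1], ?_⟩
  have hF : ∀ z ∈ ball (0 : ℂ) 1, HasDerivAt (fun z => (WithLp.toLp 2 ![u z, s z, 1] : EN 2))
      (WithLp.toLp 2 ![(r : ℂ), (12 * u z ^ 2 - α) * r / (2 * s z), 0]) z := by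
    intro z hz
    refine CubI_toLp fun i => ?_
    fin_cases i
    · exact hud z
    · exact hsd z hz
    · exact hasDerivAt_const z (1 : ℂ)
  have hsc : ContinuousOn s (ball 0 1) := fun z hz => (hsd z hz).continuousAt.continuousWithinAt
  refine ⟨⟨fun z hz => (hF z hz).differentiableAt.differentiableWithinAt, fun z hz => ⟨fun h0 => ?_, ?_⟩⟩, ?_, fun z hz => ?_, fun z hz => ?_⟩
  · have := congrFun (congrArg WithLp.ofLp h0) 2
    exact one_ne_zero (α := ℂ) this
  · show s z ^ 2 * 1 - 4 * u z ^ 3 + α * u z * 1 ^ 2 + β * 1 ^ 3 = 0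
    rw [hs2 z hz]
    show (4 * u z ^ 3 - α * u z - β) * 1 - 4 * u z ^ 3 + α * u z * 1 ^ 2 + β * 1 ^ 3 = 0
    ring
  · exact continuousOn_const.div (continuousOn_const.mul hsc) fun z _ => mul_ne_zero two_ne_zero (hsn z)
  · exact div_ne_zero hr0 (mul_ne_zero two_ne_zero (hsn z))
  · rw [(hF z hz).deriv]
    have e4 : s z ^ 2 = 4 * u z ^ 3 - α * u z - β := hs2 z hz
    have e5 := hsn z
    ext i
    fin_cases i
    · show s z * 0 - 1 * ((12 * u z ^ 2 - α) * r / (2 * s z)) = r / (2 * s z) * (-12 * u z ^ 2 + α * 1 ^ 2)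
      field_simp
      ring
    · show 1 * (r : ℂ) - u z * 0 = r / (2 * s z) * (2 * s z * 1)
      field_simp
      ring
    · show u z * ((12 * u z ^ 2 - α) * r / (2 * s z)) - s z * r = r / (2 * s z) * (s z ^ 2 + 2 * α * u z * 1 + 3 * β * 1 ^ 2)
      field_simp
      linear_combination (-3) * e4

end Pool.Agent.H13.CV
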