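import Pool.Agent.H13.CV.CubB
import Pool.Agent.H13.CV.CubI

/-!
# CV Cub: a smooth cubic contains an entire curve

`fs_ge`: for `x ∈ Cub`, `cr x v = l • gr x`: `wd x v = ‖cr x v‖` (Lagrange's identity, `wd_sq`; norm of the complex Euclidean space), so `fs x v = ‖l‖ ‖gr x‖ / ‖x‖²`.  The function `‖gr x‖ / ‖x‖²` is continuous,
positive (`gr_ne`) and invariant under `x → c x` (`gr (c x) = c² gr x`), so it has a positive lower bound `c₀` (compactness of `{x | ‖x‖ = 1, cub x = 0}`, non-empty or trivial).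
`exists_entire_cubic`: suppose there is no such `F`.  Then `BrodyMod (Cub α β) ∅` (vacuously), and `curve_metric` (`Pool/Agent/H36/BPL/CurveK.lean`, with `X = K = Cub α β`, `Φ = 0 : EN 2 → Fin 0 → ℂ`; the cone
is closed apart from `0`) and `brody_bound` (`Pool/Agent/H36/BP/Brody.lean`) give `C` with `fs (F 0) (F' 0) ≤ C` for all holomorphic discs `F` in `Cub α β` (`mt (fs) F 0 = fs (F 0) (deriv F 0)`).  By
`exists_disc` and `Dsc.dbl` (induction on `k`) there are discs with `l` replaced by `2 ^ k l`; so `c₀ 2 ^ k ‖l 0‖ ≤ C` for all `k`: contradiction.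
-/

set_option autoImplicit false

open Topology Filter Metric
open Pool.Agent.H36.BP

noncomputable section

namespace Pool.Agent.H13.CV

/-- Lagrange's identity -/
private theorem Cub_lagrange (a b c x y z : ℂ) :
    (‖a‖ ^ 2 + ‖b‖ ^ 2 + ‖c‖ ^ 2) * (‖x‖ ^ 2 + ‖y‖ ^ 2 + ‖z‖ ^ 2) -
      ‖x * (starRingEnd ℂ) a + y * (starRingEnd ℂ) b + z * (starRingEnd ℂ) c‖ ^ 2 =
    ‖b * z - c * y‖ ^ 2 + ‖c * x - a * z‖ ^ 2 + ‖a * y - b * x‖ ^ 2 := by
  simp only [Complex.sq_norm, Complex.normSq_apply, Complex.add_re, Complex.add_im, Complex.sub_re, Complex.sub_im,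
    Complex.mul_re, Complex.mul_im, Complex.conj_re, Complex.conj_im]
  ring

private theorem Cub_wd (x v : EN 2) : wd x v = ‖(WithLp.toLp 2 (cr x.ofLp v.ofLp) : EN 2)‖ := by
  have h : wd x v ^ 2 = ‖(WithLp.toLp 2 (cr x.ofLp v.ofLp) : EN 2)‖ ^ 2 := by
    rw [wd_sq, EuclideanSpace.norm_sq_eq, EuclideanSpace.norm_sq_eq, EuclideanSpace.norm_sq_eq, PiLp.inner_apply]
    have hs : ∀ f : Fin (2 + 1) → ℝ, ∑ i, f i = f 0 + f 1 + f 2 := fun f => Fin.sum_univ_three f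
    have hs' : ∀ f : Fin (2 + 1) → ℂ, ∑ i, f i = f 0 + f 1 + f 2 := fun f => Fin.sum_univ_three f
    simp only [hs, hs', RCLike.inner_apply]
    exact Cub_lagrange _ _ _ _ _ _
  exact (pow_left_inj₀ (wd_nonneg _ _) (norm_nonneg _) two_ne_zero).mp h

private theorem Cub_gr_smul (α β c : ℂ) (x : Fin 3 → ℂ) : gr α β (c • x) = c ^ 2 • gr α β x := by
  unfold gr
  ext i
  fin_cases i <;> simp only [Pi.smul_apply, smul_eq_mul] <;> simp <;> ring

private theorem Cub_cub_smul (α β c : ℂ) (x : Fin 3 → ℂ) : cub α β (c • x) = c ^ 3 * cub α β x := by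
  unfold cub
  simp only [Pi.smul_apply, smul_eq_mul]
  ring

private theorem Cub_cont_cub (α β : ℂ) : Continuous fun x : EN 2 => cub α β x.ofLp := by
  unfold cub
  fun_prop

private theorem Cub_cont_gr (α β : ℂ) : Continuous fun x : EN 2 => ‖(WithLp.toLp 2 (gr α β x.ofLp) : EN 2)‖ := by
  have h : Continuous fun x : EN 2 => gr α β x.ofLp := by
    refine continuous_pi fun i => ?_
    unfold gr
    fin_cases i
    · show Continuous fun x : EN 2 => -12 * x.ofLp 0 ^ 2 + α * x.ofLp 2 ^ 2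
      fun_prop
    · show Continuous fun x : EN 2 => 2 * x.ofLp 1 * x.ofLp 2
      fun_prop
    · show Continuous fun x : EN 2 => x.ofLp 1 ^ 2 + 2 * α * x.ofLp 0 * x.ofLp 2 + 3 * β * x.ofLp 2 ^ 2
      fun_prop
  fun_prop

theorem fs_ge {α β : ℂ} (hd : α ^ 3 ≠ 27 * β ^ 2) : ∃ c₀ : ℝ, 0 < c₀ ∧ ∀ (x v : EN 2) (l : ℂ), x ∈ Cub α β → cr x.ofLp v.ofLp = l • gr α β x.ofLp → c₀ * ‖l‖ ≤ fs x v := by
  have hK : IsCompact (sphere (0 : EN 2) 1 ∩ {x | cub α β x.ofLp = 0}) :=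
    (isCompact_sphere _ _).inter_right (isClosed_eq (Cub_cont_cub α β) continuous_const)
  obtain ⟨c₀, hc₀, hmin⟩ : ∃ c₀ : ℝ, 0 < c₀ ∧ ∀ x ∈ sphere (0 : EN 2) 1 ∩ {x | cub α β x.ofLp = 0},
      c₀ ≤ ‖(WithLp.toLp 2 (gr α β x.ofLp) : EN 2)‖ := by
    rcases Set.eq_empty_or_nonempty (sphere (0 : EN 2) 1 ∩ {x | cub α β x.ofLp = 0}) with h | h
    · exact ⟨1, one_pos, fun x hx => by rw [h] at hx; exact absurd hx (Set.notMem_empty x)⟩
    · obtain ⟨x₀, hx₀, hm⟩ := hK.exists_isMinOn h (Cub_cont_gr α β).continuousOn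
      refine ⟨‖(WithLp.toLp 2 (gr α β x₀.ofLp) : EN 2)‖, ?_, fun x hx => hm hx⟩
      rw [norm_pos_iff]
      intro h0
      have hne : x₀.ofLp ≠ 0 := by
        intro h1
        have h2 : x₀ = 0 := by
          ext i
          exact congrFun h1 i
        have h3 := hx₀.1
        rw [h2] at h3
        simp at h3
      refine gr_ne hd hne hx₀.2 ?_
      exact congrArg WithLp.ofLp h0
  refine ⟨c₀, hc₀, fun x v l hx hcr => ?_⟩
  have hn : 0 < ‖x‖ := norm_pos_iff.2 hx.1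
  have h1 := hmin (((‖x‖⁻¹ : ℝ) : ℂ) • x) ⟨?_, ?_⟩
  · have h2 : (WithLp.toLp 2 (gr α β (((‖x‖⁻¹ : ℝ) : ℂ) • x).ofLp) : EN 2) =
        (((‖x‖⁻¹ : ℝ) : ℂ) ^ 2) • (WithLp.toLp 2 (gr α β x.ofLp) : EN 2) := by
      have h3 := Cub_gr_smul α β ((‖x‖⁻¹ : ℝ) : ℂ) x.ofLp
      rw [WithLp.ofLp_smul, h3, WithLp.toLp_smul]
    rw [h2, norm_smul, norm_pow, Complex.norm_real, Real.norm_of_nonneg (by positivity)] at h1
    unfold fs
    rw [Cub_wd, hcr, WithLp.toLp_smul, norm_smul, mul_comm c₀, mul_div_assoc]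
    refine mul_le_mul_of_nonneg_left (h1.trans (le_of_eq ?_)) (norm_nonneg l)
    field_simp
  · rw [mem_sphere_zero_iff_norm, norm_smul, Complex.norm_real, Real.norm_of_nonneg (by positivity)]
    exact inv_mul_cancel₀ hn.ne'
  · show cub α β (((‖x‖⁻¹ : ℝ) : ℂ) • x).ofLp = 0
    rw [WithLp.ofLp_smul, Cub_cub_smul, hx.2, mul_zero]

theorem exists_entire_cubic {α β : ℂ} (hd : α ^ 3 ≠ 27 * β ^ 2) :
    ∃ F : ℂ → EN 2, Differentiable ℂ F ∧ (∀ z, F z ∈ Cub α β) ∧ ∃ z w, ∀ c : ℂ, F z ≠ c • F w := by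
  by_contra hcon
  have hB : BrodyMod (Cub α β) ∅ := fun F h1 h2 h3 => absurd ⟨F, h1, h2, h3⟩ hcon
  have h0 : (0 : EN 2) ∉ Cub α β := fun h => h.1 rfl
  have hΦ : Pool.Agent.H36.BPL.AffProper (Cub α β) (Cub α β) (fun _ : EN 2 => (0 : Fin 0 → ℂ)) :=
    { smul := fun _ _ _ _ => rfl
      cont := continuousOn_const
      hol := fun _ _ _ _ => analyticAt_const
      proper := fun x hx hx' => absurd hx hx'
      iso := fun F z₀ _ h => Or.inr (h.filter_mono nhdsWithin_le_nhds) }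
  have hM := Pool.Agent.H36.BPL.curve_metric (X := Cub α β) (K := Cub α β) h0 ?_ le_rfl ?_
    (fun x _ => Eventually.of_forall fun y hy => hy) hΦ
    (fun F z₀ _ h => absurd h.self_of_nhds.1 h.self_of_nhds.2)
  · obtain ⟨L, hL, hbd⟩ := brody_bound hM hB
    obtain ⟨c₀, hc₀, hfs⟩ := fs_ge hd
    obtain ⟨l, F, hF⟩ := exists_disc α β
    have hk : ∀ k : ℕ, ∃ G : ℂ → EN 2, Dsc α β (fun z => 2 ^ k * l z) G := by
      intro k
      induction k with
      | zero => exact ⟨F, by simpa using hF⟩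
      | succ k ih =>
        obtain ⟨G, hG⟩ := ih
        have h1 := hG.dbl hd
        have h2 : (fun z => 2 * (2 ^ k * l z)) = fun z => 2 ^ (k + 1) * l z := by
          funext z
          ring
        rw [h2] at h1
        exact ⟨_, h1⟩
    have hle : ∀ k : ℕ, c₀ * ‖l 0‖ * 2 ^ k ≤ L := by
      intro k
      obtain ⟨G, hG⟩ := hk k
      have hm : (0 : ℂ) ∈ ball (0 : ℂ) 1 := mem_ball_self one_pos
      have h1 := hfs (G 0) (deriv G 0) _ (hG.curve.2 0 hm) (hG.eq 0 hm)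
      have h2 : fs (G 0) (deriv G 0) ≤ L := hbd G hG.curve
      rw [norm_mul, norm_pow, Complex.norm_ofNat] at h1
      linarith
    have hl0 : 0 < ‖l 0‖ := norm_pos_iff.2 (hF.ne 0 (mem_ball_self one_pos))
    obtain ⟨k, hk2⟩ := pow_unbounded_of_one_lt (L / (c₀ * ‖l 0‖)) (one_lt_two : (1 : ℝ) < 2)
    rw [div_lt_iff₀ (by positivity)] at hk2
    have h3 := hle k
    linarith
  · intro x hx hx0
    refine ⟨hx0, ?_⟩
    have hcl : IsClosed {x : EN 2 | cub α β x.ofLp = 0} := isClosed_eq (Cub_cont_cub α β) continuous_const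
    exact closure_minimal (fun y hy => hy.2) hcl hx
  · intro x hx c hc
    refine ⟨smul_ne_zero hc hx.1, ?_⟩
    show cub α β (c • x).ofLp = 0
    rw [WithLp.ofLp_smul, Cub_cub_smul, hx.2, mul_zero]

end Pool.Agent.H13.CV
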