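import Pool.Agent.H13.CV.CubD

/-!
# CV CubA: algebra of the doubling map

`gr_ne`: let `cub x = 0`, `gr x = 0`, `x ≠ 0`.  If `x 2 = 0`: `x 0 = 0` (`cub`), `x 1 = 0` (`gr x 2`): contradiction.  If `x 2 ≠ 0`: `x 1 = 0` (`gr x 1`); `u = x 0 / x 2`: `12 u² = α` (`gr x 0`),
`4 u³ - α u - β = 0` (`cub`), so `- 8 u³ = β` and `α³ = 1728 u⁶ = 27 β²`: contradiction.

`cub_dbl`: the polynomial `cub (dbl x)` (degree `12`) is a multiple of `cub x`: divide by `cub x` as a polynomial in `x 0` (leading coefficient `-4`) with a small program, and use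
`linear_combination (quotient) * h`.  (In the affine coordinates `u = x 0 / x 2`, `v = x 1 / x 2`, `v² = 4 u³ - α u - β`: `U = -2 u + (12 u² - α)² / (16 v²) = (4 u v² + 12 α u² + 36 β u + α²) / (16 v²)`,
`V = - v - (12 u² - α) (U - u) / (2 v)`, `V = (4 v⁴ - 12 α u v² - 72 β v² - 36 α² u² - 108 α β u + α³ - 108 β²) / (32 v³)`, so an alternative is: if `x 1 * x 2 ≠ 0` go to affine coordinates and use
`field_simp`; if `x 1 = 0` or `x 2 = 0` check directly.)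

`dbl_ne`: let `dbl x = 0`, `cub x = 0`, `x ≠ 0`.  `x 1 ^ 3 * x 2 = 0`.  If `x 2 = 0` then `x 0 = 0` by `cub`, and `4 x₁⁴ = 0`, so `x = 0`.  If `x 2 ≠ 0`, `x 1 = 0`: with `u = x 0 / x 2`: `4 u³ = α u + β` and
`- 36 α² u² - 108 α β u + α³ - 108 β² = 0`; but `(12 u² - α)³ = 36 α² u² + 108 α β u - α³ + 108 β²` when `4 u³ = α u + β`, so `12 u² = α`, and then `gr x = 0`: contradiction to `gr_ne`.
-/

set_option autoImplicit false

open Topology Filter Metric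
open Pool.Agent.H36.BP

noncomputable section

namespace Pool.Agent.H13.CV

theorem gr_ne {α β : ℂ} (hd : α ^ 3 ≠ 27 * β ^ 2) {x : Fin 3 → ℂ} (hx : x ≠ 0) (hc : cub α β x = 0) : gr α β x ≠ 0 := by
  intro hg
  have h0 : -12 * x 0 ^ 2 + α * x 2 ^ 2 = 0 := by simpa [gr] using congrFun hg 0
  have h1 : 2 * x 1 * x 2 = 0 := by simpa [gr] using congrFun hg 1
  have h2 : x 1 ^ 2 + 2 * α * x 0 * x 2 + 3 * β * x 2 ^ 2 = 0 := by simpa [gr] using congrFun hg 2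
  unfold cub at hc
  by_cases hx2 : x 2 = 0
  · rw [hx2] at h0 h2 hc
    have h3 : x 0 = 0 := by
      have : x 0 ^ 2 = 0 := by linear_combination (-1 / 12 : ℂ) * h0
      exact pow_eq_zero_iff (by norm_num) |>.1 this
    have h4 : x 1 = 0 := by
      have : x 1 ^ 2 = 0 := by linear_combination h2
      exact pow_eq_zero_iff (by norm_num) |>.1 this
    apply hx
    funext i
    fin_cases i
    · exact h3
    · exact h4
    · exact hx2
  · have hx1 : x 1 = 0 := by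
      rcases mul_eq_zero.1 h1 with h | h
      · exact (mul_eq_zero.1 h).resolve_left two_ne_zero
      · exact absurd h hx2
    rw [hx1] at hc
    apply hd
    have h5 : -8 * x 0 ^ 3 = β * x 2 ^ 3 := by linear_combination -hc + x 0 * h0
    have h6 : 12 * x 0 ^ 2 = α * x 2 ^ 2 := by linear_combination -h0
    have h7 : (α ^ 3 - 27 * β ^ 2) * x 2 ^ 6 = 0 := by
      have e1 : (12 * x 0 ^ 2) ^ 3 = (α * x 2 ^ 2) ^ 3 := by rw [h6]
      have e2 : (-8 * x 0 ^ 3) ^ 2 = (β * x 2 ^ 3) ^ 2 := by rw [h5]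
      linear_combination -e1 + 27 * e2
    rcases mul_eq_zero.1 h7 with h | h
    · linear_combination h
    · exact absurd (pow_eq_zero_iff (by norm_num) |>.1 h) hx2

theorem cub_dbl {α β : ℂ} {x : Fin 3 → ℂ} (hc : cub α β x = 0) : cub α β (dbl α β x) = 0 := by
  unfold cub at hc
  have e0 : dbl α β x 0 = x 1 * (8 * x 0 * x 1 ^ 2 + 24 * α * x 0 ^ 2 * x 2 + 72 * β * x 0 * x 2 ^ 2 + 2 * α ^ 2 * x 2 ^ 3) := rfl
  have e1 : dbl α β x 1 = 4 * x 1 ^ 4 - 12 * α * x 0 * x 1 ^ 2 * x 2 - 72 * β * x 1 ^ 2 * x 2 ^ 2 - 36 * α ^ 2 * x 0 ^ 2 * x 2 ^ 2 -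
      108 * α * β * x 0 * x 2 ^ 3 + (α ^ 3 - 108 * β ^ 2) * x 2 ^ 4 := rfl
  have e2 : dbl α β x 2 = 32 * x 1 ^ 3 * x 2 := rfl
  unfold cub
  rw [e0, e1, e2]
  linear_combination ((13824) * x 0 ^ 3 * x 1 ^ 3 * x 2 ^ 3 * α ^ 3 + (13824) * x 0 ^ 2 * x 1 ^ 5 * x 2 ^ 2 * α ^ 2 +
    (124416) * x 0 ^ 2 * x 1 ^ 3 * x 2 ^ 4 * α ^ 2 * β + (4608) * x 0 * x 1 ^ 7 * x 2 * α + (82944) * x 0 * x 1 ^ 5 * x 2 ^ 3 * α * β +
    (-3456) * x 0 * x 1 ^ 3 * x 2 ^ 5 * α ^ 4 + (373248) * x 0 * x 1 ^ 3 * x 2 ^ 5 * α * β ^ 2 + (512) * x 1 ^ 9 +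
    (13824) * x 1 ^ 7 * x 2 ^ 2 * β + (2304) * x 1 ^ 5 * x 2 ^ 4 * α ^ 3 + (124416) * x 1 ^ 5 * x 2 ^ 4 * β ^ 2 +
    (-6912) * x 1 ^ 3 * x 2 ^ 6 * α ^ 3 * β + (373248) * x 1 ^ 3 * x 2 ^ 6 * β ^ 3) * hc

theorem dbl_ne {α β : ℂ} (hd : α ^ 3 ≠ 27 * β ^ 2) {x : Fin 3 → ℂ} (hx : x ≠ 0) (hc : cub α β x = 0) : dbl α β x ≠ 0 := by
  intro h
  have e1 : 4 * x 1 ^ 4 - 12 * α * x 0 * x 1 ^ 2 * x 2 - 72 * β * x 1 ^ 2 * x 2 ^ 2 - 36 * α ^ 2 * x 0 ^ 2 * x 2 ^ 2 -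
      108 * α * β * x 0 * x 2 ^ 3 + (α ^ 3 - 108 * β ^ 2) * x 2 ^ 4 = 0 := congrFun h 1
  have e2 : 32 * x 1 ^ 3 * x 2 = 0 := congrFun h 2
  have hg := gr_ne hd hx hc
  unfold cub at hc
  by_cases hx2 : x 2 = 0
  · rw [hx2] at e1 hc
    have h3 : x 0 = 0 := by
      have : x 0 ^ 3 = 0 := by linear_combination (-1 / 4 : ℂ) * hc
      exact pow_eq_zero_iff (by norm_num) |>.1 this
    have h4 : x 1 = 0 := by
      have : x 1 ^ 4 = 0 := by linear_combination (1 / 4 : ℂ) * e1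
      exact pow_eq_zero_iff (by norm_num) |>.1 this
    apply hx
    funext i
    fin_cases i
    · exact h3
    · exact h4
    · exact hx2
  · have hx1 : x 1 = 0 := by
      rcases mul_eq_zero.1 e2 with h | h
      · exact pow_eq_zero_iff (by norm_num) |>.1 ((mul_eq_zero.1 h).resolve_left (by norm_num))
      · exact absurd h hx2
    rw [hx1] at e1 hc
    have h5 : - 36 * α ^ 2 * x 0 ^ 2 - 108 * α * β * x 0 * x 2 + (α ^ 3 - 108 * β ^ 2) * x 2 ^ 2 = 0 := by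
      have : x 2 ^ 2 * (- 36 * α ^ 2 * x 0 ^ 2 - 108 * α * β * x 0 * x 2 + (α ^ 3 - 108 * β ^ 2) * x 2 ^ 2) = 0 := by
        linear_combination e1
      exact (mul_eq_zero.1 this).resolve_left (pow_ne_zero _ hx2)
    have h6 : (12 * x 0 ^ 2 - α * x 2 ^ 2) ^ 3 = 0 := by
      have hc' : 4 * x 0 ^ 3 = α * x 0 * x 2 ^ 2 + β * x 2 ^ 3 := by linear_combination -hc
      linear_combination (432 * x 0 ^ 3 + 108 * (α * x 0 * x 2 ^ 2 + β * x 2 ^ 3) - 108 * α * x 0 * x 2 ^ 2) * hc' - x 2 ^ 4 * h5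
    have h7 : 12 * x 0 ^ 2 - α * x 2 ^ 2 = 0 := pow_eq_zero_iff (by norm_num) |>.1 h6
    apply hg
    have h8 : 2 * α * x 0 * x 2 + 3 * β * x 2 ^ 2 = 0 := by
      have : x 2 * (2 * α * x 0 * x 2 + 3 * β * x 2 ^ 2) = 0 := by
        linear_combination 3 * hc + x 0 * h7
      exact (mul_eq_zero.1 this).resolve_left hx2
    funext i
    fin_cases i
    · change -12 * x 0 ^ 2 + α * x 2 ^ 2 = 0
      linear_combination -h7
    · change 2 * x 1 * x 2 = 0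
      rw [hx1]; ring
    · change x 1 ^ 2 + 2 * α * x 0 * x 2 + 3 * β * x 2 ^ 2 = 0
      rw [hx1]
      linear_combination h8

end Pool.Agent.H13.CV
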