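import Pool.Agent.H13.CV.CubX

/-!
# CV CubB: discs in a cubic

`Dsc α β l F`: `F` is a holomorphic disc in the cone, `l` is continuous and nowhere zero, and `F × F' = l • gr F`.
`Dsc.dbl`: `G z = dbl (F z)`, `G' = ddbl (F z) (F' z)` (chain rule, polynomial).  `G z ∈ Cub` by `cub_dbl`, `dbl_ne`.  The identity `cr (G z) (G' z) = 2 l z • gr (G z)` holds where `F₁ F₂ ≠ 0` (`cross_dbl`).  Both
sides are continuous in `z` (on the ball), so it suffices that the zeros of `F₁` and `F₂` are isolated.  If `F₂ = 0` near a point `z₀` then `F₀ = 0` near `z₀` (`cub = 0`), so `F × F' = 0`, contradiction to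
`l ≠ 0`, `gr_ne`.  If `F₁ = 0` near `z₀`, then `F₁' = 0` and the components `0` and `2` of `F × F'` are `F₁ F₂' - F₂ F₁' = 0` and `F₀ F₁' - F₁ F₀' = 0`, and component `1` of `gr F` is `2 F₁ F₂ = 0`; so
`l • gr F = 0`: contradiction.  (`AnalyticAt.eventually_eq_zero_or_eventually_ne_zero`.)
-/

set_option autoImplicit false

open Topology Filter Metric
open Pool.Agent.H36.BP

noncomputable section

namespace Pool.Agent.H13.CV

/-- a holomorphic disc in the cone of the cubic with `F × F' = l • gr F`, `l` continuous without zeros -/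
structure Dsc (α β : ℂ) (l : ℂ → ℂ) (F : ℂ → EN 2) : Prop where
  curve : Curve (Cub α β) (ball 0 1) F
  cont : ContinuousOn l (ball 0 1)
  ne : ∀ z ∈ ball (0 : ℂ) 1, l z ≠ 0
  eq : ∀ z ∈ ball (0 : ℂ) 1, cr (F z).ofLp (deriv F z : EN 2).ofLp = l z • gr α β (F z).ofLp

private theorem CubB_coord {F : ℂ → EN 2} {F' : EN 2} {z : ℂ} (h : HasDerivAt F F' z) (i : Fin 3) :
    HasDerivAt (fun z => (F z).ofLp i) (F'.ofLp i) z := by
  have h1 := (PiLp.proj 2 (fun _ : Fin 3 => ℂ) i : EN 2 →L[ℂ] ℂ).hasFDerivAt (x := F z)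
  exact h1.comp_hasDerivAt z h

private theorem CubB_toLp {G : ℂ → Fin 3 → ℂ} {G' : Fin 3 → ℂ} {z : ℂ} (h : ∀ i, HasDerivAt (fun z => G z i) (G' i) z) :
    HasDerivAt (fun z => (WithLp.toLp 2 (G z) : EN 2)) (WithLp.toLp 2 G') z := by
  have h1 : HasDerivAt G G' z := hasDerivAt_pi.2 h
  have h2 := ((PiLp.continuousLinearEquiv 2 ℂ (fun _ : Fin 3 => ℂ)).symm : (Fin 3 → ℂ) →L[ℂ] EN 2).hasFDerivAt (x := G z)
  exact h2.comp_hasDerivAt z h1

theorem Dsc.dbl {α β : ℂ} (hd : α ^ 3 ≠ 27 * β ^ 2) {l : ℂ → ℂ} {F : ℂ → EN 2} (h : Dsc α β l F) :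
    Dsc α β (fun z => 2 * l z) (fun z => WithLp.toLp 2 (CV.dbl α β (F z).ofLp)) := by
  have hop : IsOpen (ball (0 : ℂ) 1) := isOpen_ball
  obtain ⟨hFd, hFK⟩ := h.curve
  have hder : ∀ z ∈ ball (0 : ℂ) 1, ∀ i, HasDerivAt (fun z => (F z).ofLp i) ((deriv F z : EN 2).ofLp i) z :=
    fun z hz i => CubB_coord ((hFd.differentiableAt (hop.mem_nhds hz)).hasDerivAt) i
  have hfd : ∀ i, DifferentiableOn ℂ (fun z => (F z).ofLp i) (ball 0 1) :=
    fun i z hz => (hder z hz i).differentiableAt.differentiableWithinAt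
  have hfa : ∀ i, ∀ z ∈ ball (0 : ℂ) 1, AnalyticAt ℂ (fun z => (F z).ofLp i) z :=
    fun i z hz => (hfd i).analyticAt (hop.mem_nhds hz)
  have hG : ∀ z ∈ ball (0 : ℂ) 1, HasDerivAt (fun z => (WithLp.toLp 2 (CV.dbl α β (F z).ofLp) : EN 2))
      (WithLp.toLp 2 (ddbl α β (F z).ofLp (deriv F z : EN 2).ofLp)) z := by
    intro z hz
    refine CubB_toLp fun i => ?_
    have h0 := hder z hz 0
    have h1 := hder z hz 1
    have h2 := hder z hz 2
    fin_cases i
    · have e := h1.mul ((((h0.mul (h1.pow 2)).const_mul 8).add (((h0.pow 2).mul h2).const_mul (24 * α))).add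
        ((((h0.mul (h2.pow 2)).const_mul (72 * β))).add ((h2.pow 3).const_mul (2 * α ^ 2))))
      refine (e.congr_of_eventuallyEq (Filter.Eventually.of_forall fun w => ?_)).congr_deriv ?_
      · show (F w).ofLp 1 * (8 * (F w).ofLp 0 * (F w).ofLp 1 ^ 2 + 24 * α * (F w).ofLp 0 ^ 2 * (F w).ofLp 2 + 72 * β * (F w).ofLp 0 * (F w).ofLp 2 ^ 2 + 2 * α ^ 2 * (F w).ofLp 2 ^ 3) = _
        simp only [Pi.mul_apply, Pi.add_apply, Pi.pow_apply]
        ring
      · simp only [ddbl, Pi.mul_apply, Pi.add_apply, Pi.pow_apply, Fin.zero_eta, Matrix.cons_val_zero]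
        push_cast
        ring
    · have e := ((((h1.pow 4).const_mul 4).sub (((h0.mul (h1.pow 2)).mul h2).const_mul (12 * α))).sub
        (((h1.pow 2).mul (h2.pow 2)).const_mul (72 * β))).sub ((((h0.pow 2).mul (h2.pow 2)).const_mul (36 * α ^ 2)).add
          (((h0.mul (h2.pow 3)).const_mul (108 * α * β)).sub ((h2.pow 4).const_mul (α ^ 3 - 108 * β ^ 2))))
      refine (e.congr_of_eventuallyEq (Filter.Eventually.of_forall fun w => ?_)).congr_deriv ?_
      · show 4 * (F w).ofLp 1 ^ 4 - 12 * α * (F w).ofLp 0 * (F w).ofLp 1 ^ 2 * (F w).ofLp 2 - 72 * β * (F w).ofLp 1 ^ 2 * (F w).ofLp 2 ^ 2 - 36 * α ^ 2 * (F w).ofLp 0 ^ 2 * (F w).ofLp 2 ^ 2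
          - 108 * α * β * (F w).ofLp 0 * (F w).ofLp 2 ^ 3 + (α ^ 3 - 108 * β ^ 2) * (F w).ofLp 2 ^ 4 = _
        simp only [Pi.mul_apply, Pi.add_apply, Pi.sub_apply, Pi.pow_apply]
        ring
      · simp only [ddbl, Pi.mul_apply, Pi.pow_apply, Fin.mk_one, Matrix.cons_val_one, Matrix.cons_val_zero]
        push_cast
        ring
    · have e := ((h1.pow 3).mul h2).const_mul 32
      refine (e.congr_of_eventuallyEq (Filter.Eventually.of_forall fun w => ?_)).congr_deriv ?_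
      · show 32 * (F w).ofLp 1 ^ 3 * (F w).ofLp 2 = _
        simp only [Pi.mul_apply, Pi.pow_apply]
        ring
      · show _ = 32 * (3 * (F z).ofLp 1 ^ 2 * (deriv F z : EN 2).ofLp 1 * (F z).ofLp 2 + (F z).ofLp 1 ^ 3 * (deriv F z : EN 2).ofLp 2)
        simp only [Pi.pow_apply]
        push_cast
        ring
  have hGd : ∀ z ∈ ball (0 : ℂ) 1, deriv (fun z => (WithLp.toLp 2 (CV.dbl α β (F z).ofLp) : EN 2)) z
      = WithLp.toLp 2 (ddbl α β (F z).ofLp (deriv F z : EN 2).ofLp) := fun z hz => (hG z hz).deriv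
  have hF0 : ∀ z ∈ ball (0 : ℂ) 1, (F z).ofLp ≠ 0 ∧ cub α β (F z).ofLp = 0 := by
    intro z hz
    obtain ⟨h1, h2⟩ := hFK z hz
    refine ⟨fun h3 => h1 ?_, h2⟩
    ext i
    exact congrFun h3 i
  -- the first coordinate is not eventually zero
  have hn1 : ∀ z ∈ ball (0 : ℂ) 1, ¬ ∀ᶠ w in 𝓝 z, (F w).ofLp 1 = 0 := by
    intro z hz he
    have e1 : (deriv F z : EN 2).ofLp 1 = 0 := by
      rw [← (hder z hz 1).deriv]
      have : (fun w => (F w).ofLp 1) =ᶠ[𝓝 z] fun _ => (0 : ℂ) := he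
      rw [this.deriv_eq]
      simp
    have e2 : (F z).ofLp 1 = 0 := he.self_of_nhds
    have e3 := h.eq z hz
    apply gr_ne hd (hF0 z hz).1 (hF0 z hz).2
    have hl := h.ne z hz
    have e4 : l z • gr α β (F z).ofLp = 0 := by
      rw [← e3]
      ext i
      have e5 := congrFun e3 1
      fin_cases i
      · show (F z).ofLp 1 * (deriv F z : EN 2).ofLp 2 - (F z).ofLp 2 * (deriv F z : EN 2).ofLp 1 = 0
        rw [e1, e2]; ring
      · have e6 : (gr α β (F z).ofLp) 1 = 2 * (F z).ofLp 1 * (F z).ofLp 2 := rfl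
        show cr (F z).ofLp (deriv F z : EN 2).ofLp 1 = 0
        rw [e5]
        show l z * (gr α β (F z).ofLp) 1 = 0
        rw [e6, e2]; ring
      · show (F z).ofLp 0 * (deriv F z : EN 2).ofLp 1 - (F z).ofLp 1 * (deriv F z : EN 2).ofLp 0 = 0
        rw [e1, e2]; ring
    exact (smul_eq_zero.1 e4).resolve_left hl
  have hn2 : ∀ z ∈ ball (0 : ℂ) 1, ¬ ∀ᶠ w in 𝓝 z, (F w).ofLp 2 = 0 := by
    intro z hz he
    have e1 : (deriv F z : EN 2).ofLp 2 = 0 := by
      rw [← (hder z hz 2).deriv]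
      have : (fun w => (F w).ofLp 2) =ᶠ[𝓝 z] fun _ => (0 : ℂ) := he
      rw [this.deriv_eq]
      simp
    have he0 : ∀ᶠ w in 𝓝 z, (F w).ofLp 0 = 0 := by
      filter_upwards [he, hop.mem_nhds hz] with w hw hwb
      have e := (hF0 w hwb).2
      simp only [cub, hw] at e
      have : (F w).ofLp 0 ^ 3 = 0 := by linear_combination (-1 / 4) * e
      exact pow_eq_zero_iff (by norm_num) |>.1 this
    have e1' : (deriv F z : EN 2).ofLp 0 = 0 := by
      rw [← (hder z hz 0).deriv]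
      have : (fun w => (F w).ofLp 0) =ᶠ[𝓝 z] fun _ => (0 : ℂ) := he0
      rw [this.deriv_eq]
      simp
    have e2 : (F z).ofLp 2 = 0 := he.self_of_nhds
    have e2' : (F z).ofLp 0 = 0 := he0.self_of_nhds
    have e3 := h.eq z hz
    apply gr_ne hd (hF0 z hz).1 (hF0 z hz).2
    have hl := h.ne z hz
    have e4 : l z • gr α β (F z).ofLp = 0 := by
      rw [← e3]
      ext i
      fin_cases i
      · show (F z).ofLp 1 * (deriv F z : EN 2).ofLp 2 - (F z).ofLp 2 * (deriv F z : EN 2).ofLp 1 = 0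
        rw [e1, e2]; ring
      · show (F z).ofLp 2 * (deriv F z : EN 2).ofLp 0 - (F z).ofLp 0 * (deriv F z : EN 2).ofLp 2 = 0
        rw [e1, e2]; ring
      · show (F z).ofLp 0 * (deriv F z : EN 2).ofLp 1 - (F z).ofLp 1 * (deriv F z : EN 2).ofLp 0 = 0
        rw [e1', e2']; ring
    exact (smul_eq_zero.1 e4).resolve_left hl
  have hK : ∀ z ∈ ball (0 : ℂ) 1, (WithLp.toLp 2 (CV.dbl α β (F z).ofLp) : EN 2) ∈ Cub α β := by
    intro z hz
    refine ⟨fun h0 => ?_, cub_dbl (hF0 z hz).2⟩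
    apply dbl_ne hd (hF0 z hz).1 (hF0 z hz).2
    have := congrArg WithLp.ofLp h0
    simpa using this
  refine ⟨⟨fun z hz => (hG z hz).differentiableAt.differentiableWithinAt, hK⟩, continuousOn_const.mul h.cont, fun z hz => mul_ne_zero two_ne_zero (h.ne z hz), ?_⟩
  -- continuity
  have hcF : ∀ i, ContinuousOn (fun z => (F z).ofLp i) (ball 0 1) := fun i => (hfd i).continuousOn
  have hcF' : ∀ i, ContinuousOn (fun z => (deriv F z : EN 2).ofLp i) (ball 0 1) := by
    intro i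
    have h1 : ContinuousOn (deriv fun z => (F z).ofLp i) (ball 0 1) := ((hfd i).deriv hop).continuousOn
    refine h1.congr fun z hz => ?_
    exact (hder z hz i).deriv.symm
  intro z hz
  rw [hGd z hz]
  show cr (CV.dbl α β (F z).ofLp) (ddbl α β (F z).ofLp (deriv F z : EN 2).ofLp) = (2 * l z) • gr α β (CV.dbl α β (F z).ofLp)
  have hev : ∀ᶠ w in 𝓝[≠] z, cr (CV.dbl α β (F w).ofLp) (ddbl α β (F w).ofLp (deriv F w : EN 2).ofLp) = (2 * l w) • gr α β (CV.dbl α β (F w).ofLp) := by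
    have k1 := ((hfa 1 z hz).eventually_eq_zero_or_eventually_ne_zero).resolve_left (hn1 z hz)
    have k2 := ((hfa 2 z hz).eventually_eq_zero_or_eventually_ne_zero).resolve_left (hn2 z hz)
    filter_upwards [k1, k2, mem_nhdsWithin_of_mem_nhds (hop.mem_nhds hz)] with w h1 h2 hw
    exact cross_dbl (hF0 w hw).2 (mul_ne_zero h1 h2) (h.eq w hw)
  have hc0 : ∀ i, ContinuousAt (fun z => (F z).ofLp i) z := fun i => (hcF i).continuousAt (hop.mem_nhds hz)
  have hc0' : ∀ i, ContinuousAt (fun z => (deriv F z : EN 2).ofLp i) z := fun i => (hcF' i).continuousAt (hop.mem_nhds hz)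
  have hcl : ContinuousAt l z := h.cont.continuousAt (hop.mem_nhds hz)
  have a0 := hc0 0
  have a1 := hc0 1
  have a2 := hc0 2
  have b0 := hc0' 0
  have b1 := hc0' 1
  have b2 := hc0' 2
  have hL : ContinuousAt (fun w => cr (CV.dbl α β (F w).ofLp) (ddbl α β (F w).ofLp (deriv F w : EN 2).ofLp)) z := by
    refine continuousAt_pi.2 fun i => ?_
    fin_cases i <;> simp only [cr, CV.dbl, ddbl, Fin.zero_eta, Fin.mk_one, Fin.reduceFinMk, Matrix.cons_val_zero, Matrix.cons_val_one, Matrix.cons_val] <;> fun_prop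
  have hR : ContinuousAt (fun w => (2 * l w) • gr α β (CV.dbl α β (F w).ofLp)) z := by
    refine continuousAt_pi.2 fun i => ?_
    fin_cases i <;> simp only [gr, CV.dbl, Pi.smul_apply, smul_eq_mul, Fin.zero_eta, Fin.mk_one, Fin.reduceFinMk, Matrix.cons_val_zero, Matrix.cons_val_one, Matrix.cons_val] <;> fun_prop
  have t1 := hL.tendsto.mono_left (nhdsWithin_le_nhds (s := {z}ᶜ))
  have t2 := hR.tendsto.mono_left (nhdsWithin_le_nhds (s := {z}ᶜ))
  exact tendsto_nhds_unique_of_eventuallyEq t1 t2 hev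

end Pool.Agent.H13.CV
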