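import Mathlib
import Pool.Agent.H36.BPL.CurveK

/-!
# CV CubD: the cone of a Weierstrass cubic

`cub α β x = x₁² x₂ - 4 x₀³ + α x₀ x₂² + β x₂³`, its gradient `gr`, the doubling map `dbl` (of degree `4`), the cone `Cub α β` (without `0`), the vector product `cr x v`.
-/

set_option autoImplicit false

open Topology Filter Metric
open Pool.Agent.H36.BP

noncomputable section

namespace Pool.Agent.H13.CV

/-- the form -/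
def cub (α β : ℂ) (x : Fin 3 → ℂ) : ℂ := x 1 ^ 2 * x 2 - 4 * x 0 ^ 3 + α * x 0 * x 2 ^ 2 + β * x 2 ^ 3

/-- its gradient -/
def gr (α β : ℂ) (x : Fin 3 → ℂ) : Fin 3 → ℂ :=
  ![-12 * x 0 ^ 2 + α * x 2 ^ 2, 2 * x 1 * x 2, x 1 ^ 2 + 2 * α * x 0 * x 2 + 3 * β * x 2 ^ 2]

/-- the vector product -/
def cr (x v : Fin 3 → ℂ) : Fin 3 → ℂ := ![x 1 * v 2 - x 2 * v 1, x 2 * v 0 - x 0 * v 2, x 0 * v 1 - x 1 * v 0]

/-- the doubling map -/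
def dbl (α β : ℂ) (x : Fin 3 → ℂ) : Fin 3 → ℂ :=
  ![x 1 * (8 * x 0 * x 1 ^ 2 + 24 * α * x 0 ^ 2 * x 2 + 72 * β * x 0 * x 2 ^ 2 + 2 * α ^ 2 * x 2 ^ 3),
    4 * x 1 ^ 4 - 12 * α * x 0 * x 1 ^ 2 * x 2 - 72 * β * x 1 ^ 2 * x 2 ^ 2 - 36 * α ^ 2 * x 0 ^ 2 * x 2 ^ 2 - 108 * α * β * x 0 * x 2 ^ 3 + (α ^ 3 - 108 * β ^ 2) * x 2 ^ 4,
    32 * x 1 ^ 3 * x 2]

/-- the cone of the cubic, without `0` -/
def Cub (α β : ℂ) : Set (EN 2) := {x | x ≠ 0 ∧ cub α β x.ofLp = 0}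

end Pool.Agent.H13.CV
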