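import Pool.Agent.H13.CV.CubA

/-!
# CV CubX: the derivative of the doubling map

`deriv_affine`: for complex numbers with `v² = 4 u³ - α u - β`, `v ≠ 0`, `u' = 2 l v`, `v' = l (12 u² - α)`: the derivatives of `U`, `V` in the direction `(u', v')` are `4 l V` and `2 l (12 U² - α)`.
Homogeneous version (`cross_dbl`): `x, v ∈ ℂ³`, `cub x = 0`, `x 1 * x 2 ≠ 0`, `cr x v = l • gr x`; `w` is the derivative of `dbl` at `x` in the direction `v`; then `cr (dbl x) w = (2 l) • gr (dbl x)`.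
Here `w` is given explicitly (`ddbl`).  Proof: by homogeneity (`cr (dbl x) (ddbl x x) = 0` as `ddbl x x = 4 dbl x`) one may change `v` by multiples of `x` and assume `v 2 = 0`; scale to `x 2 = 1`; `x = (u, v₁, 1)`,
`v = (u', v', 0)` with `u' = 2 l v₁`, `v' = l (12 u² - α)`.  Then the three identities are polynomial identities modulo `v₁² - 4 u³ + α u + β` (`linear_combination (…) * h`).
Any other proof is fine: e.g. all three components of `x₂ ^ k * (…)` by `linear_combination` with cofactors computed by a program.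
-/

set_option autoImplicit false

open Topology Filter Metric
open Pool.Agent.H36.BP

noncomputable section

namespace Pool.Agent.H13.CV

/-- the derivative of `dbl` at `x` in the direction `v` -/
def ddbl (α β : ℂ) (x v : Fin 3 → ℂ) : Fin 3 → ℂ :=
  ![v 1 * (8 * x 0 * x 1 ^ 2 + 24 * α * x 0 ^ 2 * x 2 + 72 * β * x 0 * x 2 ^ 2 + 2 * α ^ 2 * x 2 ^ 3) +
      x 1 * (8 * v 0 * x 1 ^ 2 + 16 * x 0 * x 1 * v 1 + 48 * α * x 0 * v 0 * x 2 + 24 * α * x 0 ^ 2 * v 2 + 72 * β * v 0 * x 2 ^ 2 + 144 * β * x 0 * x 2 * v 2 +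
        6 * α ^ 2 * x 2 ^ 2 * v 2),
    16 * x 1 ^ 3 * v 1 - 12 * α * (v 0 * x 1 ^ 2 * x 2 + 2 * x 0 * x 1 * v 1 * x 2 + x 0 * x 1 ^ 2 * v 2) - 72 * β * (2 * x 1 * v 1 * x 2 ^ 2 + 2 * x 1 ^ 2 * x 2 * v 2) -
      36 * α ^ 2 * (2 * x 0 * v 0 * x 2 ^ 2 + 2 * x 0 ^ 2 * x 2 * v 2) - 108 * α * β * (v 0 * x 2 ^ 3 + 3 * x 0 * x 2 ^ 2 * v 2) + (α ^ 3 - 108 * β ^ 2) * (4 * x 2 ^ 3 * v 2),
    32 * (3 * x 1 ^ 2 * v 1 * x 2 + x 1 ^ 3 * v 2)]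

theorem cross_dbl {α β : ℂ} {x v : Fin 3 → ℂ} {l : ℂ} (hc : cub α β x = 0) (hx : x 1 * x 2 ≠ 0) (hv : cr x v = l • gr α β x) :
    cr (dbl α β x) (ddbl α β x v) = (2 * l) • gr α β (dbl α β x) := by
  obtain ⟨a, ha⟩ : ∃ a, a = x 0 := ⟨_, rfl⟩
  obtain ⟨b, hb⟩ : ∃ b, b = x 1 := ⟨_, rfl⟩
  obtain ⟨c, hcc⟩ : ∃ c, c = x 2 := ⟨_, rfl⟩
  have hc0 : c ≠ 0 := by
    rw [hcc]
    exact right_ne_zero_of_mul hx
  -- the coordinates of `v`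
  obtain ⟨s, hs⟩ : ∃ s, v 2 = s * c := ⟨v 2 / c, by field_simp⟩
  obtain ⟨m, hm⟩ : ∃ m, l = m * c := ⟨l / c, by field_simp⟩
  have h0 := congrFun hv 0
  have h1 := congrFun hv 1
  simp only [cr, gr, Pi.smul_apply, smul_eq_mul, Matrix.cons_val_zero, Matrix.cons_val_one, ← ha, ← hb, ← hcc, hs, hm] at h0 h1
  have hq : v 1 = s * b + m * (12 * a ^ 2 - α * c ^ 2) := by
    apply mul_left_cancel₀ hc0
    linear_combination -h0
  have hp : v 0 = s * a + m * (2 * b * c) := by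
    apply mul_left_cancel₀ hc0
    linear_combination h1
  have hcub : b ^ 2 * c - 4 * a ^ 3 + α * a * c ^ 2 + β * c ^ 3 = 0 := by
    rw [ha, hb, hcc]
    exact hc
  have hcr : ∀ y w z : Fin 3 → ℂ, y 1 * w 2 - y 2 * w 1 = z 0 → y 2 * w 0 - y 0 * w 2 = z 1 → y 0 * w 1 - y 1 * w 0 = z 2 →
      cr y w = z := by
    intro y w z e0 e1 e2
    funext i
    fin_cases i
    · exact e0
    · exact e1
    · exact e2
  have hD0 : dbl α β x 0 = b * (8 * a * b ^ 2 + 24 * α * a ^ 2 * c + 72 * β * a * c ^ 2 + 2 * α ^ 2 * c ^ 3) := by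
    rw [ha, hb, hcc]
    rfl
  have hD1 : dbl α β x 1 = 4 * b ^ 4 - 12 * α * a * b ^ 2 * c - 72 * β * b ^ 2 * c ^ 2 - 36 * α ^ 2 * a ^ 2 * c ^ 2 -
      108 * α * β * a * c ^ 3 + (α ^ 3 - 108 * β ^ 2) * c ^ 4 := by
    rw [ha, hb, hcc]
    rfl
  have hD2 : dbl α β x 2 = 32 * b ^ 3 * c := by
    rw [hb, hcc]
    rfl
  have hW0 : ddbl α β x v 0 = v 1 * (8 * a * b ^ 2 + 24 * α * a ^ 2 * c + 72 * β * a * c ^ 2 + 2 * α ^ 2 * c ^ 3) +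
      b * (8 * v 0 * b ^ 2 + 16 * a * b * v 1 + 48 * α * a * v 0 * c + 24 * α * a ^ 2 * v 2 + 72 * β * v 0 * c ^ 2 +
        144 * β * a * c * v 2 + 6 * α ^ 2 * c ^ 2 * v 2) := by
    rw [ha, hb, hcc]
    rfl
  have hW1 : ddbl α β x v 1 = 16 * b ^ 3 * v 1 - 12 * α * (v 0 * b ^ 2 * c + 2 * a * b * v 1 * c + a * b ^ 2 * v 2) -
      72 * β * (2 * b * v 1 * c ^ 2 + 2 * b ^ 2 * c * v 2) - 36 * α ^ 2 * (2 * a * v 0 * c ^ 2 + 2 * a ^ 2 * c * v 2) -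
      108 * α * β * (v 0 * c ^ 3 + 3 * a * c ^ 2 * v 2) + (α ^ 3 - 108 * β ^ 2) * (4 * c ^ 3 * v 2) := by
    rw [ha, hb, hcc]
    rfl
  have hW2 : ddbl α β x v 2 = 32 * (3 * b ^ 2 * v 1 * c + b ^ 3 * v 2) := by
    rw [hb, hcc]
    rfl
  apply hcr
  · rw [hW1, hW2, hD1, hD2, hp, hq, hs, hm]
    change _ = 2 * (m * c) * (-12 * dbl α β x 0 ^ 2 + α * dbl α β x 2 ^ 2)
    rw [hD0, hD2]
    linear_combination (m * (6912*a*b^2*c^3*α^2 - 1152*b^4*c^2*α + 10368*b^2*c^4*α*β)) * hcub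
  · rw [hW0, hW2, hD0, hD2, hp, hq, hs, hm]
    change _ = 2 * (m * c) * (2 * dbl α β x 1 * dbl α β x 2)
    rw [hD1, hD2]
    linear_combination (m * (4608*a*b^3*c^2*α + 13824*b^3*c^3*β)) * hcub
  · rw [hW0, hW1, hD0, hD1, hp, hq, hs, hm]
    change _ = 2 * (m * c) * (dbl α β x 1 ^ 2 + 2 * α * dbl α β x 0 * dbl α β x 2 + 3 * β * dbl α β x 2 ^ 2)
    rw [hD0, hD1, hD2]
    linear_combination (m * (-2592*a^3*c^3*α^3 - 1728*a^2*b^2*c^2*α^2 - 15552*a^2*c^4*α^2*β - 1152*a*b^4*c*α + 72*a*c^5*α^4 - 31104*a*c^5*α*β^2 - 96*b^6 - 4320*b^4*c^2*β - 360*b^2*c^4*α^3 + 7776*b^2*c^4*β^2 + 216*c^6*α^3*β - 23328*c^6*β^3)) * hcub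

end Pool.Agent.H13.CV
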