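import Pool.Agent.H13.CV.DedeA

/-!
# CV DedeB: a basis over `ℂ[x]`

By `regAff_iff_isIntegral` the functions `f` with `RegAff x f` form the integral closure `C` of `A = ℂ[x]` in `K`.  `A` is a principal ideal domain with fraction field `L`, `K` is a finite separable
extension of `L` (characteristic `0`), so `C` is a free `A`-module of rank `n = finrank L K` (`IsIntegralClosure.module_free A L K C`, `IsIntegralClosure.rank`), and a basis of `C` over `A` is a
basis of `K` over `L` (`Module.Basis.localizationLocalization`, `Module.Basis.localizationLocalization_span` or a direct argument: denominators).  The coordinates of `f ∈ K` with respect to this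
basis are in `A` if and only if `f ∈ C`.
Instances: `Algebra (Algebra.adjoin ℂ {x}) K` (subalgebra), `IsFractionRing (Algebra.adjoin ℂ {x}) (IntermediateField.adjoin ℂ {x})` is an instance in Mathlib
(`Mathlib/FieldTheory/IntermediateField/Adjoin/Algebra.lean`); start with `obtain rfl := hL.eq` (`subst`).
-/

set_option autoImplicit false

open Pool.Agent.H23.Fano (PrimeDivisorOver Form regularForms)

noncomputable section

namespace Pool.Agent.H13.CV

variable {K : Type} [Field K] [Algebra ℂ K] {L : IntermediateField ℂ K} {x : K}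

private theorem dedeB_pir (x : K) : IsPrincipalIdealRing (Algebra.adjoin ℂ {x}) := by
  let f : Polynomial ℂ →ₐ[ℂ] Algebra.adjoin ℂ {x} :=
    (Polynomial.aeval x).codRestrict (Algebra.adjoin ℂ {x}) (fun p => Polynomial.aeval_mem_adjoin_singleton ℂ x)
  have hf : Function.Surjective f := by
    rintro ⟨c, hc⟩
    rw [Algebra.adjoin_singleton_eq_range_aeval] at hc
    obtain ⟨p, hp⟩ := hc
    exact ⟨p, Subtype.ext hp⟩
  exact IsPrincipalIdealRing.of_surjective f.toRingHom hf

open scoped IntermediateField.algebraAdjoinAdjoin nonZeroDivisors in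
private theorem dedeB_aux (hL : Gen (IntermediateField.adjoin ℂ {x}) x) [FiniteDimensional (IntermediateField.adjoin ℂ {x}) K] :
    ∃ w : Module.Basis (Fin (Module.finrank (IntermediateField.adjoin ℂ {x}) K)) (IntermediateField.adjoin ℂ {x}) K, AffB x w := by
  haveI hpir : IsPrincipalIdealRing (Algebra.adjoin ℂ {x}) := dedeB_pir x
  haveI hfree : Module.Free (Algebra.adjoin ℂ {x}) (integralClosure (Algebra.adjoin ℂ {x}) K) :=
    IsIntegralClosure.module_free (Algebra.adjoin ℂ {x}) (IntermediateField.adjoin ℂ {x}) K (integralClosure (Algebra.adjoin ℂ {x}) K)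
  haveI hnoe : IsNoetherian (Algebra.adjoin ℂ {x}) (integralClosure (Algebra.adjoin ℂ {x}) K) :=
    IsIntegralClosure.isNoetherian (Algebra.adjoin ℂ {x}) (IntermediateField.adjoin ℂ {x}) K (integralClosure (Algebra.adjoin ℂ {x}) K)
  have hrank := IsIntegralClosure.rank (Algebra.adjoin ℂ {x}) (IntermediateField.adjoin ℂ {x}) K (integralClosure (Algebra.adjoin ℂ {x}) K)
  haveI hloc : IsLocalization (Algebra.algebraMapSubmonoid (integralClosure (Algebra.adjoin ℂ {x}) K) (Algebra.adjoin ℂ {x})⁰) K :=
    IsIntegralClosure.isLocalization (Algebra.adjoin ℂ {x}) (IntermediateField.adjoin ℂ {x}) K (integralClosure (Algebra.adjoin ℂ {x}) K)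
  let b : Module.Basis (Fin (Module.finrank (IntermediateField.adjoin ℂ {x}) K)) (Algebra.adjoin ℂ {x}) (integralClosure (Algebra.adjoin ℂ {x}) K) :=
    Module.finBasisOfFinrankEq _ _ hrank
  refine ⟨b.localizationLocalization (IntermediateField.adjoin ℂ {x}) (Algebra.adjoin ℂ {x})⁰ K, fun f => ?_⟩
  rw [regAff_iff_isIntegral hL]
  constructor
  · intro hf i
    have h1 := b.localizationLocalization_repr_algebraMap (IntermediateField.adjoin ℂ {x}) (Algebra.adjoin ℂ {x})⁰ K
      (⟨f, hf⟩ : integralClosure (Algebra.adjoin ℂ {x}) K) i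
    have h2 : algebraMap (integralClosure (Algebra.adjoin ℂ {x}) K) K ⟨f, hf⟩ = f := rfl
    rw [h2] at h1
    rw [h1]
    exact (b.repr ⟨f, hf⟩ i).2
  · intro hf
    rw [← (b.localizationLocalization (IntermediateField.adjoin ℂ {x}) (Algebra.adjoin ℂ {x})⁰ K).sum_repr f]
    refine IsIntegral.sum _ fun i _ => ?_
    rw [Module.Basis.localizationLocalization_apply]
    have h3 : ((b.localizationLocalization (IntermediateField.adjoin ℂ {x}) (Algebra.adjoin ℂ {x})⁰ K).repr f i) •
        algebraMap (integralClosure (Algebra.adjoin ℂ {x}) K) K (b i) =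
        algebraMap (Algebra.adjoin ℂ {x}) K ⟨_, hf i⟩ * algebraMap (integralClosure (Algebra.adjoin ℂ {x}) K) K (b i) := by
      rw [Algebra.smul_def]
      rfl
    rw [h3]
    exact isIntegral_algebraMap.mul (b i).2

theorem exists_affB (hL : Gen L x) [FiniteDimensional L K] : ∃ w : Module.Basis (Fin (Module.finrank L K)) L K, AffB x w := by
  obtain rfl := hL.eq
  exact dedeB_aux hL

end Pool.Agent.H13.CV
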