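import Pool.Agent.H17LG.Variety
import Pool.Agent.H62.FC.Place

/-!
# Project CV (MP_64ff02_ag): entire curves in curves which are not of log general type.  Definitions

`K` is the function field of a curve over `ℂ`.  `Place K` is the type of its places (discrete valuations with value group `ℤ`, trivial on `ℂ`).
`E` lies over `x = 0` means `0 < E.ord x`, `E` lies over `x = ∞` means `E.ord x < 0`.
-/

set_option autoImplicit false

open Pool.Agent.H23.Fano (PrimeDivisorOver Form regularForms)

noncomputable section

namespace Pool.Agent.H13.CV

/-- the places of the function field `K` of a curve -/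
abbrev Place (K : Type) [Field K] [Algebra ℂ K] : Type := PrimeDivisorOver K 1

/-- `K` is the function field of a curve over `ℂ` -/
structure CurveField (K : Type) [Field K] [Algebra ℂ K] : Prop where
  exists_tr : ∃ x : K, Transcendental ℂ x
  fin : ∀ x : K, Transcendental ℂ x → FiniteDimensional (IntermediateField.adjoin ℂ {x}) K

variable {K : Type} [Field K] [Algebra ℂ K]

/-- `L = ℂ(x)` and `x` is transcendental -/
structure Gen (L : IntermediateField ℂ K) (x : K) : Prop where
  tr : Transcendental ℂ x
  eq : L = IntermediateField.adjoin ℂ {x}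

/-- the order as an integer (`0` for the function `0`) -/
def oz (E : Place K) (f : K) : ℤ := (E.ord f).untopD 0

open scoped Classical in
/-- the value of `f` at the place `E` (`0` if `f` has a pole) -/
def res (E : Place K) (f : K) : ℂ := if h : ∃ c : ℂ, 0 < E.ord (f - algebraMap ℂ K c) then h.choose else 0

/-- `f` is regular at the places over `x = 0` -/
def RegLoc (x f : K) : Prop := ∀ E : Place K, 0 < E.ord x → 0 ≤ E.ord f

/-- `f` is regular at the places where `x` is regular -/
def RegAff (x f : K) : Prop := ∀ E : Place K, 0 ≤ E.ord x → 0 ≤ E.ord f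

/-- `w` is a basis over `ℂ[x]` of the ring of the functions which are regular where `x` is regular -/
def AffB {L : IntermediateField ℂ K} (x : K) {n : ℕ} (w : Module.Basis (Fin n) L K) : Prop :=
  ∀ f : K, RegAff x f ↔ ∀ i, ((w.repr f i : L) : K) ∈ Algebra.adjoin ℂ {x}

/-- `w` is a basis over the local ring of `ℂ[x]` at `x = 0` of the ring of the functions which are regular over `x = 0` -/
def LocB {L : IntermediateField ℂ K} (x : K) {n : ℕ} (w : Module.Basis (Fin n) L K) : Prop :=
  ∀ f : K, RegLoc x f ↔ ∀ i, RegLoc x ((w.repr f i : L) : K)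

/-- a Birkhoff basis: `w` is a basis over `ℂ[x]` of the ring of the functions regular where `x` is regular, and `x ^ (-a i) * w i` is a basis over the local ring of `x = ∞` of the
ring of the functions which are regular over `x = ∞` -/
structure Birk {L : IntermediateField ℂ K} (x : K) {n : ℕ} (w : Module.Basis (Fin n) L K) (a : Fin n → ℕ) : Prop where
  aff : AffB x w
  inf : ∀ f : K, RegLoc x⁻¹ f ↔ ∀ i, RegLoc x⁻¹ (x ^ a i * ((w.repr f i : L) : K))

/-- the functions of order at least `d` at `E` -/
def ordGe (E : Place K) (d : ℤ) : Submodule ℂ K where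
  carrier := {f | (d : WithTop ℤ) ≤ E.ord f}
  add_mem' := fun {f g} hf hg => le_trans (le_min hf hg) (E.ord.map_add f g)
  zero_mem' := by
    show (d : WithTop ℤ) ≤ E.ord 0
    rw [E.ord.map_zero]
    exact le_top
  smul_mem' := fun c f hf => by
    show (d : WithTop ℤ) ≤ E.ord (c • f)
    rw [Algebra.smul_def, E.ord.map_mul]
    calc (d : WithTop ℤ) = 0 + d := (zero_add _).symm
      _ ≤ _ := add_le_add (E.ord_const c) hf

/-- the functions `f` with `f = 0` or `ord_E f ≥ - D E` for all `E` -/
def LD (D : Place K → ℤ) : Submodule ℂ K := ⨅ E, ordGe E (-D E)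

/-- the pole divisor of `x` -/
def polar (x : K) (E : Place K) : ℤ := max 0 (-oz E x)

open scoped Classical in
/-- the divisor `k E` -/
def dv (E : Place K) (k : ℤ) (E' : Place K) : ℤ := if E' = E then k else 0

end Pool.Agent.H13.CV
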