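import Pool.Agent.H13.CV.Pl
import Pool.Agent.H23.Omega

/-!
# CV Dx: the order of the differential of a function

`Form K 1` is the exterior power `⋀¹ Ω_{K/ℂ}`, `Form.mk c a = c • ιMulti (d (a 0))` (`Pool/Agent/H23/Fano.lean`); `Form.mk c a` is additive in `d (a 0)` and `K`-linear in it.  (`Form K 1 ≃ Ω_{K/ℂ}`:
`exteriorPower.oneEquiv`; `exteriorPower.ιMulti` is multilinear: `AlternatingMap.map_update_smul`, `map_update_add` for `Fin 1`.)
`mk_ne_zero`: see e.g. `Pool/Agent/H62/FC/NotLGT.lean`, `Pool/Agent/H23/Forms.lean`: `d x ≠ 0` for a transcendental element in characteristic `0`: there is a derivation `D` of `K` over `ℂ` with `D x = 1`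
(Mathlib: `Differential`... or the library: look for `exists_derivation`, `IsTranscendenceBasis` basis of `Ω`, `Pool.Agent.H23` `mem_regularForms_iff`, `dualDer`).
`mk_inv`: `d x = - x² d (x⁻¹)` (`Derivation.leibniz_inv`).
`exists_eta`: let `oz E t = 1`, `e = oz E x` (may be negative), `u = x * t ^ (-e)` of order `0`: `x = t ^ e * u`, `d x = t ^ (e - 1) • (e u d t + t d u)`, and `η = e u d t + t d u` is a sum of two
generators of `regularForms`.
`pole_mk`: with `g = t ^ (e - 1)`: `0 ≤ oz E h + m * (e - 1) + p`.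
-/

set_option autoImplicit false

open Pool.Agent.H23.Fano (PrimeDivisorOver Form regularForms)
open Pool.Agent.H17LG.Variety (PoleAtMost IsLogGeneralType)

noncomputable section

namespace Pool.Agent.H13.CV

variable {K : Type} [Field K] [Algebra ℂ K]

/-- the form `dx` -/
def dx (x : K) : Form K 1 := Form.mk 1 fun _ => x

/-- a differential as a form -/
private def tf : Ω[K⁄ℂ] →ₗ[K] Form K 1 :=
  ((exteriorPower.oneEquiv K Ω[K⁄ℂ]).symm : Ω[K⁄ℂ] →ₗ[K] ⋀[K]^1 Ω[K⁄ℂ])

private lemma tf_inj : Function.Injective (tf : Ω[K⁄ℂ] →ₗ[K] Form K 1) :=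
  (exteriorPower.oneEquiv K Ω[K⁄ℂ]).symm.injective

private lemma mk_eq (c x : K) :
    Form.mk c (fun _ : Fin 1 => x) = tf (c • KaehlerDifferential.D ℂ K x) := by
  rw [map_smul]
  have h : (exteriorPower.ιMulti K 1 (fun _ : Fin 1 => KaehlerDifferential.D ℂ K x) :
      ⋀[K]^1 Ω[K⁄ℂ]) =
      (exteriorPower.oneEquiv K Ω[K⁄ℂ]).symm (KaehlerDifferential.D ℂ K x) := by
    rw [LinearEquiv.eq_symm_apply, exteriorPower.oneEquiv_ιMulti]
  exact congrArg (fun w : ⋀[K]^1 Ω[K⁄ℂ] => c • w) h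

private lemma dx_eq (x : K) : dx x = tf (KaehlerDifferential.D ℂ K x) := by
  rw [dx, mk_eq, one_smul]

theorem dx_sub_const (x : K) (c : ℂ) : dx (x - algebraMap ℂ K c) = dx x := by
  rw [dx_eq, dx_eq, map_sub, Derivation.map_algebraMap, sub_zero]

theorem dx_inv {x : K} (hx : x ≠ 0) : dx x = (-x ^ 2) • dx x⁻¹ := by
  rw [dx_eq, dx_eq, ← map_smul, Derivation.leibniz_inv, smul_smul]
  have h : -x ^ 2 * -x⁻¹ ^ 2 = 1 := by
    field_simp
  rw [h, one_smul]

theorem dx_ne_zero {x : K} (hx : Transcendental ℂ x) : dx x ≠ 0 := by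
  obtain ⟨t, hst, ht⟩ := exists_isTranscendenceBasis_superset (R := ℂ) (s := ({x} : Set K))
    (algebraicIndependent_unique_type_iff.mpr hx)
  obtain ⟨b, hb⟩ := Pool.Agent.H23.exists_basis_kaehler ht
  have h1 := hb ⟨x, hst rfl⟩
  rw [dx_eq]
  intro h
  have h2 : KaehlerDifferential.D ℂ K x = 0 := tf_inj (h.trans (map_zero _).symm)
  exact b.ne_zero ⟨x, hst rfl⟩ (h1.trans h2)

theorem exists_eta (E : Place K) {x : K} (hx : x ≠ 0) :
    ∃ (t : K) (η : Form K 1), t ≠ 0 ∧ oz E t = 1 ∧ η ∈ regularForms 1 E.localRing ∧ dx x = t ^ (oz E x - 1) • η := by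
  obtain ⟨t, ht, h1⟩ := exists_uni E
  set e : ℤ := oz E x with he
  set u : K := x * t ^ (-e) with hu
  have hte : t ^ (-e) ≠ 0 := zpow_ne_zero _ ht
  have hu0 : u ≠ 0 := mul_ne_zero hx hte
  have hou : oz E u = 0 := by
    rw [hu, oz_mul E hx hte, oz_zpow, h1]
    omega
  have hxu : x = t ^ e * u := by
    rw [hu, mul_left_comm, ← zpow_add₀ ht, add_neg_cancel, zpow_zero, mul_one]
  have hru : 0 ≤ E.ord u := nonneg_iff.2 (Or.inr hou.ge)
  have hrt : 0 ≤ E.ord t := nonneg_iff.2 (Or.inr (by omega))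
  have hre : 0 ≤ E.ord (((e : ℂ) • u : K)) := by
    rw [Algebra.smul_def]
    exact nonneg_mul (const_nonneg E _) hru
  refine ⟨t, Form.mk t (fun _ => u) + Form.mk ((e : ℂ) • u) (fun _ => t), ht, h1, ?_, ?_⟩
  · refine AddSubgroup.add_mem _ (AddSubgroup.subset_closure ?_) (AddSubgroup.subset_closure ?_)
    · exact ⟨t, fun _ => u, hrt, fun _ => hru, rfl⟩
    · exact ⟨(e : ℂ) • u, fun _ => t, hre, fun _ => hrt, rfl⟩
  · rw [mk_eq, mk_eq, ← map_add, ← map_smul, dx_eq]
    congr 1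
    conv_lhs => rw [hxu]
    rw [Derivation.leibniz, Derivation.leibniz_zpow, smul_add, smul_smul, smul_smul]
    have h2 : t ^ (e - 1) * t = t ^ e := by
      rw [← zpow_add_one₀ ht, sub_add_cancel]
    rw [h2]
    congr 1
    rw [← Int.cast_smul_eq_zsmul K, smul_smul, smul_smul]
    congr 1
    rw [Algebra.smul_def, map_intCast]
    ring

/-- a sufficient condition for `h dx ^ m` to have a pole of order at most `p` at `E` -/
theorem pole_mk (E : Place K) {x h : K} (hx : x ≠ 0) {m p : ℕ} (hh : h = 0 ∨ 0 ≤ oz E h + m * (oz E x - 1) + p) : PoleAtMost p E m h (dx x) := by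
  obtain ⟨t, η, ht, h1, hη, hd⟩ := exists_eta E hx
  refine ⟨t ^ (oz E x - 1), η, hη, hd, ?_⟩
  rcases hh with hh | hh
  · rw [hh, zero_mul, E.ord.map_zero]
    exact le_of_le_of_eq le_top (WithTop.top_add _).symm
  · by_cases h0 : h = 0
    · rw [h0, zero_mul, E.ord.map_zero]
      exact le_of_le_of_eq le_top (WithTop.top_add _).symm
    have hg : (t ^ (oz E x - 1)) ^ m ≠ 0 := pow_ne_zero _ (zpow_ne_zero _ ht)
    rw [← coe_oz E (mul_ne_zero h0 hg), oz_mul E h0 hg, oz_pow, oz_zpow, h1, mul_one]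
    have h2 : ((p : ℕ) : WithTop ℤ) = (((p : ℤ)) : WithTop ℤ) := by
      push_cast
      rfl
    rw [h2, ← WithTop.coe_add]
    exact WithTop.coe_le_coe.2 hh

end Pool.Agent.H13.CV
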