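import Pool.Agent.H13.CV.Deg

/-!
# CV EllB: the Weierstrass normal form

`normal_form`: `v₁ = v - (a u + b) / 2`: `v₁² = c u³ + (d + a² / 4) u² + (e + a b / 2) u + (f + b² / 4)`.  Let `s` with `c s³ = 4` (`IsAlgClosed`), `r = - (d + a² / 4) / (3 c)`, `u₁ = (u - r) / s`:
`v₁² = 4 u₁³ - α u₁ - β` for some `α, β`.  `ℂ(u₁, v₁) = ℂ(u, v)`, `ℂ(u₁) = ℂ(u)`, `v₁ ∉ ℂ(u)`.
`singular_rational`: let `α³ = 27 β²`.  There is `ρ` with `12 ρ² = α`, `- 8 ρ³ = β` (take `ρ² = α / 12`; then `(8 ρ³)² = α³ / 27 = β²`, change the sign of `ρ` if necessary).  Then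
`4 u³ - α u - β = 4 (u - ρ)² (u + 2 ρ)`.  `u ≠ ρ` (`u` is transcendental).  `t = v / (u - ρ)`: `t² = 4 (u + 2 ρ)`, so `u = t² / 4 - 2 ρ ∈ ℂ(t)` and `v = t (u - ρ) ∈ ℂ(t)`.
-/

set_option autoImplicit false

open Pool.Agent.H23.Fano (PrimeDivisorOver Form regularForms)

noncomputable section

namespace Pool.Agent.H13.CV

variable {K : Type} [Field K] [Algebra ℂ K]

theorem normal_form {u v : K} {c a d b e f : ℂ} (hc : c ≠ 0)
    (h : v ^ 2 = algebraMap ℂ K c * u ^ 3 + algebraMap ℂ K a * (u * v) + algebraMap ℂ K d * u ^ 2 + algebraMap ℂ K b * v +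
      algebraMap ℂ K e * u + algebraMap ℂ K f) (hu : Transcendental ℂ u) (huv : IntermediateField.adjoin ℂ {u, v} = ⊤) (hvu : v ∉ IntermediateField.adjoin ℂ {u}) :
    ∃ (u' v' : K) (α β : ℂ), v' ^ 2 = 4 * u' ^ 3 - algebraMap ℂ K α * u' - algebraMap ℂ K β ∧ Transcendental ℂ u' ∧
      IntermediateField.adjoin ℂ {u', v'} = ⊤ ∧ v' ∉ IntermediateField.adjoin ℂ {u'} := by
  obtain ⟨s, hs⟩ := IsAlgClosed.exists_pow_nat_eq (4 / c) (n := 3) (by norm_num)
  have hs0 : s ≠ 0 := by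
    rintro rfl
    have : (4 : ℂ) / c ≠ 0 := div_ne_zero (by norm_num) hc
    apply this
    rw [← hs]
    norm_num
  have hcs : c * s ^ 3 = 4 := by
    rw [hs]
    field_simp
  set r : ℂ := -(d + a ^ 2 / 4) / (3 * c) with hr
  have hr' : 3 * c * r = -(d + a ^ 2 / 4) := by
    rw [hr]
    field_simp
  haveI : CharZero K := charZero_of_injective_algebraMap (algebraMap ℂ K).injective
  set C := algebraMap ℂ K with hC
  have c2 : C 2 = 2 := map_ofNat C 2
  have c3 : C 3 = 3 := map_ofNat C 3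
  have c4 : C 4 = 4 := map_ofNat C 4
  have hCs0 : C s ≠ 0 := by
    rw [hC]
    exact (map_ne_zero (algebraMap ℂ K)).2 hs0
  have hcsK : C c * C s ^ 3 = 4 := by
    rw [← map_pow, ← map_mul, hcs]
    exact map_ofNat C 4
  have hrK : 3 * C c * C r = -(C d + C a ^ 2 / 4) := by
    have := congrArg C hr'
    simpa [c2, c3, c4] using this
  set u' : K := (u - C r) / C s with hu'
  have hu2 : u = C s * u' + C r := by
    rw [hu']
    field_simp
    ring
  set v' : K := v - (C a * u + C b) / 2 with hv'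
  have hv2 : v = v' + (C a * u + C b) / 2 := by
    rw [hv']
    ring
  have hmem : ∀ (L : IntermediateField ℂ K) (z : ℂ), C z ∈ L := fun L z => L.algebraMap_mem z
  have h2mem : ∀ (L : IntermediateField ℂ K), (2 : K) ∈ L := fun L => by
    have := hmem L 2
    rwa [hC, map_ofNat] at this
  have hvu2 : ∀ L : IntermediateField ℂ K, u ∈ L → v' ∈ L → v ∈ L := fun L h1 h2 => by
    rw [hv2]
    exact L.add_mem h2 (L.div_mem (L.add_mem (L.mul_mem (hmem L a) h1) (hmem L b)) (h2mem L))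
  have huL : ∀ L : IntermediateField ℂ K, u' ∈ L → u ∈ L := fun L h1 => by
    rw [hu2]
    exact L.add_mem (L.mul_mem (hmem L s) h1) (hmem L r)
  refine ⟨u', v', 3 * c * s * r ^ 2 - (e + a * b / 2) * s,
    -(c * r ^ 3 + (d + a ^ 2 / 4) * r ^ 2 + (e + a * b / 2) * r + (f + b ^ 2 / 4)), ?_, ?_, ?_, ?_⟩
  · have e1 : v' ^ 2 = C c * u ^ 3 + (C d + C a ^ 2 / 4) * u ^ 2 + (C e + C a * C b / 2) * u + (C f + C b ^ 2 / 4) := by
      rw [hv']
      linear_combination h
    have e2 : C (3 * c * s * r ^ 2 - (e + a * b / 2) * s) = 3 * C c * C s * C r ^ 2 - (C e + C a * C b / 2) * C s := by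
      simp [c2, c3]
    have e3 : C (-(c * r ^ 3 + (d + a ^ 2 / 4) * r ^ 2 + (e + a * b / 2) * r + (f + b ^ 2 / 4))) =
        -(C c * C r ^ 3 + (C d + C a ^ 2 / 4) * C r ^ 2 + (C e + C a * C b / 2) * C r + (C f + C b ^ 2 / 4)) := by
      simp [c2, c4]
    rw [e2, e3, e1, hu2]
    linear_combination u' ^ 3 * hcsK + (C s ^ 2 * u' ^ 2 + 2 * C s * C r * u') * hrK
  · intro hal
    apply hu
    rw [hu2]
    exact ((isAlgebraic_algebraMap s).mul hal).add (isAlgebraic_algebraMap r)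
  · rw [eq_top_iff, ← huv, IntermediateField.adjoin_le_iff]
    have m1 : u' ∈ IntermediateField.adjoin ℂ {u', v'} := IntermediateField.subset_adjoin ℂ _ (by simp)
    have m2 : v' ∈ IntermediateField.adjoin ℂ {u', v'} := IntermediateField.subset_adjoin ℂ _ (by simp)
    rintro z hz
    rcases hz with rfl | hz
    · exact huL _ m1
    · rw [Set.mem_singleton_iff] at hz
      rw [hz]
      exact hvu2 _ (huL _ m1) m2
  · intro hv3
    apply hvu
    have m1 : u ∈ IntermediateField.adjoin ℂ {u} := IntermediateField.mem_adjoin_simple_self ℂ u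
    have m2 : u' ∈ IntermediateField.adjoin ℂ {u} := by
      rw [hu']
      exact div_mem (sub_mem m1 (hmem _ r)) (hmem _ s)
    have m3 : IntermediateField.adjoin ℂ {u'} ≤ IntermediateField.adjoin ℂ {u} := by
      rw [IntermediateField.adjoin_simple_le_iff]
      exact m2
    exact hvu2 _ m1 (m3 hv3)

theorem singular_rational {u v : K} {α β : ℂ} (h : v ^ 2 = 4 * u ^ 3 - algebraMap ℂ K α * u - algebraMap ℂ K β) (hu : Transcendental ℂ u)
    (huv : IntermediateField.adjoin ℂ {u, v} = ⊤) (hd : α ^ 3 = 27 * β ^ 2) : ∃ t : K, IntermediateField.adjoin ℂ {t} = ⊤ := by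
  obtain ⟨ρ, h1, h2⟩ : ∃ ρ : ℂ, 12 * ρ ^ 2 = α ∧ -8 * ρ ^ 3 = β := by
    obtain ⟨ρ, hρ⟩ := IsAlgClosed.exists_pow_nat_eq (α / 12) (n := 2) (by norm_num)
    have h12 : 12 * ρ ^ 2 = α := by
      rw [hρ]
      ring
    have h3 : (8 * ρ ^ 3 - β) * (8 * ρ ^ 3 + β) = 0 := by
      have : 27 * ((8 * ρ ^ 3 - β) * (8 * ρ ^ 3 + β)) = 0 := by
        have e : α ^ 3 = (12 * ρ ^ 2) ^ 3 := by rw [h12]
        rw [hd] at e
        linear_combination -e
      exact (mul_eq_zero.1 this).resolve_left (by norm_num)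
    rcases mul_eq_zero.1 h3 with h4 | h4
    · exact ⟨-ρ, by linear_combination h12, by linear_combination h4⟩
    · exact ⟨ρ, h12, by linear_combination -h4⟩
  haveI : CharZero K := charZero_of_injective_algebraMap (algebraMap ℂ K).injective
  set C := algebraMap ℂ K with hC
  have c12 : C 12 = 12 := map_ofNat C 12
  have c8 : C 8 = 8 := map_ofNat C 8
  have e1 : C α = 12 * C ρ ^ 2 := by
    rw [← h1]
    simp [c12]
  have e2 : C β = -8 * C ρ ^ 3 := by
    rw [← h2]
    simp [c8]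
  have hne : u - C ρ ≠ 0 := by
    intro h0
    apply hu
    rw [sub_eq_zero.1 h0]
    exact isAlgebraic_algebraMap ρ
  set t : K := v / (u - C ρ) with ht
  have hvt : v = t * (u - C ρ) := by
    rw [ht]
    field_simp
  have ht2 : t ^ 2 = 4 * (u + 2 * C ρ) := by
    have h5 : (u - C ρ) ^ 2 * (t ^ 2 - 4 * (u + 2 * C ρ)) = 0 := by
      rw [e1, e2, hvt] at h
      linear_combination h
    exact sub_eq_zero.1 ((mul_eq_zero.1 h5).resolve_left (pow_ne_zero 2 hne))
  have hut : u = t ^ 2 / 4 - 2 * C ρ := by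
    rw [ht2]
    ring
  refine ⟨t, ?_⟩
  rw [eq_top_iff, ← huv, IntermediateField.adjoin_le_iff]
  have m1 : t ∈ IntermediateField.adjoin ℂ {t} := IntermediateField.mem_adjoin_simple_self ℂ t
  have hmem : ∀ z : ℂ, C z ∈ IntermediateField.adjoin ℂ {t} := fun z => (IntermediateField.adjoin ℂ {t}).algebraMap_mem z
  have m4 : (4 : K) ∈ IntermediateField.adjoin ℂ {t} := by
    have := hmem 4
    rwa [hC, map_ofNat] at this
  have m2 : (2 : K) ∈ IntermediateField.adjoin ℂ {t} := by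
    have := hmem 2
    rwa [hC, map_ofNat] at this
  have mu : u ∈ IntermediateField.adjoin ℂ {t} := by
    rw [hut]
    exact sub_mem (div_mem (pow_mem m1 2) m4) (mul_mem m2 (hmem ρ))
  have mv : v ∈ IntermediateField.adjoin ℂ {t} := by
    rw [hvt]
    exact mul_mem m1 (sub_mem mu (hmem ρ))
  rintro z hz
  rcases hz with rfl | hz
  · exact mu
  · rw [Set.mem_singleton_iff] at hz
    rw [hz]
    exact mv

end Pool.Agent.H13.CV
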