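import Pool.Agent.H13.CV.NoPole
import Pool.Agent.H13.CV.Step

/-!
# CV EllR: the relation between the generators

`ell_rel`: elimination: `v² / u³` has order `0`, value `c ≠ 0` at `E` (`exists_value`, `res_eq_zero_iff`): `v² - c u³` has order `≥ -5` (or is `0`); `uv` has order `-5`: subtract `a u v` with `a` the value of
`(v² - c u³) / (u v)`: the order is `≥ -4`; subtract `d u²`, `b v`, `e u` in the same way: the rest has order `≥ -1` at `E`, no other poles, so it is a constant.
-/

set_option autoImplicit false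

open Pool.Agent.H23.Fano (PrimeDivisorOver Form regularForms)

noncomputable section

namespace Pool.Agent.H13.CV

variable {K : Type} [Field K] [Algebra ℂ K]

private theorem step (hK : CurveField K) {E : Place K} {n : ℤ} {r g : K} (hr : (n : WithTop ℤ) ≤ E.ord r)
    (hg0 : g ≠ 0) (hg : oz E g = n) : ∃ a : ℂ, ((n + 1 : ℤ) : WithTop ℤ) ≤ E.ord (r - algebraMap ℂ K a * g) := by
  have hq : 0 ≤ E.ord (r / g) := by
    rw [nonneg_iff]
    rcases le_ord_iff.1 hr with h | h
    · left
      rw [h, zero_div]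
    · by_cases hr0 : r = 0
      · left
        rw [hr0, zero_div]
      · right
        rw [oz_div E hr0 hg0, hg]
        linarith
  obtain ⟨a, ha⟩ := exists_value hK hq
  refine ⟨a, ?_⟩
  have e : r - algebraMap ℂ K a * g = (r / g - algebraMap ℂ K a) * g := by
    rw [sub_mul, div_mul_cancel₀ _ hg0]
  rw [e, le_ord_iff]
  by_cases h0 : r / g - algebraMap ℂ K a = 0
  · left
    rw [h0, zero_mul]
  · right
    rcases pos_iff.1 ha with h | h
    · exact absurd h h0
    · rw [oz_mul E h0 hg0, hg]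
      linarith

theorem ell_rel (hK : CurveField K) {E : Place K} (h1 : ∀ f ∈ LD (dv E 1), ∃ c : ℂ, f = algebraMap ℂ K c) {u v : K} (hu : oz E u = -2) (hv : oz E v = -3)
    (hu' : ∀ E', E' ≠ E → 0 ≤ E'.ord u) (hv' : ∀ E', E' ≠ E → 0 ≤ E'.ord v) :
    ∃ c a d b e f : ℂ, c ≠ 0 ∧ v ^ 2 = algebraMap ℂ K c * u ^ 3 + algebraMap ℂ K a * (u * v) + algebraMap ℂ K d * u ^ 2 + algebraMap ℂ K b * v +
      algebraMap ℂ K e * u + algebraMap ℂ K f := by
  have hu0 : u ≠ 0 := by
    rintro rfl
    rw [oz_zero] at hu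
    norm_num at hu
  have hv0 : v ≠ 0 := by
    rintro rfl
    rw [oz_zero] at hv
    norm_num at hv
  have ozv2 : oz E (v ^ 2) = -6 := by
    rw [oz_pow, hv]
    norm_num
  have ozu3 : oz E (u ^ 3) = -6 := by
    rw [oz_pow, hu]
    norm_num
  have ozu2 : oz E (u ^ 2) = -4 := by
    rw [oz_pow, hu]
    norm_num
  have ozuv : oz E (u * v) = -5 := by
    rw [oz_mul E hu0 hv0, hu, hv]
    norm_num
  obtain ⟨c, hc⟩ := step hK (E := E) (n := -6) (r := v ^ 2) (g := u ^ 3)
    (le_ord_iff.2 (Or.inr (le_of_eq ozv2.symm))) (pow_ne_zero 3 hu0) ozu3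
  have hc0 : c ≠ 0 := by
    rintro rfl
    rw [map_zero, zero_mul, sub_zero] at hc
    rcases le_ord_iff.1 hc with h | h
    · exact pow_ne_zero 2 hv0 h
    · rw [ozv2] at h
      norm_num at h
  obtain ⟨a, ha⟩ := step hK (E := E) (n := -5) (r := v ^ 2 - algebraMap ℂ K c * u ^ 3) (g := u * v)
    (by simpa using hc) (mul_ne_zero hu0 hv0) ozuv
  obtain ⟨d, hd⟩ := step hK (E := E) (n := -4) (r := v ^ 2 - algebraMap ℂ K c * u ^ 3 - algebraMap ℂ K a * (u * v)) (g := u ^ 2)
    (by simpa using ha) (pow_ne_zero 2 hu0) ozu2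
  obtain ⟨b, hb⟩ := step hK (E := E) (n := -3)
    (r := v ^ 2 - algebraMap ℂ K c * u ^ 3 - algebraMap ℂ K a * (u * v) - algebraMap ℂ K d * u ^ 2) (g := v)
    (by simpa using hd) hv0 hv
  obtain ⟨e, he⟩ := step hK (E := E) (n := -2)
    (r := v ^ 2 - algebraMap ℂ K c * u ^ 3 - algebraMap ℂ K a * (u * v) - algebraMap ℂ K d * u ^ 2 - algebraMap ℂ K b * v) (g := u)
    (by simpa using hb) hu0 hu
  obtain ⟨f, hf⟩ := h1 (v ^ 2 - algebraMap ℂ K c * u ^ 3 - algebraMap ℂ K a * (u * v) - algebraMap ℂ K d * u ^ 2 -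
    algebraMap ℂ K b * v - algebraMap ℂ K e * u) (by
      rw [mem_LD]
      intro E'
      by_cases hE : E' = E
      · subst hE
        have : dv E' 1 E' = 1 := by simp [dv]
        rw [this]
        simpa using he
      · have : dv E 1 E' = 0 := by simp [dv, hE]
        rw [this]
        have hu1 := hu' E' hE
        have hv1 := hv' E' hE
        have := nonneg_sub (nonneg_sub (nonneg_sub (nonneg_sub (nonneg_sub (nonneg_pow hv1 2)
          (nonneg_mul (const_nonneg E' c) (nonneg_pow hu1 3)))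
          (nonneg_mul (const_nonneg E' a) (nonneg_mul hu1 hv1)))
          (nonneg_mul (const_nonneg E' d) (nonneg_pow hu1 2)))
          (nonneg_mul (const_nonneg E' b) hv1))
          (nonneg_mul (const_nonneg E' e) hu1)
        simpa using this)
  exact ⟨c, a, d, b, e, f, hc0, by linear_combination hf⟩

end Pool.Agent.H13.CV
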