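import Pool.Agent.H13.CV.Val

/-!
# CV Rat: the orders of the elements of `L = ℂ(x)`

`mem_L_iff`: `IntermediateField.mem_adjoin_simple_iff`.  `mem_poly_iff`: `Algebra.adjoin_singleton_eq_range_aeval`.
`aeval_ord`: `p = X ^ k * p₁` with `k = p.rootMultiplicity 0` and `p₁.eval 0 ≠ 0` (`Polynomial.exists_eq_pow_rootMultiplicity_mul_and_not_dvd`); if `0 < ord_E x` then the value of `p₁ (x)` at `E` is
`p₁.eval 0 ≠ 0` (`res_aeval` with `res E x = 0`, or directly: `p₁ (x) = p₁ (0) + x * r (x)`), so its order is `0`.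
`exists_zpow`: quotient of two polynomials.
`mem_R`: (⇐) `q (x)` has order `0`.  `exists_residue`: let `c = p (x) / q (x)`, `p, q ≠ 0`, with `p = X ^ a * p₁`, `q = X ^ b * q₁`, `p₁ (0), q₁ (0) ≠ 0`; at a place over `x = 0` (it exists by assumption):
`0 ≤ (a - b) * ord x`, so `b ≤ a` and `c = X ^ (a - b) p₁ / q₁ (x)`: a quotient `p₂ (x) / q₁ (x)` with `q₁ (0) ≠ 0`.  `γ = p₂ (0) / q₁ (0)`; the polynomial `p₂ - γ q₁` has value `0` at `0`, so it is
`X * r`, and `c = γ + x * r (x) / q₁ (x)`.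
`poly_inf`: `c = p (x)`, `p ≠ 0` of degree `d`: at a place `E` with `ord x < 0`: `oz E (p (x)) = d * oz E x` (highest term), so `0 ≤ (k + d) * oz E x` and `k = d = 0`.
`regLoc_div_of_pos`, `regLoc_of_nonneg`: `exists_zpow`.
-/

set_option autoImplicit false

open Pool.Agent.H23.Fano (PrimeDivisorOver Form regularForms)

noncomputable section

namespace Pool.Agent.H13.CV

variable {K : Type} [Field K] [Algebra ℂ K] {L : IntermediateField ℂ K} {x : K}

theorem mem_L_iff (hL : Gen L x) {c : K} : c ∈ L ↔ ∃ p q : Polynomial ℂ, q ≠ 0 ∧ c = Polynomial.aeval x p / Polynomial.aeval x q := by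
  rw [hL.eq, IntermediateField.mem_adjoin_simple_iff]
  constructor
  · rintro ⟨p, q, h⟩
    by_cases hq : q = 0
    · refine ⟨0, 1, one_ne_zero, ?_⟩
      rw [h, hq]
      simp
    · exact ⟨p, q, hq, h⟩
  · rintro ⟨p, q, -, h⟩
    exact ⟨p, q, h⟩

theorem mem_poly_iff {c : K} : c ∈ Algebra.adjoin ℂ {x} ↔ ∃ p : Polynomial ℂ, c = Polynomial.aeval x p := by
  rw [Algebra.adjoin_singleton_eq_range_aeval]
  constructor
  · rintro ⟨p, hp⟩
    exact ⟨p, hp.symm⟩
  · rintro ⟨p, hp⟩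
    exact ⟨p, hp.symm⟩

theorem poly_le_L (hL : Gen L x) {c : K} (hc : c ∈ Algebra.adjoin ℂ {x}) : c ∈ L := by
  rw [hL.eq]
  exact IntermediateField.algebra_adjoin_le_adjoin ℂ {x} hc

private theorem ord_aeval_zero' {p : Polynomial ℂ} (hp : p.eval 0 ≠ 0) {E : Place K} (hE : 0 < E.ord x) : E.ord (Polynomial.aeval x p) = 0 := by
  have h0 : 0 ≤ E.ord (Polynomial.aeval x p) := nonneg_aeval hE.le p
  refine le_antisymm (not_lt.mp fun h => ?_) h0
  have h1 : Polynomial.X * p.divX + Polynomial.C (p.coeff 0) = p := Polynomial.X_mul_divX_add p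
  have h2 : Polynomial.aeval x p = x * Polynomial.aeval x p.divX + algebraMap ℂ K (p.coeff 0) := by
    conv_lhs => rw [← h1]
    rw [map_add, map_mul, Polynomial.aeval_X, Polynomial.aeval_C]
  have h3 : algebraMap ℂ K (p.coeff 0) = Polynomial.aeval x p - x * Polynomial.aeval x p.divX := by
    rw [h2]; ring
  have h4 : 0 < E.ord (algebraMap ℂ K (p.coeff 0)) := by
    rw [h3]
    exact pos_sub h (pos_mul hE (nonneg_aeval hE.le _))
  rw [Polynomial.coeff_zero_eq_eval_zero, ord_const E hp] at h4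
  exact lt_irrefl _ h4

private theorem ne_zero_of_ord_eq_zero {f : K} {E : Place K} (h : E.ord f = 0) : f ≠ 0 := by
  intro hf
  rw [hf, E.ord.map_zero] at h
  exact absurd h (by simp)

private theorem oz_of_ord_eq_zero {f : K} {E : Place K} (h : E.ord f = 0) : oz E f = 0 := by
  have h1 := coe_oz E (ne_zero_of_ord_eq_zero h)
  rw [h] at h1
  exact_mod_cast h1

private theorem factor {p : Polynomial ℂ} (hp : p ≠ 0) : ∃ p₁ : Polynomial ℂ, p = Polynomial.X ^ p.rootMultiplicity 0 * p₁ ∧ p₁.eval 0 ≠ 0 := by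
  obtain ⟨q, h1, h2⟩ := Polynomial.exists_eq_pow_rootMultiplicity_mul_and_not_dvd p hp 0
  refine ⟨q, ?_, ?_⟩
  · simpa using h1
  · intro h
    exact h2 (Polynomial.dvd_iff_isRoot.mpr h)

theorem aeval_ord {p : Polynomial ℂ} (hp : p ≠ 0) {E : Place K} (hE : 0 < E.ord x) (hx : x ≠ 0) :
    oz E (Polynomial.aeval x p) = p.rootMultiplicity 0 * oz E x := by
  obtain ⟨q, h1, h2⟩ := factor hp
  have h3 : Polynomial.aeval x p = x ^ p.rootMultiplicity 0 * Polynomial.aeval x q := by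
    conv_lhs => rw [h1]
    rw [map_mul, map_pow, Polynomial.aeval_X]
  have h4 := ord_aeval_zero' h2 hE
  rw [h3, oz_mul E (pow_ne_zero _ hx) (ne_zero_of_ord_eq_zero h4), oz_pow, oz_of_ord_eq_zero h4, add_zero]

theorem ord_aeval_zero {p : Polynomial ℂ} (hp : p.eval 0 ≠ 0) {E : Place K} (hE : 0 < E.ord x) : E.ord (Polynomial.aeval x p) = 0 :=
  ord_aeval_zero' hp hE

private theorem aeval_ne_zero (hL : Gen L x) {p : Polynomial ℂ} (hp : p ≠ 0) : Polynomial.aeval x p ≠ 0 :=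
  fun h => hp (transcendental_iff.mp hL.tr p h)

private theorem oz_pos {E : Place K} (hx : x ≠ 0) (hE : 0 < E.ord x) : 0 < oz E x := by
  rcases pos_iff.mp hE with h | h
  · exact absurd h hx
  · exact h

/-- the elements of `ℂ(x)` have orders proportional to the order of `x` at the places over `x = 0` -/
theorem exists_zpow (hL : Gen L x) {c : K} (hc : c ∈ L) (hc0 : c ≠ 0) : ∃ k : ℤ, ∀ E : Place K, 0 < E.ord x → oz E c = k * oz E x := by
  obtain ⟨p, q, hq, h⟩ := (mem_L_iff hL).mp hc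
  have hp : p ≠ 0 := by
    rintro rfl
    apply hc0
    rw [h]
    simp
  refine ⟨(p.rootMultiplicity 0 : ℤ) - (q.rootMultiplicity 0 : ℤ), fun E hE => ?_⟩
  rw [h, oz_div E (aeval_ne_zero hL hp) (aeval_ne_zero hL hq), aeval_ord hp hE hL.ne_zero, aeval_ord hq hE hL.ne_zero]
  ring

theorem regLoc_div {p q : Polynomial ℂ} (hq : q.eval 0 ≠ 0) : RegLoc x (Polynomial.aeval x p / Polynomial.aeval x q) := by
  intro E hE
  have h1 := ord_aeval_zero hq hE
  rw [div_eq_mul_inv]
  refine nonneg_mul (nonneg_aeval hE.le p) ?_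
  rw [ord_inv E (ne_zero_of_ord_eq_zero h1), oz_of_ord_eq_zero h1]
  simp

/-- the residue of an element of the local ring of `ℂ(x)` at `x = 0` -/
theorem exists_residue (hL : Gen L x) (hex : ∃ E : Place K, 0 < E.ord x) {c : K} (hc : c ∈ L) (h : RegLoc x c) :
    ∃ (γ : ℂ) (c' : K), c' ∈ L ∧ RegLoc x c' ∧ c = algebraMap ℂ K γ + x * c' := by
  by_cases hc0 : c = 0
  · refine ⟨0, 0, L.zero_mem, fun E _ => ?_, ?_⟩
    · rw [E.ord.map_zero]
      exact le_top
    · rw [hc0]
      simp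
  obtain ⟨E, hE⟩ := hex
  obtain ⟨p, q, hq, hpq⟩ := (mem_L_iff hL).mp hc
  have hp : p ≠ 0 := by
    rintro rfl
    apply hc0
    rw [hpq]
    simp
  have hx := hL.ne_zero
  have hxo := oz_pos hx hE
  have hb : q.rootMultiplicity 0 ≤ p.rootMultiplicity 0 := by
    have h1 : 0 ≤ oz E c := by
      rcases nonneg_iff.mp (h E hE) with h2 | h2
      · exact absurd h2 hc0
      · exact h2
    rw [hpq, oz_div E (aeval_ne_zero hL hp) (aeval_ne_zero hL hq), aeval_ord hp hE hx, aeval_ord hq hE hx, ← sub_mul] at h1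
    have h3 : (0 : ℤ) ≤ (p.rootMultiplicity 0 : ℤ) - (q.rootMultiplicity 0 : ℤ) := by
      by_contra h4
      push Not at h4
      have h5 := mul_neg_of_neg_of_pos h4 hxo
      omega
    omega
  obtain ⟨p₁, hp1, hp0⟩ := factor hp
  obtain ⟨q₁, hq1, hq0⟩ := factor hq
  obtain ⟨m, hm⟩ := Nat.exists_eq_add_of_le hb
  set p₂ : Polynomial ℂ := Polynomial.X ^ m * p₁ with hp2
  have hq1ne : q₁ ≠ 0 := by
    rintro rfl
    simp at hq0
  have hc2 : c = Polynomial.aeval x p₂ / Polynomial.aeval x q₁ := by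
    have e1 : Polynomial.aeval x p = x ^ q.rootMultiplicity 0 * Polynomial.aeval x p₂ := by
      conv_lhs => rw [hp1]
      rw [hm, hp2, map_mul, map_pow, map_mul, map_pow, Polynomial.aeval_X, pow_add, mul_assoc]
    have e2 : Polynomial.aeval x q = x ^ q.rootMultiplicity 0 * Polynomial.aeval x q₁ := by
      conv_lhs => rw [hq1]
      rw [map_mul, map_pow, Polynomial.aeval_X]
    rw [hpq, e1, e2, mul_div_mul_left _ _ (pow_ne_zero _ hx)]
  set γ : ℂ := p₂.eval 0 / q₁.eval 0 with hγ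
  set s : Polynomial ℂ := p₂ - Polynomial.C γ * q₁ with hs
  have hs0 : s.coeff 0 = 0 := by
    rw [Polynomial.coeff_zero_eq_eval_zero, hs, Polynomial.eval_sub, Polynomial.eval_C_mul, hγ, div_mul_cancel₀ _ hq0, sub_self]
  have hs1 : s = Polynomial.X * s.divX := by
    have h1 := Polynomial.X_mul_divX_add s
    rw [hs0, Polynomial.C_0, add_zero] at h1
    exact h1.symm
  refine ⟨γ, Polynomial.aeval x s.divX / Polynomial.aeval x q₁, (mem_L_iff hL).mpr ⟨s.divX, q₁, hq1ne, rfl⟩, regLoc_div hq0, ?_⟩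
  have hs2 : Polynomial.aeval x s = x * Polynomial.aeval x s.divX := by
    conv_lhs => rw [hs1]
    rw [map_mul, Polynomial.aeval_X]
  have hs3 : Polynomial.aeval x s = Polynomial.aeval x p₂ - algebraMap ℂ K γ * Polynomial.aeval x q₁ := by
    rw [hs, map_sub, map_mul (Polynomial.aeval x) (Polynomial.C γ) q₁, Polynomial.aeval_C]
  have hq2 := aeval_ne_zero hL hq1ne
  rw [hc2, mul_div_assoc', ← hs2, hs3, sub_div, mul_div_assoc, div_self hq2, mul_one]
  ring

/-- an element of the local ring which vanishes at one place over `x = 0` is divisible by `x` -/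
theorem regLoc_div_of_pos (hL : Gen L x) {c : K} (hc : c ∈ L) {E : Place K} (hE : 0 < E.ord x) (h : 0 < E.ord c) : RegLoc x (c / x) := by
  intro E' hE'
  by_cases hc0 : c = 0
  · rw [hc0, zero_div, E'.ord.map_zero]
    exact le_top
  obtain ⟨k, hk⟩ := exists_zpow hL hc hc0
  have hx := hL.ne_zero
  have h1 := oz_pos hx hE
  have h2 := oz_pos hx hE'
  have h3 := oz_pos hc0 h
  rw [hk E hE] at h3
  have hk0 : 0 < k := by
    by_contra h4
    push Not at h4
    have h5 := mul_nonpos_of_nonpos_of_nonneg h4 h1.le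
    omega
  refine nonneg_iff.mpr (Or.inr ?_)
  rw [oz_div E' hc0 hx, hk E' hE']
  have h6 : k * oz E' x - oz E' x = (k - 1) * oz E' x := by ring
  rw [h6]
  exact mul_nonneg (by omega) h2.le

/-- an element of `ℂ(x)` which is regular over `x = 0` at one place is regular at all places over `x = 0` -/
theorem regLoc_of_nonneg (hL : Gen L x) {c : K} (hc : c ∈ L) {E : Place K} (hE : 0 < E.ord x) (h : 0 ≤ E.ord c) : RegLoc x c := by
  intro E' hE'
  by_cases hc0 : c = 0
  · rw [hc0, E'.ord.map_zero]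
    exact le_top
  obtain ⟨k, hk⟩ := exists_zpow hL hc hc0
  have hx := hL.ne_zero
  have h1 := oz_pos hx hE
  have h2 := oz_pos hx hE'
  have h3 : 0 ≤ oz E c := by
    rcases nonneg_iff.mp h with h4 | h4
    · exact absurd h4 hc0
    · exact h4
  rw [hk E hE] at h3
  have hk0 : 0 ≤ k := by
    by_contra h4
    push Not at h4
    have h5 := mul_neg_of_neg_of_pos h4 h1
    omega
  refine nonneg_iff.mpr (Or.inr ?_)
  rw [hk E' hE']
  exact mul_nonneg hk0 h2.le

private theorem oz_aeval_of_neg {p : Polynomial ℂ} (hp : p ≠ 0) (hx : x ≠ 0) {E : Place K} (hE : E.ord x < 0) :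
    Polynomial.aeval x p ≠ 0 ∧ oz E (Polynomial.aeval x p) = p.natDegree * oz E x := by
  let _ : Invertible x := invertibleOfNonzero hx
  have h1 : Polynomial.aeval x⁻¹ p.reverse * x ^ p.natDegree = Polynomial.aeval x p := by
    have h2 := Polynomial.eval₂_reverse_mul_pow (algebraMap ℂ K) x p
    rw [invOf_eq_inv] at h2
    exact h2
  have h3 : 0 < E.ord x⁻¹ := (inv_pos_iff hx).mpr hE
  have h4 : p.reverse.eval 0 ≠ 0 := by
    rw [← Polynomial.coeff_zero_eq_eval_zero, Polynomial.coeff_zero_reverse]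
    exact Polynomial.leadingCoeff_ne_zero.mpr hp
  have h5 := ord_aeval_zero h4 h3
  have h6 := ne_zero_of_ord_eq_zero h5
  rw [← h1]
  refine ⟨mul_ne_zero h6 (pow_ne_zero _ hx), ?_⟩
  rw [oz_mul E h6 (pow_ne_zero _ hx), oz_of_ord_eq_zero h5, oz_pow, zero_add]

/-- a polynomial in `x` which is `x ^ (-k)` times a function regular at `x = ∞` -/
theorem poly_inf (hL : Gen L x) (hex : ∃ E : Place K, E.ord x < 0) {c : K} (hc : c ∈ Algebra.adjoin ℂ {x}) {k : ℕ} (h : RegLoc x⁻¹ (x ^ k * c)) :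
    (1 ≤ k → c = 0) ∧ ∃ γ : ℂ, c = algebraMap ℂ K γ := by
  obtain ⟨E, hE⟩ := hex
  obtain ⟨p, rfl⟩ := mem_poly_iff.mp hc
  have hx := hL.ne_zero
  by_cases hp : p = 0
  · rw [hp, map_zero]
    exact ⟨fun _ => rfl, 0, by simp⟩
  obtain ⟨h1, h2⟩ := oz_aeval_of_neg hp hx hE
  have h3 := h E ((inv_pos_iff hx).mpr hE)
  have h4 : oz E x < 0 := neg_iff.mp hE
  have h5 : 0 ≤ oz E (x ^ k * Polynomial.aeval x p) := by
    rcases nonneg_iff.mp h3 with h6 | h6
    · exact absurd h6 (mul_ne_zero (pow_ne_zero _ hx) h1)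
    · exact h6
  rw [oz_mul E (pow_ne_zero _ hx) h1, oz_pow, h2, ← add_mul] at h5
  have h7 : (k : ℤ) + (p.natDegree : ℤ) ≤ 0 := by
    by_contra h8
    push Not at h8
    have h9 := mul_neg_of_pos_of_neg h8 h4
    omega
  refine ⟨fun hk => ?_, p.coeff 0, ?_⟩
  · exfalso
    omega
  · have h8 : p.natDegree = 0 := by omega
    conv_lhs => rw [Polynomial.eq_C_of_natDegree_eq_zero h8]
    rw [Polynomial.aeval_C]

end Pool.Agent.H13.CV
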