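import Pool.Agent.H13.CV.Appr
import Pool.Agent.H13.CV.Rat

/-!
# CV FinPl: finitely many places over `x = 0`

`sum_le`: let `e E = oz E x > 0` for `E ∈ T`.  By `exists_orders` (applied to `T`, with `d E = j` and `d E' = e E'` for `E' ≠ E`) there are functions `f E j`, `E ∈ T`, `j < e E`, with `oz E (f E j) = j`,
`oz E' (f E j) = e E'` for `E' ∈ T`, `E' ≠ E`.  They are linearly independent over `L`: let `∑ c E j • f E j = 0`, not all `c E j = 0`.  For the `c E j ≠ 0` let `k E j` be as in `exists_zpow`, and let `k₀`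
be the minimum of them; multiply by `x ^ (- k₀)`: so we may assume that `k₀ = 0`, all `k E j ≥ 0`.  Let `(E, j)` have `c E j ≠ 0`, `k E j = 0`, and `j` minimal for this `E`.  Look at the orders at `E`:
the term `(E, j)` has order `j < e E`; the terms `(E, i)` with `i ≠ j`, `c E i ≠ 0` have order `k E i * e E + i > j` (`i > j` or `k E i ≥ 1`); the terms `(E', i)`, `E' ≠ E`, have order
`≥ e E > j`.  So the sum of the other terms has order `> j` (or is `0`) and the total sum has order `j`: contradiction.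
The number of these functions is `∑ E ∈ T, e E`, so it is `≤ finrank L K` (`LinearIndependent.fintype_card_le_finrank`, index type a sigma type `Σ E : T, Fin (oz E x).toNat`, or a finset of pairs).

`finite_over`: otherwise there is a set `T` with more than `finrank L K` elements, and all `oz E x ≥ 1`.  `finite_poles`: if `f` has a pole then it is transcendental (`tr_of_pole`), apply
`finite_over` to `f⁻¹` and `L = ℂ(f⁻¹)`.  `finite_supp`: the zeros of `f` are the poles of `f⁻¹`.
-/

set_option autoImplicit false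

open Pool.Agent.H23.Fano (PrimeDivisorOver Form regularForms)

noncomputable section

namespace Pool.Agent.H13.CV

variable {K : Type} [Field K] [Algebra ℂ K] {L : IntermediateField ℂ K} {x : K}

/-- the order of a product with an element of `ℂ(x)` -/
private theorem finPl_ord (E : Place K) {a b : K} (ha : a ≠ 0) (hb : b ≠ 0) {m n : ℤ}
    (h1 : oz E a = m) (h2 : oz E b = n) : E.ord (a * b) = ((m + n : ℤ) : WithTop ℤ) := by
  rw [← coe_oz E (mul_ne_zero ha hb), oz_mul E ha hb, h1, h2]

theorem sum_le (hL : Gen L x) [FiniteDimensional L K] (T : Finset (Place K)) (hT : ∀ E ∈ T, 0 < E.ord x) :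
    ∑ E ∈ T, oz E x ≤ (Module.finrank L K : ℤ) := by
  classical
  have hx := hL.ne_zero
  have he : ∀ E ∈ T, 0 < oz E x := fun E hE => (pos_iff.1 (hT E hE)).resolve_left hx
  -- the functions
  have hf : ∀ i : (Σ E : {E // E ∈ T}, Fin (oz E.1 x).toNat), ∃ f : K, f ≠ 0 ∧
      oz i.1.1 f = ((i.2 : ℕ) : ℤ) ∧ ∀ E' ∈ T, E' ≠ i.1.1 → oz E' f = oz E' x := by
    intro i
    obtain ⟨f, hf0, hf1⟩ := exists_orders T
      (fun E' => if E' = i.1.1 then ((i.2 : ℕ) : ℤ) else oz E' x) ⟨i.1.1, i.1.2⟩
    refine ⟨f, hf0, ?_, fun E' hE' hne => ?_⟩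
    · rw [hf1 _ i.1.2, if_pos rfl]
    · rw [hf1 _ hE', if_neg hne]
  choose f hf0 hf1 hf2 using hf
  have hli : LinearIndependent L f := by
    rw [Fintype.linearIndependent_iff]
    intro c hc
    by_contra hcon
    push Not at hcon
    obtain ⟨i₁, hi₁⟩ := hcon
    -- the exponents
    have hk : ∀ i, ∃ k : ℤ, c i ≠ 0 → ∀ E : Place K, 0 < E.ord x →
        oz E (c i : K) = k * oz E x := by
      intro i
      by_cases h : c i = 0
      · exact ⟨0, fun h1 => absurd h h1⟩
      · obtain ⟨k, hk⟩ := exists_zpow hL (c i).2 (fun h1 => h (Subtype.ext h1))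
        exact ⟨k, fun _ => hk⟩
    choose k hk using hk
    set S : Finset (Σ E : {E // E ∈ T}, Fin (oz E.1 x).toNat) :=
      Finset.univ.filter fun i => c i ≠ 0 with hS
    have hS1 : S.Nonempty := ⟨i₁, by rw [hS, Finset.mem_filter]; exact ⟨Finset.mem_univ _, hi₁⟩⟩
    obtain ⟨i₂, hi₂, hmin₂⟩ := Finset.exists_min_image S k hS1
    obtain ⟨i₀, hi₀, hmin₀⟩ := Finset.exists_min_image (S.filter fun i => k i = k i₂)
      (fun i => (i.2 : ℕ)) ⟨i₂, by rw [Finset.mem_filter]; exact ⟨hi₂, rfl⟩⟩
    rw [Finset.mem_filter] at hi₀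
    obtain ⟨hi₀S, hk₀⟩ := hi₀
    have hc0 : c i₀ ≠ 0 := by
      rw [hS, Finset.mem_filter] at hi₀S
      exact hi₀S.2
    have hcK : ∀ i, c i ≠ 0 → (c i : K) ≠ 0 := fun i h h1 => h (Subtype.ext h1)
    have hE0 : 0 < i₀.1.1.ord x := hT _ i₀.1.2
    have hord0 : i₀.1.1.ord ((c i₀ : K) * f i₀) =
        ((k i₀ * oz i₀.1.1 x + ((i₀.2 : ℕ) : ℤ) : ℤ) : WithTop ℤ) :=
      finPl_ord _ (hcK _ hc0) (hf0 _) (hk _ hc0 _ hE0) (hf1 _)
    have hj0 : ((i₀.2 : ℕ) : ℤ) < oz i₀.1.1 x := by
      have h1 := i₀.2.2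
      omega
    have hothers : ∀ i ∈ Finset.univ.erase i₀,
        i₀.1.1.ord ((c i₀ : K) * f i₀) < i₀.1.1.ord ((c i : K) * f i) := by
      intro i hi
      rw [Finset.mem_erase] at hi
      by_cases hci : c i = 0
      · rw [hci, hord0]
        simp only [ZeroMemClass.coe_zero, zero_mul, AddValuation.map_zero]
        exact WithTop.coe_lt_top _
      · have hiS : i ∈ S := by
          rw [hS, Finset.mem_filter]
          exact ⟨Finset.mem_univ _, hci⟩
        have hki : k i₀ ≤ k i := by
          rw [hk₀]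
          exact hmin₂ i hiS
        have hepos := he _ i₀.1.2
        by_cases hEi : i.1 = i₀.1
        · obtain ⟨Ei, ji⟩ := i
          simp only at hEi
          subst hEi
          have h1 := finPl_ord i₀.1.1 (hcK _ hci) (hf0 _) (hk _ hci _ hE0)
            (hf1 (⟨i₀.1, ji⟩ : Σ E : {E // E ∈ T}, Fin (oz E.1 x).toNat))
          rw [hord0, h1, WithTop.coe_lt_coe]
          simp only
          rcases lt_or_eq_of_le hki with h2 | h2
          · have h3 : (k i₀ + 1) * oz i₀.1.1 x ≤ k ⟨i₀.1, ji⟩ * oz i₀.1.1 x :=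
              mul_le_mul_of_nonneg_right (by omega) hepos.le
            have h4 : (k i₀ + 1) * oz i₀.1.1 x = k i₀ * oz i₀.1.1 x + oz i₀.1.1 x := by ring
            have h5 : (0 : ℤ) ≤ ((ji : ℕ) : ℤ) := Int.natCast_nonneg _
            linarith
          · have h3 := hmin₀ ⟨i₀.1, ji⟩ (by
              rw [Finset.mem_filter]
              exact ⟨hiS, by rw [← h2, hk₀]⟩)
            simp only at h3
            have h4 : (i₀.2 : ℕ) ≠ (ji : ℕ) := by
              intro h5
              apply hi.1
              have h6 : ji = i₀.2 := Fin.ext h5.symm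
              rw [h6]
            have h5 : (i₀.2 : ℕ) < (ji : ℕ) := lt_of_le_of_ne h3 h4
            have h6 : ((i₀.2 : ℕ) : ℤ) < ((ji : ℕ) : ℤ) := by exact_mod_cast h5
            rw [← h2]
            linarith
        · have hne : i₀.1.1 ≠ i.1.1 := fun h => hEi (Subtype.ext h.symm)
          have h1 := finPl_ord i₀.1.1 (hcK _ hci) (hf0 i) (hk _ hci _ hE0)
            (hf2 i _ i₀.1.2 hne)
          rw [hord0, h1, WithTop.coe_lt_coe]
          have h3 : k i₀ * oz i₀.1.1 x ≤ k i * oz i₀.1.1 x :=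
            mul_le_mul_of_nonneg_right hki hepos.le
          linarith
    have hg : i₀.1.1.ord ((c i₀ : K) * f i₀) ≠ ⊤ := by
      rw [hord0]
      exact WithTop.coe_ne_top
    have hlt := AddValuation.map_lt_sum (v := i₀.1.1.ord) hg hothers
    have hsum : (c i₀ : K) * f i₀ + ∑ i ∈ Finset.univ.erase i₀, (c i : K) * f i = 0 := by
      rw [Finset.add_sum_erase _ (fun i => (c i : K) * f i) (Finset.mem_univ i₀)]
      exact hc
    have hneg : ∑ i ∈ Finset.univ.erase i₀, (c i : K) * f i = -((c i₀ : K) * f i₀) :=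
      eq_neg_of_add_eq_zero_right hsum
    rw [hneg, AddValuation.map_neg] at hlt
    exact lt_irrefl _ hlt
  have hcard := hli.fintype_card_le_finrank
  rw [Fintype.card_sigma] at hcard
  simp only [Fintype.card_fin] at hcard
  have h1 : ∑ E ∈ T, oz E x = ((∑ E : {E // E ∈ T}, (oz E.1 x).toNat : ℕ) : ℤ) := by
    rw [Nat.cast_sum, ← Finset.sum_coe_sort T (fun E => oz E x)]
    refine Finset.sum_congr rfl fun E _ => ?_
    rw [Int.toNat_of_nonneg (he E.1 E.2).le]
  rw [h1]
  exact_mod_cast hcard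

theorem finite_over (hL : Gen L x) [FiniteDimensional L K] : {E : Place K | 0 < E.ord x}.Finite := by
  by_contra hinf
  obtain ⟨T, hT, hcard⟩ := (Set.not_finite.1 hinf).exists_subset_card_eq (Module.finrank L K + 1)
  have h1 := sum_le hL T (fun E hE => hT hE)
  have hx := hL.ne_zero
  have h2 : ∀ E ∈ T, (1 : ℤ) ≤ oz E x := fun E hE => (pos_iff.1 (hT hE)).resolve_left hx
  have h3 := Finset.sum_le_sum h2
  rw [Finset.sum_const, nsmul_eq_mul, mul_one, hcard] at h3
  push_cast at h3
  linarith

theorem finite_poles (hK : CurveField K) (f : K) : {E : Place K | E.ord f < 0}.Finite := by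
  by_cases hne : ∃ E : Place K, E.ord f < 0
  · obtain ⟨E, hE⟩ := hne
    have htr := tr_of_pole hE
    have hL : Gen (IntermediateField.adjoin ℂ {f}) f := ⟨htr, rfl⟩
    have hfd : FiniteDimensional (IntermediateField.adjoin ℂ {f}) K := hK.fin f htr
    have h1 := finite_over hL.inv
    refine h1.subset fun E' hE' => ?_
    exact (inv_pos_iff hL.ne_zero).2 hE'
  · push Not at hne
    have h1 : {E : Place K | E.ord f < 0} = ∅ :=
      Set.eq_empty_of_forall_notMem fun E hE => absurd hE (not_lt.2 (hne E))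
    rw [h1]
    exact Set.finite_empty

theorem finite_supp (hK : CurveField K) (f : K) : {E : Place K | oz E f ≠ 0}.Finite := by
  refine ((finite_poles hK f).union (finite_poles hK f⁻¹)).subset fun E hE => ?_
  rcases lt_or_gt_of_ne hE with h | h
  · exact Or.inl (neg_iff.2 h)
  · refine Or.inr (neg_iff.2 ?_)
    rw [oz_inv]
    exact neg_neg_of_pos h

end Pool.Agent.H13.CV
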