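import Pool.Agent.H17.GlobalLift

/-!
# CV HomA: the holomorphic map given by entire functions

For `z₀ : ℂ` let `k` be the least order of the `a i` at `z₀` (finite, as some `a j ≠ 0`: `order_ne_top`), `a i = coord z₀ ^ k * c i` with entire `c i` (`exists_coord_mul`, induction on `k`), not all
`c i (z₀) = 0`.  `f z₀` is the point `(c i (z₀))_i`.  Near `z₀`, for `z ≠ z₀`, `(a i (z))_i = (z - z₀) ^ k (c i (z))_i ≠ 0`, and the representation at `z` (`k' , c'`) has `a i (z) = 0` for all `i` unless `k' = 0`; so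
`k' = 0`, `c' = a` and `f z = [a i (z)] = [c i (z)]`.  So `f` is holomorphic at `z₀` with lift `z ↦ (c i (z))_i`.
-/

set_option autoImplicit false

open Topology Filter
open Pool.Agent.H17 Pool.Agent.H17.EntFun

noncomputable section

namespace Pool.Agent.H13.CV

private lemma exists_decomp {N : ℕ} (z₀ : ℂ) : ∀ (n : ℕ) (a : Fin (N + 1) → EntFun) (j : Fin (N + 1)), a j ≠ 0 →
    analyticOrderAt (a j : ℂ → ℂ) z₀ = n →
    ∃ (k : ℕ) (c : Fin (N + 1) → EntFun), (fun i => (c i : ℂ → ℂ) z₀) ≠ 0 ∧ ∀ i, a i = coord z₀ ^ k * c i := by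
  intro n
  induction n using Nat.strong_induction_on with
  | _ n ih =>
    intro a j hj hn
    by_cases h : (fun i => (a i : ℂ → ℂ) z₀) = 0
    · have h1 : ∀ i, ∃ g : EntFun, a i = coord z₀ * g := fun i => exists_coord_mul (congrFun h i)
      choose g hg using h1
      have hgj : g j ≠ 0 := by
        intro h2
        apply hj
        rw [hg j, h2, mul_zero]
      obtain ⟨n', hn'⟩ : ∃ n' : ℕ, analyticOrderAt (g j : ℂ → ℂ) z₀ = n' :=
        ⟨_, (Nat.cast_analyticOrderNatAt (order_ne_top hgj z₀)).symm⟩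
      have hlt : n' < n := by
        rw [hg j, order_mul, order_coord, hn'] at hn
        have : 1 + n' = n := by exact_mod_cast hn
        omega
      obtain ⟨k, c, hc, he⟩ := ih n' hlt g j hgj hn'
      refine ⟨k + 1, c, hc, fun i => ?_⟩
      rw [hg i, he i, pow_succ', mul_assoc]
    · exact ⟨0, a, h, fun i => by rw [pow_zero, one_mul]⟩

theorem exists_map {N : ℕ} (a : Fin (N + 1) → EntFun) (ha : ∃ i, a i ≠ 0) :
    ∃ f : ℂ → PN N, HolomorphicInto f Set.univ ∧ ∀ z₀ : ℂ, ∃ (k : ℕ) (c : Fin (N + 1) → EntFun) (h : (fun i => (c i : ℂ → ℂ) z₀) ≠ 0),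
      (∀ i, a i = coord z₀ ^ k * c i) ∧ f z₀ = Projectivization.mk ℂ _ h := by
  obtain ⟨j, hj⟩ := ha
  have key : ∀ z₀ : ℂ, ∃ (k : ℕ) (c : Fin (N + 1) → EntFun), (fun i => (c i : ℂ → ℂ) z₀) ≠ 0 ∧ ∀ i, a i = coord z₀ ^ k * c i :=
    fun z₀ => exists_decomp z₀ _ a j hj (Nat.cast_analyticOrderNatAt (order_ne_top hj z₀)).symm
  choose k c hc he using key
  refine ⟨fun z => Projectivization.mk ℂ (fun i => (c z i : ℂ → ℂ) z) (hc z), ?_,
    fun z₀ => ⟨k z₀, c z₀, hc z₀, he z₀, rfl⟩⟩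
  intro z₀ _
  refine ⟨fun z i => (c z₀ i : ℂ → ℂ) z, ?_, ?_⟩
  · exact analyticAt_pi_iff.mpr fun i => (c z₀ i).analyticAt z₀
  · obtain ⟨i₀, hi₀⟩ : ∃ i₀, (c z₀ i₀ : ℂ → ℂ) z₀ ≠ 0 := by
      by_contra h
      push Not at h
      exact hc z₀ (funext h)
    have hev : ∀ᶠ z in 𝓝 z₀, (c z₀ i₀ : ℂ → ℂ) z ≠ 0 :=
      ((c z₀ i₀).diff z₀).continuousAt.eventually_ne hi₀
    filter_upwards [hev] with z hz
    have h : (fun i => (c z₀ i : ℂ → ℂ) z) ≠ 0 := fun h1 => hz (congrFun h1 i₀)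
    refine ⟨h, ?_⟩
    by_cases hzz : z = z₀
    · subst hzz
      rfl
    · have hsub : z - z₀ ≠ 0 := sub_ne_zero.2 hzz
      have h1 : ∀ i, (a i : ℂ → ℂ) z = (z - z₀) ^ k z₀ * (c z₀ i : ℂ → ℂ) z := by
        intro i
        have h2 := congrArg (fun g : EntFun => ev z g) (he z₀ i)
        simpa using h2
      have h3 : ∀ i, (a i : ℂ → ℂ) z = (z - z) ^ k z * (c z i : ℂ → ℂ) z := by
        intro i
        have h2 := congrArg (fun g : EntFun => ev z g) (he z i)
        simpa using h2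
      have hk : k z = 0 := by
        by_contra hk
        have h4 := h3 i₀
        rw [sub_self, zero_pow hk, zero_mul, h1 i₀] at h4
        exact mul_ne_zero (pow_ne_zero _ hsub) hz h4
      have h5 : ∀ i, (c z i : ℂ → ℂ) z = (z - z₀) ^ k z₀ * (c z₀ i : ℂ → ℂ) z := by
        intro i
        rw [← h1 i, h3 i, hk, pow_zero, one_mul]
      rw [Projectivization.mk_eq_mk_iff]
      refine ⟨Units.mk0 ((z - z₀) ^ k z₀) (pow_ne_zero _ hsub), ?_⟩
      funext i
      rw [h5 i]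
      rfl

end Pool.Agent.H13.CV
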