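import Pool.Agent.H13.CV.MerP
import Pool.Agent.H13.CV.HomA
import Pool.Agent.H17R.Defs
import Pool.Agent.H62.SA.Defs
import Pool.Agent.H92.GT.ProjPoint

/-!
# CV HomM: the entire curve given by a homomorphism of the function field into the meromorphic functions

`homMap0`: let `X j ∉ Q`, so `coordFun Q j ≠ 0` (`Pool.Agent.H92.GT.Proj.aeval_coordFun_eq_zero_iff Q (X j)`).  `y i = φ (ratio Q i j) ∈ Mer`, `y j = 1`.  There are `a i, b ∈ EntFun`, `b ≠ 0`, with `y i = a i / b`
(`IsLocalization.exist_integer_multiples_of_finset`), `a j = b`.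
`exists_map` (HomA) gives `f` and, for every `z₀`, `k` and `c i` with `a i = coord z₀ ^ k * c i`, `f z₀ = [c i (z₀)]`.
Forms in `Q`: for a form `R ∈ Q`: `aeval (ratio Q · j) R = 0` in `FunField Q`, so `aeval y R = 0`, `aeval (toM ∘ a) R = 0` (homogeneous), so `aeval c R = 0` in `EntFun` (`coord ≠ 0`, domain), evaluate at `z₀`.
The index `l`: with `c l (z₀) ≠ 0`; then `a l ≠ 0`, `y l ≠ 0`, so `coordFun Q l ≠ 0`, and `φ (ratio Q i l) = y i / y l = c i / c l` has order `≥ 0` at `z₀`.  If the form `R` vanishes at `f z₀`, then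
`φ (aeval (ratio Q · l) R) = aeval (c / c l) R = (aeval c R) / c l ^ d` has positive order at `z₀`.
Non-constant: if `f` is constant then the `a i` are proportional to constants (near a point where `k = 0`, then everywhere), so the `y i` are constants, so `φ` of all `ratio Q i l = ratio Q i j / ratio Q l j` are constants,
and these generate `FunField Q` over `ℂ`; so `φ` maps `K` into `ℂ`: impossible as `φ` is injective and `K` contains a transcendental element (`hK.exists_tr`).
Facts on `coordFun`, `ratio`, `aeval`: `Pool/Agent/H92/GT/Proj*.lean`, `Pool/Agent/H17BP/TrdegLt.lean`, `Pool/Agent/H62/FC/`.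
-/

set_option autoImplicit false

open Topology Filter MvPolynomial
open Pool.Agent.H17 (PN VanishesAt ZariskiClosedIn HolomorphicInto puncturedDisc)
open Pool.Agent.H17GT (coordFun)
open Pool.Agent.H17LG.Variety (FunField OnBoundary IsLogGeneralType ratio)
open Pool.Agent.H62.FC (Homog)
open Pool.Agent.H17R (openVar)
open Pool.Agent.H62.SA (locVar OnBd)

noncomputable section

namespace Pool.Agent.H13.CV

variable {N : ℕ}

open Pool.Agent.H17 in
open Pool.Agent.H17.EntFun in
private lemma HomM_vanishes_mk {G : MvPolynomial (Fin (N + 1)) ℂ} {n : ℕ} (hG : G.IsHomogeneous n) {v : Fin (N + 1) → ℂ} (hv : v ≠ 0) :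
    VanishesAt G (Projectivization.mk ℂ v hv) ↔ eval v G = 0 := by
  obtain ⟨u, hu⟩ := Projectivization.exists_smul_eq_mk_rep ℂ v hv
  have h1 : eval (Projectivization.mk ℂ v hv).rep G = (u : ℂ) ^ n * eval v G := by
    rw [← hu]
    have h2 := Pool.Agent.H92.GT.Proj.aeval_scale (K := ℂ) hG (u : ℂ) v
    have h3 : ∀ w : Fin (N + 1) → ℂ, eval w G = aeval w G := fun w => rfl
    rw [h3, h3]
    exact h2
  unfold Pool.Agent.H17.VanishesAt
  rw [h1, mul_eq_zero]
  constructor
  · rintro (h | h)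
    · exact absurd h (pow_ne_zero _ u.ne_zero)
    · exact h
  · exact fun h => Or.inr h

private def HomM_val (P : Ideal (MvPolynomial (Fin (N + 1)) ℂ)) [P.IsPrime] :
    FunField P →ₐ[ℂ] FractionRing (MvPolynomial (Fin (N + 1)) ℂ ⧸ P) :=
  (Pool.Agent.H17GT.functionField P).val

open Pool.Agent.H17GT (functionField)

private lemma HomM_val_ratio (P : Ideal (MvPolynomial (Fin (N + 1)) ℂ)) [P.IsPrime] (i j : Fin (N + 1)) :
    HomM_val P (ratio P i j) = coordFun P i / coordFun P j := rfl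

private lemma HomM_val_injective (P : Ideal (MvPolynomial (Fin (N + 1)) ℂ)) [P.IsPrime] : Function.Injective (HomM_val P) :=
  (HomM_val P).injective

private lemma HomM_generate (P : Ideal (MvPolynomial (Fin (N + 1)) ℂ)) [P.IsPrime] :
    IntermediateField.adjoin ℂ {y : FunField P | ∃ i j, y = ratio P i j} = ⊤ := by
  have h : IntermediateField.adjoin ℂ {y : functionField P | ∃ i j, y = ratio P i j} = ⊤ := by
    rw [← IntermediateField.lift_inj, IntermediateField.lift_adjoin, IntermediateField.lift_top]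
    conv_rhs => rw [functionField]
    congr 1
    ext y
    constructor
    · rintro ⟨y', ⟨i, j, rfl⟩, rfl⟩
      exact ⟨i, j, rfl⟩
    · rintro ⟨i, j, rfl⟩
      exact ⟨ratio P i j, ⟨i, j, rfl⟩, rfl⟩
  exact h

private lemma HomM_ratio_div (P : Ideal (MvPolynomial (Fin (N + 1)) ℂ)) [P.IsPrime] {j : Fin (N + 1)} (hj : coordFun P j ≠ 0) (i l : Fin (N + 1)) :
    ratio P i l = ratio P i j / ratio P l j := by
  apply HomM_val_injective
  rw [map_div₀, HomM_val_ratio, HomM_val_ratio, HomM_val_ratio, div_div_div_cancel_right₀ hj]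

private lemma HomM_aeval_ratio (P : Ideal (MvPolynomial (Fin (N + 1)) ℂ)) [P.IsPrime] {G : MvPolynomial (Fin (N + 1)) ℂ} {n : ℕ} (hG : G.IsHomogeneous n)
    (hGP : G ∈ P) (j : Fin (N + 1)) : aeval (fun i => ratio P i j) G = 0 := by
  apply HomM_val_injective
  have h3 : HomM_val P (aeval (fun i => ratio P i j) G) = aeval (fun i => HomM_val P (ratio P i j)) G := by
    rw [← MvPolynomial.comp_aeval]
    rfl
  have h4 : (fun i => HomM_val P (ratio P i j)) = fun i => (coordFun P j)⁻¹ * coordFun P i := by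
    funext i
    rw [HomM_val_ratio, div_eq_inv_mul]
  rw [h3, h4, Pool.Agent.H92.GT.Proj.aeval_scale hG, (Pool.Agent.H92.GT.Proj.aeval_coordFun_eq_zero_iff P G).2 hGP, mul_zero, map_zero]

private lemma HomM_toM_aeval (c : Fin (N + 1) → Pool.Agent.H17.EntFun) (G : MvPolynomial (Fin (N + 1)) ℂ) : aeval (fun i => toM (c i)) G = toM (aeval c G) := by
  have h := MvPolynomial.aeval_algebraMap_apply (R := ℂ) (A := Pool.Agent.H17.EntFun) Mer c G
  exact h

private lemma HomM_ev_aeval (z : ℂ) (c : Fin (N + 1) → Pool.Agent.H17.EntFun) (G : MvPolynomial (Fin (N + 1)) ℂ) :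
    ((aeval c G : Pool.Agent.H17.EntFun) : ℂ → ℂ) z = eval (fun i => (c i : ℂ → ℂ) z) G := by
  have h1 : Pool.Agent.H17.EntFun.ev z (aeval c G) = eval₂ ((Pool.Agent.H17.EntFun.ev z).comp (algebraMap ℂ _)) (fun i => Pool.Agent.H17.EntFun.ev z (c i)) G := by
    rw [aeval_def]
    exact (MvPolynomial.hom_eval₂ G _ _ _)
  exact h1

theorem homMap0 (Q : Ideal (MvPolynomial (Fin (N + 1)) ℂ)) [Q.IsPrime] (hX : ∃ i, (X i : MvPolynomial (Fin (N + 1)) ℂ) ∉ Q)
    (hK : CurveField (FunField Q)) (φ : FunField Q →ₐ[ℂ] Mer) :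
    ∃ f : ℂ → PN N, HolomorphicInto f Set.univ ∧ (∀ z, ∀ R ∈ Q, ∀ n, R.IsHomogeneous n → VanishesAt R (f z)) ∧ (∃ z w, f z ≠ f w) ∧
      ∀ z₀ : ℂ, ∃ l, coordFun Q l ≠ 0 ∧ (∀ i, 0 ≤ ordM z₀ (φ (ratio Q i l))) ∧
        ∀ (R : MvPolynomial (Fin (N + 1)) ℂ) (d : ℕ), R.IsHomogeneous d → VanishesAt R (f z₀) → 0 < ordM z₀ (φ (aeval (fun i => ratio Q i l) R)) := by
  classical
  obtain ⟨j, hjX⟩ := hX
  have hj : coordFun Q j ≠ 0 := by
    intro h0
    apply hjX
    rw [← Pool.Agent.H92.GT.Proj.aeval_coordFun_eq_zero_iff, aeval_X]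
    exact h0
  have hrj : ratio Q j j = 1 := by
    apply HomM_val_injective
    rw [HomM_val_ratio, map_one, div_self hj]
  -- the common denominator
  obtain ⟨b', hb'⟩ := IsLocalization.exist_integer_multiples_of_finite (nonZeroDivisors Pool.Agent.H17.EntFun) (fun i : Fin (N + 1) => φ (ratio Q i j))
  have hb'0 : (b' : Pool.Agent.H17.EntFun) ≠ 0 := nonZeroDivisors.ne_zero b'.2
  have hinj : Function.Injective (algebraMap Pool.Agent.H17.EntFun Mer) := IsFractionRing.injective _ _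
  have htb : toM (b' : Pool.Agent.H17.EntFun) ≠ 0 := fun h => hb'0 (hinj (h.trans (map_zero _).symm))
  choose a ha using hb'
  have ha' : ∀ i, toM (a i) = toM (b' : Pool.Agent.H17.EntFun) * φ (ratio Q i j) := by
    intro i
    have h1 := ha i
    rw [Algebra.smul_def] at h1
    exact h1
  have haj : a j ≠ 0 := by
    intro h0
    have h1 := ha' j
    rw [h0, hrj, map_one, mul_one] at h1
    exact htb (h1.symm.trans (map_zero _))
  obtain ⟨f, hf, hfz⟩ := exists_map a ⟨j, haj⟩
  -- the coordinates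
  have key : ∀ (z₀ : ℂ) (k : ℕ) (c : Fin (N + 1) → Pool.Agent.H17.EntFun), (∀ i, a i = Pool.Agent.H17.EntFun.coord z₀ ^ k * c i) →
      ∃ s : Mer, s ≠ 0 ∧ ∀ i, φ (ratio Q i j) = s * toM (c i) := by
    intro z₀ k c hc
    refine ⟨toM (Pool.Agent.H17.EntFun.coord z₀ ^ k) / toM (b' : Pool.Agent.H17.EntFun), ?_, ?_⟩
    · refine div_ne_zero ?_ htb
      intro h0
      exact pow_ne_zero k (Pool.Agent.H17.EntFun.coord_ne_zero z₀) (hinj (h0.trans (map_zero _).symm))
    · intro i
      have h1 := ha' i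
      rw [hc i] at h1
      have h2 : toM (Pool.Agent.H17.EntFun.coord z₀ ^ k * c i) = toM (Pool.Agent.H17.EntFun.coord z₀ ^ k) * toM (c i) := map_mul _ _ _
      rw [h2] at h1
      rw [div_mul_eq_mul_div, h1, mul_div_cancel_left₀ _ htb]
  refine ⟨f, hf, ?_, ?_, ?_⟩
  · -- the map is into the closed subvariety
    intro z₀ G hGQ n hG
    obtain ⟨k, c, h, hc, hfc⟩ := hfz z₀
    obtain ⟨s, hs, hsc⟩ := key z₀ k c hc
    rw [hfc, HomM_vanishes_mk hG]
    have h1 := congrArg φ (HomM_aeval_ratio Q hG hGQ j)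
    rw [map_zero] at h1
    have h2 : φ (aeval (fun i => ratio Q i j) G) = aeval (fun i => φ (ratio Q i j)) G := by
      rw [← MvPolynomial.comp_aeval]
      rfl
    have h3 : (fun i => φ (ratio Q i j)) = fun i => s * toM (c i) := funext hsc
    rw [h2, h3, Pool.Agent.H92.GT.Proj.aeval_scale hG, HomM_toM_aeval] at h1
    have h4 : toM (aeval c G) = 0 := (mul_eq_zero.1 h1).resolve_left (pow_ne_zero _ hs)
    have h5 : aeval c G = 0 := hinj (h4.trans (map_zero _).symm)
    rw [← HomM_ev_aeval, h5]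
    rfl
  · -- the map is not constant
    by_contra hcon
    push Not at hcon
    obtain ⟨k, c, h, hc, hfc⟩ := hfz 0
    obtain ⟨l, hl⟩ := Function.ne_iff.1 h
    set v : Fin (N + 1) → ℂ := fun i => (c i : ℂ → ℂ) 0 with hv
    have hl' : v l ≠ 0 := hl
    have hprop : ∀ i, a i * algebraMap ℂ Pool.Agent.H17.EntFun (v l) = a l * algebraMap ℂ Pool.Agent.H17.EntFun (v i) := by
      intro i
      ext z
      obtain ⟨k', c', h', hc', hfc'⟩ := hfz z
      have h1 : Projectivization.mk ℂ (fun i => (c' i : ℂ → ℂ) z) h' = Projectivization.mk ℂ v h := by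
        rw [← hfc', ← hfc]
        exact hcon z 0
      rw [Projectivization.mk_eq_mk_iff'] at h1
      obtain ⟨u, hu⟩ := h1
      have h2 : ∀ i, (c' i : ℂ → ℂ) z = u * v i := fun i => (congrFun hu i).symm
      have h3 : ∀ i, (a i : ℂ → ℂ) z = (z - z) ^ k' * (u * v i) := by
        intro i
        rw [hc' i, ← h2 i]
        rfl
      change (a i : ℂ → ℂ) z * v l = (a l : ℂ → ℂ) z * v i
      rw [h3 i, h3 l]
      ring
    have hprop' : ∀ i, φ (ratio Q i j) * algebraMap ℂ Mer (v l) = φ (ratio Q l j) * algebraMap ℂ Mer (v i) := by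
      intro i
      have h1 := congrArg (algebraMap Pool.Agent.H17.EntFun Mer) (hprop i)
      rw [map_mul, map_mul] at h1
      have h2 := ha' i
      have h3 := ha' l
      have h4 : toM (b' : Pool.Agent.H17.EntFun) * (φ (ratio Q i j) * algebraMap ℂ Mer (v l)) =
          toM (b' : Pool.Agent.H17.EntFun) * (φ (ratio Q l j) * algebraMap ℂ Mer (v i)) := by
        rw [← mul_assoc, ← mul_assoc, ← h2, ← h3, algebraMap_eq, algebraMap_eq]
        exact h1
      exact mul_left_cancel₀ htb h4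
    have hpropK : ∀ i, ratio Q i j * algebraMap ℂ (FunField Q) (v l) = ratio Q l j * algebraMap ℂ (FunField Q) (v i) := by
      intro i
      have hφ : Function.Injective φ := φ.toRingHom.injective
      apply hφ
      have h1 := hprop' i
      rw [map_mul, map_mul, AlgHom.commutes, AlgHom.commutes]
      exact h1
    have hvl : algebraMap ℂ (FunField Q) (v l) ≠ 0 := by
      intro h0
      exact hl' ((algebraMap ℂ (FunField Q)).injective (h0.trans (map_zero _).symm))
    have hrl : ratio Q l j ≠ 0 := by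
      intro h0
      have h1 := hpropK j
      rw [h0, zero_mul, hrj, one_mul] at h1
      exact hvl h1
    have hrc : ∀ i, ratio Q i j / ratio Q l j = algebraMap ℂ (FunField Q) (v i / v l) := by
      intro i
      rw [map_div₀, div_eq_div_iff hrl hvl, mul_comm (algebraMap ℂ (FunField Q) (v i))]
      exact hpropK i
    have hbot : IntermediateField.adjoin ℂ {y : FunField Q | ∃ i j, y = ratio Q i j} = ⊥ := by
      rw [IntermediateField.adjoin_eq_bot_iff]
      rintro y ⟨i, i', rfl⟩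
      have h1 : ratio Q i i' = (ratio Q i j / ratio Q l j) / (ratio Q i' j / ratio Q l j) := by
        rw [div_div_div_cancel_right₀ hrl, ← HomM_ratio_div Q hj]
      rw [h1, hrc, hrc, ← map_div₀]
      exact IntermediateField.algebraMap_mem _ _
    obtain ⟨x, hx⟩ := hK.exists_tr
    apply hx
    have hx1 : x ∈ (⊥ : IntermediateField ℂ (FunField Q)) := by
      rw [← hbot, HomM_generate]
      exact IntermediateField.mem_top
    obtain ⟨t, ht⟩ := IntermediateField.mem_bot.1 hx1
    rw [← ht]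
    exact isAlgebraic_algebraMap t
  · -- the forms which vanish at a point
    intro z₀
    obtain ⟨k, c, h, hc, hfc⟩ := hfz z₀
    obtain ⟨s, hs, hsc⟩ := key z₀ k c hc
    obtain ⟨l, hl⟩ := Function.ne_iff.1 h
    have hl' : (c l : ℂ → ℂ) z₀ ≠ 0 := hl
    have hcl : toM (c l) ≠ 0 := by
      intro h0
      have h1 : c l = 0 := hinj (h0.trans (map_zero _).symm)
      rw [h1] at hl'
      exact hl' rfl
    have hrl : ratio Q l j ≠ 0 := by
      intro h0
      have h1 := hsc l
      rw [h0, map_zero] at h1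
      exact mul_ne_zero hs hcl h1.symm
    have hcfl : coordFun Q l ≠ 0 := by
      intro h0
      apply hrl
      apply HomM_val_injective
      rw [HomM_val_ratio, h0, zero_div, map_zero]
    have hordl : ordM z₀ (toM (c l)) = 0 := by
      apply le_antisymm
      · rw [← not_lt, ordM_toM_pos]
        exact hl'
      · exact ordM_toM_nonneg _ _
    have hrat : ∀ i, φ (ratio Q i l) * toM (c l) = toM (c i) := by
      intro i
      rw [HomM_ratio_div Q hj i l, map_div₀, hsc i, hsc l, mul_div_mul_left _ _ hs, div_mul_cancel₀ _ hcl]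
    refine ⟨l, hcfl, fun i => ?_, fun R d hd hR => ?_⟩
    · have h1 := congrArg (ordM z₀) (hrat i)
      rw [AddValuation.map_mul, hordl, add_zero] at h1
      rw [h1]
      exact ordM_toM_nonneg _ _
    · rw [hfc, HomM_vanishes_mk hd] at hR
      have h2 : φ (aeval (fun i => ratio Q i l) R) = aeval (fun i => φ (ratio Q i l)) R := by
        rw [← MvPolynomial.comp_aeval]
        rfl
      have h3 : toM (c l) ^ d * φ (aeval (fun i => ratio Q i l) R) = toM (aeval c R) := by
        rw [h2, ← Pool.Agent.H92.GT.Proj.aeval_scale hd, ← HomM_toM_aeval]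
        congr 2
        funext i
        rw [mul_comm]
        exact hrat i
      have h4 := congrArg (ordM z₀) h3
      rw [AddValuation.map_mul, AddValuation.map_pow, hordl, smul_zero, zero_add] at h4
      rw [h4, ordM_toM_pos, HomM_ev_aeval]
      exact hR

theorem nonneg_of_smul {e : ℕ} (he : 1 ≤ e) {a b : WithTop ℤ} (h : a = e • b) (ha : 0 ≤ a) : 0 ≤ b := by
  by_contra hcon
  push Not at hcon
  have hb : b ≠ ⊤ := ne_top_of_lt hcon
  obtain ⟨n, rfl⟩ := WithTop.ne_top_iff_exists.mp hb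
  have h1 : n < 0 := by exact_mod_cast hcon
  rw [h, ← WithTop.coe_nsmul] at ha
  have h2 : (0 : ℤ) ≤ e • n := by exact_mod_cast ha
  rw [nsmul_eq_mul] at h2
  have h3 : (1 : ℤ) ≤ e := by exact_mod_cast he
  nlinarith

theorem pos_of_smul {e : ℕ} {a b : WithTop ℤ} (h : a = e • b) (ha : 0 < a) : 0 < b := by
  by_contra hcon
  push Not at hcon
  have h1 : e • b ≤ e • (0 : WithTop ℤ) := nsmul_le_nsmul_right hcon e
  rw [smul_zero, ← h] at h1
  exact absurd ha (not_lt.mpr h1)

theorem homMap (Q : Ideal (MvPolynomial (Fin (N + 1)) ℂ)) [Q.IsPrime] (hQ : Homog Q) (hX : ∃ i, (X i : MvPolynomial (Fin (N + 1)) ℂ) ∉ Q) (hK : CurveField (FunField Q))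
    {b : ℕ} {H : Fin b → MvPolynomial (Fin (N + 1)) ℂ} (hH : ∀ m, ∃ d, (H m).IsHomogeneous d) (φ : FunField Q →ₐ[ℂ] Mer)
    (hB : ∀ (z₀ : ℂ) (E : Place (FunField Q)) (e : ℕ), 1 ≤ e → (∀ g, ordM z₀ (φ g) = e • E.ord g) → ¬ OnBoundary Q H E) :
    ∃ f : ℂ → PN N, HolomorphicInto f Set.univ ∧ (∀ z, f z ∈ openVar Q H) ∧ ∃ z w, f z ≠ f w := by
  have _ := hQ
  obtain ⟨f, hf, hfQ, hne, hz⟩ := homMap0 Q hX hK φ
  refine ⟨f, hf, fun z₀ => ⟨hfQ z₀, fun m hm => ?_⟩, hne⟩
  obtain ⟨E, e, he, hE⟩ := exists_placeM hK φ z₀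
  obtain ⟨l, hl, hreg, hR⟩ := hz z₀
  obtain ⟨d, hd⟩ := hH m
  exact hB z₀ E e he hE ⟨l, hl, fun i => nonneg_of_smul he (hE _) (hreg i), m, pos_of_smul (hE _) (hR _ d hd hm)⟩

theorem homMapL (Q : Ideal (MvPolynomial (Fin (N + 1)) ℂ)) [Q.IsPrime] (hX : ∃ i, (X i : MvPolynomial (Fin (N + 1)) ℂ) ∉ Q) (hK : CurveField (FunField Q))
    {s : ℕ} {G : Fin s → MvPolynomial (Fin (N + 1)) ℂ} (hG : ∀ m, ∃ d, (G m).IsHomogeneous d) (φ : FunField Q →ₐ[ℂ] Mer)
    (hB : ∀ (z₀ : ℂ) (E : Place (FunField Q)) (e : ℕ), 1 ≤ e → (∀ g, ordM z₀ (φ g) = e • E.ord g) → ¬ OnBd Q G E) :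
    ∃ f : ℂ → PN N, HolomorphicInto f Set.univ ∧ (∀ z, f z ∈ locVar Q G) ∧ ∃ z w, f z ≠ f w := by
  obtain ⟨f, hf, hfQ, hne, hz⟩ := homMap0 Q hX hK φ
  refine ⟨f, hf, fun z₀ => ⟨hfQ z₀, ?_⟩, hne⟩
  by_contra hcon
  push Not at hcon
  obtain ⟨E, e, he, hE⟩ := exists_placeM hK φ z₀
  obtain ⟨l, hl, hreg, hR⟩ := hz z₀
  refine hB z₀ E e he hE ⟨l, hl, fun i => nonneg_of_smul he (hE _) (hreg i), fun m => ?_⟩
  obtain ⟨d, hd⟩ := hG m
  exact pos_of_smul (hE _) (hR _ d hd (hcon m))

end Pool.Agent.H13.CV
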