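import Pool.Agent.H13.CV.MerO
import Pool.Agent.H13.CV.Defs

/-!
# CV HomR: homomorphisms into the field of meromorphic functions

`hom_rat`: `K = ℂ(t)`: the elements of `K` are the quotients `p (t) / q (t)`; `IsFractionRing` / `RatFunc.algEquivOfTranscendental` (see `Place_rat` in `Pool/Agent/H62/FC/Place.lean` for the base field `L = ⊥`),
or `IntermediateField.adjoin` of a transcendental element: `Polynomial ℂ → Mer`, `X ↦ T` is injective, lift it to the fraction field.
`hom_cubic`: `K = ℂ(u)(v)`, `L = ℂ(u)`.  First `φ₀ : L →ₐ[ℂ] Mer` with `φ₀ u = U`.  `1, v` is a basis of `K` over `L`: every element is uniquely `a + b v` (`v² ∈ L`, `v ∉ L`, `K = L(v)`).  Define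
`φ (a + b v) = φ₀ a + φ₀ b * V`; or: `IntermediateField.algHomAdjoinIntegralEquiv` / `AdjoinRoot` for the minimal polynomial `X² - (4 u³ - α u - β)` of `v` over `L`, with `Mer` as an `L`-algebra via `φ₀`.
-/

set_option autoImplicit false

open Topology Filter
open Pool.Agent.H17 Pool.Agent.H17.EntFun

noncomputable section

namespace Pool.Agent.H13.CV

variable {K : Type} [Field K] [Algebra ℂ K]

private theorem hom_rat0 {t : K} (htr : Transcendental ℂ t) {M : Type} [Field M] [Algebra ℂ M] {T : M} (hT : Transcendental ℂ T) :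
    ∃ φ : IntermediateField.adjoin ℂ {t} →ₐ[ℂ] M, φ ⟨t, IntermediateField.mem_adjoin_simple_self ℂ t⟩ = T := by
  refine ⟨((IntermediateField.adjoin ℂ {T}).val.comp (RatFunc.algEquivOfTranscendental T hT).toAlgHom).comp
    (RatFunc.algEquivOfTranscendental t htr).symm.toAlgHom, ?_⟩
  have h1 : (RatFunc.algEquivOfTranscendental t htr).symm ⟨t, IntermediateField.mem_adjoin_simple_self ℂ t⟩ = RatFunc.X := by
    rw [AlgEquiv.symm_apply_eq]
    apply Subtype.ext
    simp
  have h2 : ((RatFunc.algEquivOfTranscendental T hT) RatFunc.X : M) = T := by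
    simp
  show ((RatFunc.algEquivOfTranscendental T hT) ((RatFunc.algEquivOfTranscendental t htr).symm
    ⟨t, IntermediateField.mem_adjoin_simple_self ℂ t⟩) : M) = T
  rw [h1, h2]

theorem hom_rat {t : K} (ht : IntermediateField.adjoin ℂ {t} = ⊤) (htr : Transcendental ℂ t) {T : Mer} (hT : Transcendental ℂ T) :
    ∃ φ : K →ₐ[ℂ] Mer, φ t = T := by
  obtain ⟨φ, hφ⟩ := hom_rat0 htr hT
  refine ⟨(φ.comp (IntermediateField.equivOfEq ht.symm).toAlgHom).comp IntermediateField.topEquiv.symm.toAlgHom, ?_⟩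
  rw [← hφ]
  rfl

theorem hom_cubic {u v : K} {α β : ℂ} (h : v ^ 2 = 4 * u ^ 3 - algebraMap ℂ K α * u - algebraMap ℂ K β) (hu : Transcendental ℂ u)
    (huv : IntermediateField.adjoin ℂ {u, v} = ⊤) (hvu : v ∉ IntermediateField.adjoin ℂ {u}) {U V : Mer} (hU : Transcendental ℂ U)
    (hUV : V ^ 2 = 4 * U ^ 3 - algebraMap ℂ Mer α * U - algebraMap ℂ Mer β) : ∃ φ : K →ₐ[ℂ] Mer, φ u = U ∧ φ v = V := by
  classical
  obtain ⟨L, hL⟩ : ∃ L : IntermediateField ℂ K, L = IntermediateField.adjoin ℂ {u} := ⟨_, rfl⟩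
  have huL : u ∈ L := by
    rw [hL]
    exact IntermediateField.mem_adjoin_simple_self ℂ u
  rw [← hL] at hvu
  obtain ⟨u₀, hu₀⟩ : ∃ u₀ : L, u₀ = ⟨u, huL⟩ := ⟨_, rfl⟩
  obtain ⟨φ₀, h₀⟩ : ∃ φ₀ : L →ₐ[ℂ] Mer, φ₀ u₀ = U := by
    subst hu₀
    subst hL
    exact hom_rat0 hu hU
  letI : Algebra L Mer := φ₀.toRingHom.toAlgebra
  haveI : IsScalarTower ℂ L Mer := IsScalarTower.of_algebraMap_eq' φ₀.comp_algebraMap.symm
  have halg : ∀ a : L, algebraMap L Mer a = φ₀ a := fun a => rfl
  let c : L := 4 * u₀ ^ 3 - algebraMap ℂ L α * u₀ - algebraMap ℂ L β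
  have hc : algebraMap L K c = v ^ 2 := by
    rw [h]
    simp only [c, map_sub, map_mul, map_pow, map_ofNat, ← IsScalarTower.algebraMap_apply]
    rw [hu₀]
    rfl
  have hv : Polynomial.aeval v (Polynomial.X ^ 2 - Polynomial.C c) = 0 := by
    simp [hc]
  have hmon : (Polynomial.X ^ 2 - Polynomial.C c : Polynomial L).Monic := Polynomial.monic_X_pow_sub_C c two_ne_zero
  have hint : IsIntegral L v := ⟨_, hmon, hv⟩
  have hmin : minpoly L v = Polynomial.X ^ 2 - Polynomial.C c := by
    have h1 : minpoly L v ∣ Polynomial.X ^ 2 - Polynomial.C c := minpoly.dvd L v hv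
    have h2 : 2 ≤ (minpoly L v).natDegree := by
      rw [minpoly.two_le_natDegree_iff hint]
      rintro ⟨a, ha⟩
      apply hvu
      rw [← ha]
      exact a.2
    refine (Polynomial.eq_of_monic_of_dvd_of_natDegree_le (minpoly.monic hint) hmon h1 ?_).symm
    rw [Polynomial.natDegree_X_pow_sub_C]
    exact h2
  have htop : IntermediateField.adjoin L {v} = ⊤ := by
    apply IntermediateField.restrictScalars_injective ℂ
    rw [IntermediateField.restrictScalars_top, hL, IntermediateField.adjoin_adjoin_left, ← huv]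
    congr 1
  have hroot : Polynomial.aeval V (minpoly L (IntermediateField.adjoin.powerBasis hint).gen) = 0 := by
    rw [IntermediateField.adjoin.powerBasis_gen, IntermediateField.minpoly_gen, hmin]
    simp only [map_sub, map_pow, Polynomial.aeval_X, Polynomial.aeval_C, halg, c, map_mul, map_ofNat]
    rw [h₀, hUV, φ₀.commutes, φ₀.commutes]
    ring
  let ψ : IntermediateField.adjoin L {v} →ₐ[L] Mer := (IntermediateField.adjoin.powerBasis hint).lift V hroot
  have hψ : ψ (IntermediateField.AdjoinSimple.gen L v) = V := by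
    have := (IntermediateField.adjoin.powerBasis hint).lift_gen V hroot
    rwa [IntermediateField.adjoin.powerBasis_gen] at this
  let e : K →ₐ[L] IntermediateField.adjoin L {v} :=
    (IntermediateField.equivOfEq htop.symm).toAlgHom.comp IntermediateField.topEquiv.symm.toAlgHom
  refine ⟨(ψ.comp e).restrictScalars ℂ, ?_, ?_⟩
  · have h1 : (ψ.comp e) (algebraMap L K u₀) = algebraMap L Mer u₀ := AlgHom.commutes _ _
    rw [halg, h₀, hu₀] at h1
    exact h1
  · exact hψ

end Pool.Agent.H13.CV
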