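import Pool.Agent.H13.CV.Loc

/-!
# CV Idem: idempotents modulo `x` with trace zero

`matrix_idem`: for a complex matrix with `M * M = M` the trace is the rank (`LinearMap.IsIdempotentElem`, `LinearMap.IsProj.trace`, or diagonalise), so if it is `0` then `M = 0`.

`trace_idem`: `M i j = w.repr (u * w j) i`; these are in `L` and `RegLoc x` (`LocB`, `basis_regLoc`).  `Algebra.trace L K u = ∑ i, M i i` (`Algebra.trace_eq_matrix_trace w`, `Algebra.leftMulMatrix_eq_repr_mul`).
Let `E` be a place over `x = 0` (`exists_place_over`) and `M̄ i j = res E (M i j)`.  `M * M - M` is the matrix of the multiplication by `u² - u`: its entries are the coordinates of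
`(u² - u) * w j = x * (RegLoc)`, so they are `x` times a `RegLoc` element, and `res E` of them is `0`.  So `M̄ * M̄ = M̄` (`res_add`, `res_mul`, `res_sum`).  The trace of `M̄` is `res E` of
`Algebra.trace L K u`, which is `0`.  So `M̄ = 0`: all `M i j` have positive order at `E`, so `RegLoc x (M i j / x)` (`regLoc_div_of_pos`), so `RegLoc x (u * w j / x)` for all `j`.  With
`1 = ∑ r j * w j`, `RegLoc x (r j)` (`LocB`): `u / x = ∑ r j * (u * w j / x)`.
-/

set_option autoImplicit false

open Pool.Agent.H23.Fano (PrimeDivisorOver Form regularForms)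

noncomputable section

namespace Pool.Agent.H13.CV

theorem matrix_idem {n : ℕ} (M : Matrix (Fin n) (Fin n) ℂ) (hM : M * M = M) (ht : M.trace = 0) : M = 0 := by
  have he : IsIdempotentElem (Matrix.toLin' M) := by
    show Matrix.toLin' M * Matrix.toLin' M = Matrix.toLin' M
    have : Matrix.toLin' (M * M) = Matrix.toLin' M * Matrix.toLin' M := Matrix.toLin'_mul M M
    rw [← this, hM]
  have htr : LinearMap.trace ℂ (Fin n → ℂ) (Matrix.toLin' M) = 0 := by
    rw [Matrix.trace_toLin'_eq, ht]
  have h0 := (LinearMap.IsIdempotentElem.trace_eq_zero_iff he).mp htr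
  exact (LinearEquiv.map_eq_zero_iff Matrix.toLin').mp h0

variable {K : Type} [Field K] [Algebra ℂ K] {L : IntermediateField ℂ K} {x : K} {n : ℕ}

private theorem regLoc_mul {f g : K} (hf : RegLoc x f) (hg : RegLoc x g) : RegLoc x (f * g) :=
  fun E hE => nonneg_mul (hf E hE) (hg E hE)

private theorem regLoc_sum {ι : Type*} {s : Finset ι} {F : ι → K} (h : ∀ i ∈ s, RegLoc x (F i)) :
    RegLoc x (∑ i ∈ s, F i) :=
  fun E hE => nonneg_sum fun i hi => h i hi E hE

private theorem regLoc_one : RegLoc x (1 : K) := fun E _ => by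
  rw [E.ord.map_one]

private theorem repr_L_mul (w : Module.Basis (Fin n) L K) {c : K} (hc : c ∈ L) (f : K) (i : Fin n) :
    ((w.repr (c * f) i : L) : K) = c * ((w.repr f i : L) : K) := by
  have h1 : c * f = (⟨c, hc⟩ : L) • f := by
    rw [Algebra.smul_def]
    rfl
  rw [h1, map_smul]
  simp

private theorem sum_repr_coe (w : Module.Basis (Fin n) L K) (f : K) :
    f = ∑ i, ((w.repr f i : L) : K) * w i := by
  conv_lhs => rw [← w.sum_repr f]
  refine Finset.sum_congr rfl fun i _ => ?_
  rw [Algebra.smul_def]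
  rfl

theorem trace_idem (hK : CurveField K) (hL : Gen L x) [FiniteDimensional L K] {w : Module.Basis (Fin n) L K} (hw : LocB x w) {u : K} (hu : RegLoc x u)
    (hu2 : RegLoc x ((u ^ 2 - u) / x)) (htr : RegLoc x (((Algebra.trace L K u : L) : K) / x)) : RegLoc x (u / x) := by
  have hx0 : x ≠ 0 := hL.ne_zero
  have hxL : x ∈ L := hL.mem
  obtain ⟨E, hE⟩ := exists_place_over hK hL.tr
  -- the matrix
  set M : Fin n → Fin n → K := fun i j => ((w.repr (u * w j) i : L) : K) with hMdef
  have hMreg : ∀ i j, RegLoc x (M i j) := fun i j =>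
    (hw (u * w j)).mp (regLoc_mul hu (hw.basis_regLoc j)) i
  have hML : ∀ i j, M i j ∈ L := fun i j => (w.repr (u * w j) i).2
  -- the product
  have hMM : ∀ i j, ((w.repr (u ^ 2 * w j) i : L) : K) = ∑ k, M i k * M k j := by
    intro i j
    have h1 : u ^ 2 * w j = ∑ k, M k j * (u * w k) := by
      have h2 : u * w j = ∑ k, M k j * w k := sum_repr_coe w (u * w j)
      calc u ^ 2 * w j = u * (u * w j) := by ring
        _ = u * ∑ k, M k j * w k := by rw [← h2]
        _ = _ := by
          rw [Finset.mul_sum]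
          exact Finset.sum_congr rfl fun k _ => by ring
    rw [h1, map_sum, Finset.sum_apply', AddSubmonoidClass.coe_finsetSum]
    refine Finset.sum_congr rfl fun k _ => ?_
    rw [repr_L_mul w (hML k j), mul_comm]
  -- the difference
  have hdiff : ∀ i j, ∃ R : K, RegLoc x R ∧ (∑ k, M i k * M k j) = M i j + x * R := by
    intro i j
    refine ⟨((w.repr (((u ^ 2 - u) / x) * w j) i : L) : K),
      (hw _).mp (regLoc_mul hu2 (hw.basis_regLoc j)) i, ?_⟩
    rw [← repr_L_mul w hxL, ← hMM]
    have h3 : x * ((u ^ 2 - u) / x * w j) = u ^ 2 * w j - u * w j := by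
      field_simp
    rw [h3, map_sub]
    simp [hMdef]
  -- the residue matrix
  set N : Matrix (Fin n) (Fin n) ℂ := fun i j => res E (M i j) with hNdef
  have hnn : ∀ i j, 0 ≤ E.ord (M i j) := fun i j => hMreg i j E hE
  have hNN : N * N = N := by
    ext i j
    rw [Matrix.mul_apply]
    obtain ⟨R, hR, hR2⟩ := hdiff i j
    have hxR : 0 < E.ord (x * R) := pos_mul hE (hR E hE)
    have h4 : res E (∑ k, M i k * M k j) = ∑ k, N i k * N k j := by
      rw [res_sum hK (fun k _ => nonneg_mul (hnn i k) (hnn k j))]
      exact Finset.sum_congr rfl fun k _ => res_mul hK (hnn i k) (hnn k j)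
    have h5 : res E (M i j + x * R) = N i j := by
      rw [res_add hK (hnn i j) hxR.le, (res_eq_zero_iff hK hxR.le).mpr hxR, add_zero]
    rw [← h4, hR2, h5]
  have hNtr : N.trace = 0 := by
    have h6 : ((Algebra.trace L K u : L) : K) = ∑ i, M i i := by
      rw [Algebra.trace_eq_matrix_trace w, Matrix.trace, AddSubmonoidClass.coe_finsetSum]
      refine Finset.sum_congr rfl fun i _ => ?_
      rw [Matrix.diag_apply, Algebra.leftMulMatrix_eq_repr_mul]
    have h7 : 0 < E.ord ((Algebra.trace L K u : L) : K) := by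
      have h8 : ((Algebra.trace L K u : L) : K) = x * (((Algebra.trace L K u : L) : K) / x) := by
        field_simp
      rw [h8]
      exact pos_mul hE (htr E hE)
    have h9 : N.trace = res E (∑ i, M i i) := by
      rw [res_sum hK (fun i _ => hnn i i)]
      rfl
    rw [h9, ← h6]
    exact (res_eq_zero_iff hK h7.le).mpr h7
  have hN0 : N = 0 := matrix_idem N hNN hNtr
  have hMx : ∀ i j, RegLoc x (M i j / x) := by
    intro i j
    refine regLoc_div_of_pos hL (hML i j) hE ?_
    refine (res_eq_zero_iff hK (hnn i j)).mp ?_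
    have : N i j = 0 := by rw [hN0]; rfl
    exact this
  have huw : ∀ j, RegLoc x (u * w j / x) := by
    intro j
    refine (hw _).mpr fun i => ?_
    have h10 : u * w j / x = x⁻¹ * (u * w j) := by field_simp
    rw [h10, repr_L_mul w (inv_mem hxL)]
    have h11 : x⁻¹ * ((w.repr (u * w j) i : L) : K) = M i j / x := by
      rw [div_eq_mul_inv, mul_comm]
    rw [h11]
    exact hMx i j
  have h1 : u / x = ∑ j, ((w.repr (1 : K) j : L) : K) * (u * w j / x) := by
    have h2 : (1 : K) = ∑ j, ((w.repr (1 : K) j : L) : K) * w j := sum_repr_coe w 1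
    calc u / x = u / x * 1 := by ring
      _ = u / x * ∑ j, ((w.repr (1 : K) j : L) : K) * w j := by rw [← h2]
      _ = _ := by
        rw [Finset.mul_sum]
        exact Finset.sum_congr rfl fun j _ => by ring
  rw [h1]
  exact regLoc_sum fun j _ => regLoc_mul ((hw 1).mp regLoc_one j) (huw j)

end Pool.Agent.H13.CV
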