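import Pool.Agent.H13.CV.FinPl
import Pool.Agent.H13.CV.NoPole

/-!
# CV Loc: bases over the local ring

`AffB.sub_const`: `0 ≤ ord (x - a) ↔ 0 ≤ ord x` and `Algebra.adjoin ℂ {x - a} = Algebra.adjoin ℂ {x}`.
`AffB.locB`: (⇐) `w i` is `RegAff x` (its coordinates are `0` and `1`), so `RegLoc x`; `f = ∑ (w.repr f i) * w i`.  (⇒) Let `RegLoc x f`.  The places with `0 ≤ ord x`, `ord f < 0` are finitely many
(`finite_poles`), say `E₁, …, E_k`; the value `a_j` of `x` at `E_j` (`exists_value`) is not `0` (otherwise `0 < ord x` and `f` is regular).  Let `q = ∏ (X - a_j) ^ m` with `m ≥ - oz E_j f` for all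
`j`; `q.eval 0 ≠ 0`, and `q (x) * f` is `RegAff x` (at `E_j` the factor `(x - a_j) ^ m` has order `≥ m`, the other factors are regular).  So its coordinates `q (x) * (w.repr f i)` are
in `ℂ[x]`, and `w.repr f i = p_i (x) / q (x)` is `RegLoc x` (`regLoc_div`).
-/

set_option autoImplicit false

open Pool.Agent.H23.Fano (PrimeDivisorOver Form regularForms)

noncomputable section

namespace Pool.Agent.H13.CV

variable {K : Type} [Field K] [Algebra ℂ K] {L : IntermediateField ℂ K} {x : K} {n : ℕ}

theorem RegAff.regLoc {f : K} (h : RegAff x f) : RegLoc x f := fun E hE => h E hE.le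

theorem loc_repr (w : Module.Basis (Fin n) L K) (i j : Fin n) : (w.repr (w i) j : L) = 0 ∨ (w.repr (w i) j : L) = 1 := by
  classical
  rw [w.repr_self, Finsupp.single_apply]
  split_ifs
  · exact Or.inr rfl
  · exact Or.inl rfl

theorem AffB.basis_regAff {w : Module.Basis (Fin n) L K} (hw : AffB x w) (i : Fin n) : RegAff x (w i) := by
  refine (hw (w i)).2 fun j => ?_
  rcases loc_repr w i j with h | h
  · rw [h]
    exact zero_mem _
  · rw [h]
    exact one_mem _

theorem AffB.sub_const (hL : Gen L x) {w : Module.Basis (Fin n) L K} (hw : AffB x w) (a : ℂ) : AffB (x - algebraMap ℂ K a) w := by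
  have h1 : Algebra.adjoin ℂ {x - algebraMap ℂ K a} = Algebra.adjoin ℂ {x} := by
    apply le_antisymm
    · rw [Algebra.adjoin_le_iff, Set.singleton_subset_iff]
      exact sub_mem (Algebra.self_mem_adjoin_singleton ℂ x) (Subalgebra.algebraMap_mem _ a)
    · rw [Algebra.adjoin_le_iff, Set.singleton_subset_iff]
      have h2 : x - algebraMap ℂ K a + algebraMap ℂ K a ∈ Algebra.adjoin ℂ {x - algebraMap ℂ K a} :=
        add_mem (Algebra.self_mem_adjoin_singleton ℂ _) (Subalgebra.algebraMap_mem _ a)
      rw [sub_add_cancel] at h2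
      exact h2
  have h3 : ∀ E : Place K, 0 ≤ E.ord (x - algebraMap ℂ K a) ↔ 0 ≤ E.ord x := by
    intro E
    constructor
    · intro h
      have h4 := nonneg_add h (const_nonneg E a)
      rw [sub_add_cancel] at h4
      exact h4
    · exact fun h => nonneg_sub h (const_nonneg E a)
  intro f
  rw [h1, ← hw f]
  unfold RegAff
  simp only [h3]

theorem AffB.locB (hK : CurveField K) (hL : Gen L x) {w : Module.Basis (Fin n) L K} (hw : AffB x w) : LocB x w := by
  classical
  intro f
  constructor
  · intro hf i
    have hfin := finite_poles hK f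
    set T : Finset (Place K) := hfin.toFinset.filter (fun E => 0 ≤ E.ord x) with hT
    have hTm : ∀ E : Place K, E ∈ T ↔ E.ord f < 0 ∧ 0 ≤ E.ord x := by
      intro E
      rw [hT, Finset.mem_filter, Set.Finite.mem_toFinset, Set.mem_ofPred_eq]
    have hne : ∀ E ∈ T, res E x ≠ 0 := by
      intro E hE h0
      obtain ⟨h1, h2⟩ := (hTm E).1 hE
      have h3 := res_spec hK h2
      rw [h0, map_zero, sub_zero] at h3
      exact absurd (hf E h3) (not_le.mpr h1)
    set m : ℕ := ∑ E ∈ T, (-oz E f).toNat with hm
    have hmE : ∀ E ∈ T, 0 ≤ (m : ℤ) + oz E f := by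
      intro E hE
      have h1 : (-oz E f).toNat ≤ m := Finset.single_le_sum (f := fun E => (-oz E f).toNat) (fun _ _ => Nat.zero_le _) hE
      have h2 : -oz E f ≤ ((-oz E f).toNat : ℤ) := Int.self_le_toNat _
      have h3 : ((-oz E f).toNat : ℤ) ≤ m := by exact_mod_cast h1
      linarith
    set q : Polynomial ℂ := ∏ E ∈ T, (Polynomial.X - Polynomial.C (res E x)) ^ m with hq
    have hq0 : q.eval 0 ≠ 0 := by
      rw [hq, Polynomial.eval_prod]
      refine Finset.prod_ne_zero_iff.2 fun E hE => ?_
      rw [Polynomial.eval_pow, Polynomial.eval_sub, Polynomial.eval_X, Polynomial.eval_C, zero_sub]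
      exact pow_ne_zero _ (neg_ne_zero.2 (hne E hE))
    have hqne : q ≠ 0 := by
      intro h
      rw [h, Polynomial.eval_zero] at hq0
      exact hq0 rfl
    have hqx : Polynomial.aeval x q ≠ 0 := by
      intro h
      exact hL.tr ⟨q, hqne, h⟩
    have hreg : RegAff x (Polynomial.aeval x q * f) := by
      intro E hE
      by_cases hfE : 0 ≤ E.ord f
      · exact nonneg_mul (nonneg_aeval hE q) hfE
      · rw [not_le] at hfE
        have hET : E ∈ T := (hTm E).2 ⟨hfE, hE⟩
        have h1 : q = (Polynomial.X - Polynomial.C (res E x)) ^ m *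
            ∏ E' ∈ T.erase E, (Polynomial.X - Polynomial.C (res E' x)) ^ m := by
          rw [hq]
          exact (Finset.mul_prod_erase T (fun E' => (Polynomial.X - Polynomial.C (res E' x)) ^ m) hET).symm
        have h2 : Polynomial.aeval x q * f =
            Polynomial.aeval x (∏ E' ∈ T.erase E, (Polynomial.X - Polynomial.C (res E' x)) ^ m) *
              ((x - algebraMap ℂ K (res E x)) ^ m * f) := by
          rw [h1, map_mul, map_pow, map_sub, Polynomial.aeval_X, Polynomial.aeval_C]
          ring
        rw [h2]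
        refine nonneg_mul (nonneg_aeval hE _) ?_
        have hf0 : f ≠ 0 := by
          rintro rfl
          rw [E.ord.map_zero] at hfE
          exact absurd hfE not_top_lt
        have hx0 : x - algebraMap ℂ K (res E x) ≠ 0 := by
          intro h
          refine hL.tr ⟨Polynomial.X - Polynomial.C (res E x), Polynomial.X_sub_C_ne_zero _, ?_⟩
          rw [map_sub, Polynomial.aeval_X, Polynomial.aeval_C]
          exact h
        have h3 : 1 ≤ oz E (x - algebraMap ℂ K (res E x)) := by
          rcases pos_iff.1 (res_spec hK hE) with h4 | h4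
          · exact absurd h4 hx0
          · omega
        refine nonneg_iff.2 (Or.inr ?_)
        rw [oz_mul E (pow_ne_zero _ hx0) hf0, oz_pow]
        have h5 := hmE E hET
        nlinarith
    have hmem := (hw _).1 hreg i
    have hqL : Polynomial.aeval x q ∈ L := poly_le_L hL (mem_poly_iff.2 ⟨q, rfl⟩)
    have h6 : Polynomial.aeval x q * f = (⟨Polynomial.aeval x q, hqL⟩ : L) • f := rfl
    rw [h6, map_smul, Finsupp.smul_apply, smul_eq_mul] at hmem
    obtain ⟨p, hp⟩ := mem_poly_iff.1 hmem
    have h7 : (((⟨Polynomial.aeval x q, hqL⟩ : L) * w.repr f i : L) : K) = Polynomial.aeval x q * ((w.repr f i : L) : K) := rfl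
    rw [h7] at hp
    have h8 : ((w.repr f i : L) : K) = Polynomial.aeval x p / Polynomial.aeval x q := by
      rw [eq_div_iff hqx, mul_comm]
      exact hp
    rw [h8]
    exact regLoc_div hq0
  · intro h E hE
    have h1 : f = ∑ i, ((w.repr f i : L) : K) * w i := by
      conv_lhs => rw [← w.sum_repr f]
      exact Finset.sum_congr rfl fun i _ => rfl
    rw [h1]
    exact nonneg_sum fun i _ => nonneg_mul (h i E hE) (hw.basis_regAff i E hE.le)

theorem exists_locB (hK : CurveField K) (hL : Gen L x) [FiniteDimensional L K] :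
    ∃ w : Module.Basis (Fin (Module.finrank L K)) L K, LocB x w := by
  obtain ⟨w, hw⟩ := exists_affB hL
  exact ⟨w, hw.locB hK hL⟩

theorem LocB.basis_regLoc {w : Module.Basis (Fin n) L K} (hw : LocB x w) (i : Fin n) : RegLoc x (w i) := by
  refine (hw (w i)).2 fun j E _ => ?_
  rcases loc_repr w i j with h | h
  · rw [h]
    have h1 := E.ord.map_zero
    show 0 ≤ E.ord ((0 : L) : K)
    rw [ZeroMemClass.coe_zero, h1]
    exact le_top
  · rw [h]
    show 0 ≤ E.ord ((1 : L) : K)
    rw [OneMemClass.coe_one, E.ord.map_one]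

end Pool.Agent.H13.CV
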