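import Pool.Agent.H17.EntireRing
import Mathlib

/-!
# CV MerO: the field of meromorphic functions, as the fraction field of the ring of entire functions

`ofn z₀ f` is the order at `z₀` of `f`; it is defined with the chosen representation `f = a / b` (`IsLocalization.sec`), `ofn_div` says that it does not depend on the representation: if `a / b = a' / b'` then
`a b' = a' b` as entire functions, so the meromorphic functions `a / b`, `a' / b'` agree outside the zeros of `b b'` (isolated), so their orders are the same (`meromorphicOrderAt_congr`).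
The other lemmas: `meromorphicOrderAt_mul`, `meromorphicOrderAt_add` (`min ≤`), for functions `a / b`.  `ofn z₀ f = ⊤ ↔ f = 0`.
`tr_or_const`: `ℂ` is algebraically closed.
-/

set_option autoImplicit false

open Topology Filter
open Pool.Agent.H17 Pool.Agent.H17.EntFun

noncomputable section

namespace Pool.Agent.H13.CV

/-- the field of meromorphic functions on `ℂ` -/
abbrev Mer : Type := FractionRing EntFun

/-- entire functions as meromorphic functions -/
abbrev toM (a : EntFun) : Mer := algebraMap EntFun Mer a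

/-- the order at `z₀` -/
def ofn (z₀ : ℂ) (f : Mer) : WithTop ℤ :=
  meromorphicOrderAt (fun z => ((IsLocalization.sec (nonZeroDivisors EntFun) f).1 : ℂ → ℂ) z / (((IsLocalization.sec (nonZeroDivisors EntFun) f).2 : EntFun) : ℂ → ℂ) z) z₀

/-- the function `z ↦ a z / b z` -/
private def qf (a b : EntFun) : ℂ → ℂ := fun z => (a : ℂ → ℂ) z / (b : ℂ → ℂ) z

private lemma qf_mero (z₀ : ℂ) (a b : EntFun) : MeromorphicAt (qf a b) z₀ :=
  (a.analyticAt z₀).meromorphicAt.fun_div (b.analyticAt z₀).meromorphicAt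

private lemma ev_ne (z₀ : ℂ) {b : EntFun} (hb : b ≠ 0) : ∀ᶠ z in 𝓝[≠] z₀, (b : ℂ → ℂ) z ≠ 0 :=
  eventually_ne_zero_of_entire b.2 ((ne_zero_iff b).mp hb) z₀

private lemma toM_inj : Function.Injective toM := IsFractionRing.injective EntFun Mer

private lemma toM_ne {b : EntFun} (hb : b ≠ 0) : toM b ≠ 0 := by
  intro h
  exact hb (toM_inj (by rw [h]; exact (map_zero (algebraMap EntFun Mer)).symm))

private lemma mul_val (a b : EntFun) (z : ℂ) : ((a * b : EntFun) : ℂ → ℂ) z = (a : ℂ → ℂ) z * (b : ℂ → ℂ) z := rfl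

private lemma add_val (a b : EntFun) (z : ℂ) : ((a + b : EntFun) : ℂ → ℂ) z = (a : ℂ → ℂ) z + (b : ℂ → ℂ) z := rfl

private lemma exists_rep (f : Mer) : ∃ a b : EntFun, b ≠ 0 ∧ f = toM a / toM b := by
  obtain ⟨a, b, hb, h⟩ := IsFractionRing.div_surjective (A := EntFun) f
  exact ⟨a, b, nonZeroDivisors.ne_zero hb, h.symm⟩

theorem ofn_div (z₀ : ℂ) (a : EntFun) {b : EntFun} (hb : b ≠ 0) : ofn z₀ (toM a / toM b) = meromorphicOrderAt (fun z => (a : ℂ → ℂ) z / (b : ℂ → ℂ) z) z₀ := by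
  unfold ofn
  set f : Mer := toM a / toM b with hf
  set a' : EntFun := (IsLocalization.sec (nonZeroDivisors EntFun) f).1 with ha'
  set b' : EntFun := ((IsLocalization.sec (nonZeroDivisors EntFun) f).2 : EntFun) with hb'
  have hb'0 : b' ≠ 0 := nonZeroDivisors.ne_zero (IsLocalization.sec (nonZeroDivisors EntFun) f).2.2
  have h1 : f * toM b' = toM a' := IsLocalization.sec_spec (nonZeroDivisors EntFun) f
  have h2 : a * b' = a' * b := by
    apply toM_inj
    have hbM := toM_ne hb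
    have e1 : toM (a * b') = toM a * toM b' := map_mul _ _ _
    have e2 : toM (a' * b) = toM a' * toM b := map_mul _ _ _
    rw [e1, e2, ← h1, hf]
    field_simp
  apply meromorphicOrderAt_congr
  filter_upwards [ev_ne z₀ hb, ev_ne z₀ hb'0] with z hz hz'
  have h3 : (a : ℂ → ℂ) z * (b' : ℂ → ℂ) z = (a' : ℂ → ℂ) z * (b : ℂ → ℂ) z := by
    rw [← mul_val, ← mul_val, h2]
  rw [div_eq_div_iff hz' hz]
  exact h3.symm

private lemma ofn_rep (z₀ : ℂ) (a : EntFun) {b : EntFun} (hb : b ≠ 0) : ofn z₀ (toM a / toM b) = meromorphicOrderAt (qf a b) z₀ :=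
  ofn_div z₀ a hb

private lemma toM_one : toM 1 = 1 := map_one (algebraMap EntFun Mer)

private lemma toM_zero : toM 0 = 0 := map_zero (algebraMap EntFun Mer)

private lemma one_ne : (1 : EntFun) ≠ 0 := one_ne_zero

private lemma ofn_toM (z₀ : ℂ) (a : EntFun) : ofn z₀ (toM a) = meromorphicOrderAt (a : ℂ → ℂ) z₀ := by
  have h := ofn_div z₀ a one_ne
  rw [toM_one, div_one] at h
  rw [h]
  congr 1
  funext z
  have : ((1 : EntFun) : ℂ → ℂ) z = 1 := rfl
  rw [this, div_one]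

theorem ofn_zero (z₀ : ℂ) : ofn z₀ 0 = ⊤ := by
  rw [← toM_zero, ofn_toM, meromorphicOrderAt_eq_top_iff]
  exact Filter.Eventually.of_forall fun z => rfl

theorem ofn_one (z₀ : ℂ) : ofn z₀ 1 = 0 := by
  classical
  rw [← toM_one, ofn_toM]
  have h := meromorphicOrderAt_const z₀ (1 : ℂ)
  rw [if_neg one_ne_zero] at h
  exact h

theorem ofn_add (z₀ : ℂ) (f g : Mer) : min (ofn z₀ f) (ofn z₀ g) ≤ ofn z₀ (f + g) := by
  obtain ⟨a, b, hb, rfl⟩ := exists_rep f
  obtain ⟨c, d, hd, rfl⟩ := exists_rep g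
  have h1 : toM a / toM b + toM c / toM d = toM (a * d + b * c) / toM (b * d) := by
    have e1 : toM (a * d + b * c) = toM a * toM d + toM b * toM c := by
      rw [← map_mul, ← map_mul, ← map_add]
    have e2 : toM (b * d) = toM b * toM d := map_mul _ _ _
    rw [e1, e2, div_add_div _ _ (toM_ne hb) (toM_ne hd)]
  rw [h1, ofn_rep z₀ a hb, ofn_rep z₀ c hd, ofn_rep z₀ _ (mul_ne_zero hb hd)]
  refine (meromorphicOrderAt_add (qf_mero z₀ a b) (qf_mero z₀ c d)).trans (le_of_eq ?_)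
  apply meromorphicOrderAt_congr
  filter_upwards [ev_ne z₀ hb, ev_ne z₀ hd] with z hz hz'
  rw [Pi.add_apply]
  unfold qf
  rw [add_val, mul_val, mul_val, mul_val, div_add_div _ _ hz hz']

theorem ofn_mul (z₀ : ℂ) (f g : Mer) : ofn z₀ (f * g) = ofn z₀ f + ofn z₀ g := by
  obtain ⟨a, b, hb, rfl⟩ := exists_rep f
  obtain ⟨c, d, hd, rfl⟩ := exists_rep g
  have h1 : toM a / toM b * (toM c / toM d) = toM (a * c) / toM (b * d) := by
    have e1 : toM (a * c) = toM a * toM c := map_mul _ _ _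
    have e2 : toM (b * d) = toM b * toM d := map_mul _ _ _
    rw [e1, e2, div_mul_div_comm]
  rw [h1, ofn_rep z₀ a hb, ofn_rep z₀ c hd, ofn_rep z₀ _ (mul_ne_zero hb hd),
    ← meromorphicOrderAt_mul (qf_mero z₀ a b) (qf_mero z₀ c d)]
  congr 1
  funext z
  rw [Pi.mul_apply]
  unfold qf
  rw [mul_val, mul_val, div_mul_div_comm]

/-- the order at `z₀` as a valuation -/
def ordM (z₀ : ℂ) : AddValuation Mer (WithTop ℤ) := AddValuation.of (ofn z₀) (ofn_zero z₀) (ofn_one z₀) (ofn_add z₀) (ofn_mul z₀)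

theorem ordM_div (z₀ : ℂ) (a : EntFun) {b : EntFun} (hb : b ≠ 0) : ordM z₀ (toM a / toM b) = meromorphicOrderAt (fun z => (a : ℂ → ℂ) z / (b : ℂ → ℂ) z) z₀ := by
  exact ofn_div z₀ a hb

theorem ordM_toM (z₀ : ℂ) (a : EntFun) : ordM z₀ (toM a) = meromorphicOrderAt (a : ℂ → ℂ) z₀ := by
  exact ofn_toM z₀ a

theorem ordM_toM_nonneg (z₀ : ℂ) (a : EntFun) : 0 ≤ ordM z₀ (toM a) := by
  rw [ordM_toM]
  exact (a.analyticAt z₀).meromorphicOrderAt_nonneg

theorem ordM_toM_pos (z₀ : ℂ) (a : EntFun) : 0 < ordM z₀ (toM a) ↔ (a : ℂ → ℂ) z₀ = 0 := by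
  rw [ordM_toM, ← tendsto_zero_iff_meromorphicOrderAt_pos (a.analyticAt z₀).meromorphicAt]
  have hc : Tendsto (a : ℂ → ℂ) (𝓝[≠] z₀) (𝓝 ((a : ℂ → ℂ) z₀)) :=
    (a.analyticAt z₀).continuousAt.tendsto.mono_left nhdsWithin_le_nhds
  constructor
  · intro h
    exact tendsto_nhds_unique hc h
  · intro h
    rw [h] at hc
    exact hc

theorem ordM_eq_top (z₀ : ℂ) {f : Mer} : ordM z₀ f = ⊤ ↔ f = 0 := by
  constructor
  · intro h
    obtain ⟨a, b, hb, rfl⟩ := exists_rep f
    rw [ordM_div z₀ a hb, meromorphicOrderAt_eq_top_iff] at h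
    by_contra h0
    have ha : a ≠ 0 := by
      rintro rfl
      apply h0
      rw [toM_zero, zero_div]
    obtain ⟨z, ⟨hz1, hz2⟩, hz3⟩ := ((ev_ne z₀ ha).and (ev_ne z₀ hb)).and h |>.exists
    exact div_ne_zero hz1 hz2 hz3
  · rintro rfl
    exact ofn_zero z₀

theorem algebraMap_eq (c : ℂ) : algebraMap ℂ Mer c = toM (algebraMap ℂ EntFun c) := by
  exact IsScalarTower.algebraMap_apply ℂ EntFun Mer c

theorem ordM_const (z₀ : ℂ) {c : ℂ} (hc : c ≠ 0) : ordM z₀ (algebraMap ℂ Mer c) = 0 := by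
  classical
  rw [algebraMap_eq, ordM_toM]
  have h := meromorphicOrderAt_const z₀ c
  rw [if_neg hc] at h
  exact h

/-- a meromorphic function without pole at `z₀` has a value at `z₀` -/
theorem exists_valueM (z₀ : ℂ) {f : Mer} (hf : 0 ≤ ordM z₀ f) : ∃ c : ℂ, 0 < ordM z₀ (f - algebraMap ℂ Mer c) := by
  obtain ⟨a, b, hb, rfl⟩ := exists_rep f
  have h1 : ordM z₀ (toM a / toM b) = meromorphicOrderAt (qf a b) z₀ := ordM_div z₀ a hb
  rw [h1] at hf
  obtain ⟨c, hc⟩ := tendsto_nhds_of_meromorphicOrderAt_nonneg (qf_mero z₀ a b) hf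
  refine ⟨c, ?_⟩
  have h2 : toM a / toM b - algebraMap ℂ Mer c = toM (a - algebraMap ℂ EntFun c * b) / toM b := by
    have e1 : toM (a - algebraMap ℂ EntFun c * b) = toM a - toM (algebraMap ℂ EntFun c) * toM b := by
      rw [← map_mul, ← map_sub]
    rw [e1, algebraMap_eq, sub_div, mul_div_cancel_right₀ _ (toM_ne hb)]
  have h3 : ordM z₀ (toM (a - algebraMap ℂ EntFun c * b) / toM b) = meromorphicOrderAt (qf (a - algebraMap ℂ EntFun c * b) b) z₀ :=
    ordM_div z₀ _ hb
  rw [h2, h3, ← tendsto_zero_iff_meromorphicOrderAt_pos (qf_mero z₀ _ b)]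
  have h4 : Tendsto (fun z => qf a b z - c) (𝓝[≠] z₀) (𝓝 (c - c)) := hc.sub_const c
  rw [sub_self] at h4
  refine h4.congr' ?_
  filter_upwards [ev_ne z₀ hb] with z hz
  unfold qf
  have e2 : ((a - algebraMap ℂ EntFun c * b : EntFun) : ℂ → ℂ) z = (a : ℂ → ℂ) z - c * (b : ℂ → ℂ) z := rfl
  rw [e2, sub_div, mul_div_cancel_right₀ _ hz]

theorem tr_or_const (f : Mer) : (∃ c : ℂ, f = algebraMap ℂ Mer c) ∨ Transcendental ℂ f := by
  by_cases h : Transcendental ℂ f
  · exact Or.inr h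
  · left
    have halg : IsAlgebraic ℂ f := not_not.mp h
    have hint : IsIntegral ℂ f := halg.isIntegral
    have hdeg : (minpoly ℂ f).degree = 1 :=
      IsAlgClosed.degree_eq_one_of_irreducible ℂ (minpoly.irreducible hint)
    obtain ⟨c, hc⟩ := minpoly.mem_range_of_degree_eq_one ℂ f hdeg
    exact ⟨c, hc.symm⟩

end Pool.Agent.H13.CV
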