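import Pool.Agent.H13.CV.MerO
import Pool.Agent.H13.CV.Pl

/-!
# CV MerP: the place under a point of `ℂ`, homomorphisms into the field of meromorphic functions

`exists_placeM`: `v g = ordM z₀ (φ g)` is a valuation of `K` (`φ` is injective), trivial on the constants.  It is not trivial: let `x` be transcendental (`hK.exists_tr`), or its inverse, with `0 ≤ v x`; `c` with
`0 < ordM z₀ (φ x - c)` (`exists_valueM`), so `0 < v (x - c)`, finite as `x ≠ c`.  So the values of `v` on `K ∖ {0}` form a non-zero subgroup of `ℤ`, equal to `e ℤ` with `e ≥ 1`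
(`Int.subgroup_cyclic`, or the least positive value).  `E.ord g = v g / e` (an integer or `⊤`), `AddValuation.of`.  `residue_trdeg`: `Fin 0`: polynomials in no variables are constants.
-/

set_option autoImplicit false

open Topology Filter
open Pool.Agent.H17 Pool.Agent.H17.EntFun

noncomputable section

namespace Pool.Agent.H13.CV

variable {K : Type} [Field K] [Algebra ℂ K]

private theorem merp_nsmul_top {e : ℕ} (he : 1 ≤ e) : e • (⊤ : WithTop ℤ) = ⊤ := by
  obtain ⟨k, rfl⟩ : ∃ k, e = k + 1 := ⟨e - 1, by omega⟩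
  rw [succ_nsmul, add_top]

private theorem merp_mono {e : ℕ} (he : 1 ≤ e) {x y : WithTop ℤ} (h : x ≤ y) :
    WithTop.map (fun a : ℤ => a / (e : ℤ)) x ≤ WithTop.map (fun a : ℤ => a / (e : ℤ)) y := by
  have he' : (0 : ℤ) < e := by exact_mod_cast he
  induction y with
  | top => exact le_top
  | coe b =>
    induction x with
    | top => exact absurd h (not_le.2 (WithTop.coe_lt_top b))
    | coe a =>
      rw [WithTop.map_coe, WithTop.map_coe, WithTop.coe_le_coe]
      exact Int.ediv_le_ediv he' (WithTop.coe_le_coe.1 h)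

private theorem merp_add {e : ℕ} {x y : WithTop ℤ} (hx : x = ⊤ ∨ ∃ k : ℤ, x = ((e * k : ℤ) : WithTop ℤ)) :
    WithTop.map (fun a : ℤ => a / (e : ℤ)) (x + y) =
      WithTop.map (fun a : ℤ => a / (e : ℤ)) x + WithTop.map (fun a : ℤ => a / (e : ℤ)) y := by
  rcases hx with rfl | ⟨k, rfl⟩
  · rw [top_add, WithTop.map_top, top_add]
  · induction y with
    | top => rw [add_top, WithTop.map_top, add_top]
    | coe b =>
      rw [← WithTop.coe_add, WithTop.map_coe, WithTop.map_coe, WithTop.map_coe, ← WithTop.coe_add,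
        WithTop.coe_inj]
      exact Int.add_ediv_of_dvd_left (Dvd.intro k rfl)

theorem exists_placeM (hK : CurveField K) (φ : K →ₐ[ℂ] Mer) (z₀ : ℂ) : ∃ (E : Place K) (e : ℕ), 1 ≤ e ∧ ∀ g : K, ordM z₀ (φ g) = e • E.ord g := by
  have hinj : Function.Injective φ := φ.toRingHom.injective
  have htop : ∀ g : K, ordM z₀ (φ g) = ⊤ ↔ g = 0 := by
    intro g
    rw [ordM_eq_top, map_eq_zero_iff φ hinj]
  have hcst : ∀ c : ℂ, c ≠ 0 → ordM z₀ (φ (algebraMap ℂ K c)) = 0 := by
    intro c hc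
    rw [AlgHom.commutes]
    exact ordM_const z₀ hc
  have hfin : ∀ g : K, g ≠ 0 → ∃ n : ℤ, ordM z₀ (φ g) = (n : WithTop ℤ) := by
    intro g hg
    have h : ordM z₀ (φ g) ≠ ⊤ := fun h => hg ((htop g).1 h)
    exact ⟨_, (WithTop.coe_untop _ h).symm⟩
  -- the group of the values
  let H : AddSubgroup ℤ :=
    { carrier := {n | ∃ g : K, g ≠ 0 ∧ ordM z₀ (φ g) = (n : WithTop ℤ)}
      add_mem' := by
        rintro a b ⟨g, hg, h1⟩ ⟨g', hg', h2⟩
        refine ⟨g * g', mul_ne_zero hg hg', ?_⟩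
        rw [map_mul, AddValuation.map_mul, h1, h2, WithTop.coe_add]
      zero_mem' := ⟨1, one_ne_zero, by rw [map_one, AddValuation.map_one]; rfl⟩
      neg_mem' := by
        rintro a ⟨g, hg, h1⟩
        refine ⟨g⁻¹, inv_ne_zero hg, ?_⟩
        obtain ⟨n, hn⟩ := hfin g⁻¹ (inv_ne_zero hg)
        have h2 : ordM z₀ (φ g) + ordM z₀ (φ g⁻¹) = 0 := by
          rw [← AddValuation.map_mul, ← map_mul, mul_inv_cancel₀ hg, map_one, AddValuation.map_one]
        rw [h1, hn, ← WithTop.coe_add] at h2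
        have h3 : a + n = 0 := WithTop.coe_eq_zero.1 h2
        rw [hn, WithTop.coe_inj]
        omega }
  have hmem : ∀ (n : ℤ), n ∈ H ↔ ∃ g : K, g ≠ 0 ∧ ordM z₀ (φ g) = (n : WithTop ℤ) := fun n => Iff.rfl
  -- a non-zero value
  have hne : ∃ n ∈ H, n ≠ 0 := by
    obtain ⟨x, hx⟩ := hK.exists_tr
    have hx0 : x ≠ 0 := by
      rintro rfl
      exact hx isAlgebraic_zero
    obtain ⟨n, hn⟩ := hfin x hx0
    by_cases h0 : n = 0
    · have h1 : 0 ≤ ordM z₀ (φ x) := by rw [hn, h0]; exact le_refl _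
      obtain ⟨c, hc⟩ := exists_valueM z₀ h1
      have h2 : φ x - algebraMap ℂ Mer c = φ (x - algebraMap ℂ K c) := by
        rw [map_sub, AlgHom.commutes]
      have h3 : x - algebraMap ℂ K c ≠ 0 := by
        intro h
        rw [sub_eq_zero] at h
        rw [h] at hx
        exact hx (isAlgebraic_algebraMap c)
      obtain ⟨m, hm⟩ := hfin _ h3
      refine ⟨m, ⟨_, h3, hm⟩, ?_⟩
      rintro rfl
      rw [h2, hm] at hc
      exact lt_irrefl _ hc
    · exact ⟨n, ⟨x, hx0, hn⟩, h0⟩
  obtain ⟨a, ha⟩ := Int.subgroup_cyclic H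
  have hdvd : ∀ n ∈ H, a ∣ n := by
    intro n hn
    rw [ha, ← AddSubgroup.zmultiples_eq_closure, Int.mem_zmultiples_iff] at hn
    exact hn
  have haH : a ∈ H := by
    rw [ha]
    exact AddSubgroup.subset_closure rfl
  have ha0 : a ≠ 0 := by
    rintro rfl
    obtain ⟨n, hn, hn0⟩ := hne
    exact hn0 (zero_dvd_iff.1 (hdvd n hn))
  obtain ⟨e, he⟩ : ∃ e : ℕ, e = a.natAbs := ⟨_, rfl⟩
  have he1 : 1 ≤ e := by
    rw [he]
    exact Int.natAbs_pos.2 ha0
  have heH : (e : ℤ) ∈ H := by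
    rcases Int.natAbs_eq a with h | h
    · rw [he, ← h]
      exact haH
    · have h2 : (e : ℤ) = -a := by
        rw [he]
        omega
      rw [h2]
      exact H.neg_mem haH
  have hval : ∀ g : K, ordM z₀ (φ g) = ⊤ ∨ ∃ k : ℤ, ordM z₀ (φ g) = ((e * k : ℤ) : WithTop ℤ) := by
    intro g
    by_cases hg : g = 0
    · exact Or.inl ((htop g).2 hg)
    · obtain ⟨n, hn⟩ := hfin g hg
      have h1 : (e : ℤ) ∣ n := by
        rw [he, Int.natAbs_dvd]
        exact hdvd n ⟨g, hg, hn⟩
      obtain ⟨k, hk⟩ := h1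
      exact Or.inr ⟨k, by rw [hn, hk]⟩
  have he0 : (e : ℤ) ≠ 0 := by
    have : 0 < e := he1
    omega
  -- the normalised valuation
  let v : AddValuation K (WithTop ℤ) := AddValuation.of
    (fun g => WithTop.map (fun a : ℤ => a / (e : ℤ)) (ordM z₀ (φ g)))
    (by
      change WithTop.map (fun a : ℤ => a / (e : ℤ)) (ordM z₀ (φ 0)) = ⊤
      rw [(htop 0).2 rfl, WithTop.map_top])
    (by
      change WithTop.map (fun a : ℤ => a / (e : ℤ)) (ordM z₀ (φ 1)) = 0
      rw [map_one, AddValuation.map_one]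
      change (((0 : ℤ) / (e : ℤ) : ℤ) : WithTop ℤ) = 0
      rw [Int.zero_ediv]
      rfl)
    (by
      intro f g
      have h := (ordM z₀).map_add (φ f) (φ g)
      rw [← map_add] at h
      rcases le_total (ordM z₀ (φ f)) (ordM z₀ (φ g)) with h1 | h1
      · rw [min_eq_left h1] at h
        exact (min_le_left _ _).trans (merp_mono he1 h)
      · rw [min_eq_right h1] at h
        exact (min_le_right _ _).trans (merp_mono he1 h))
    (by
      intro f g
      rw [map_mul, AddValuation.map_mul]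
      exact merp_add (hval f))
  have hv : ∀ g, v g = WithTop.map (fun a : ℤ => a / (e : ℤ)) (ordM z₀ (φ g)) := fun g => rfl
  have hvc : ∀ c : ℂ, c ≠ 0 → v (algebraMap ℂ K c) = 0 := by
    intro c hc
    rw [hv, hcst c hc]
    change (((0 : ℤ) / (e : ℤ) : ℤ) : WithTop ℤ) = 0
    rw [Int.zero_ediv]
    rfl
  refine ⟨{ ord := v
            ord_const := ?_
            exists_uniformizer := ?_
            residue_trdeg := ?_ }, e, he1, ?_⟩
  · intro c
    by_cases hc : c = 0
    · rw [hc, map_zero, AddValuation.map_zero]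
      exact le_top
    · rw [hvc c hc]
  · obtain ⟨t, ht, h1⟩ := (hmem e).1 heH
    refine ⟨t, ?_⟩
    rw [hv, h1]
    change ((((e : ℤ) / (e : ℤ) : ℤ)) : WithTop ℤ) = 1
    rw [Int.ediv_self he0]
    rfl
  · have : IsEmpty (Fin (1 - 1)) := inferInstanceAs (IsEmpty (Fin 0))
    refine ⟨fun i => isEmptyElim i, fun i => isEmptyElim i, ?_⟩
    intro p hp
    rw [MvPolynomial.eq_C_of_isEmpty p, MvPolynomial.aeval_C]
    apply hvc
    intro h
    apply hp
    rw [MvPolynomial.eq_C_of_isEmpty p, h, map_zero]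
  · intro g
    change ordM z₀ (φ g) = e • v g
    rw [hv]
    rcases hval g with h | ⟨k, h⟩
    · rw [h, WithTop.map_top, merp_nsmul_top he1]
    · rw [h, WithTop.map_coe, ← WithTop.coe_nsmul, WithTop.coe_inj, Int.mul_ediv_cancel_left _ he0,
        nsmul_eq_mul]

end Pool.Agent.H13.CV
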