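import Pool.Agent.H13.CV.Deg
import Pool.Agent.H13.CV.Lgt

/-!
# CV RatB: rational function fields

Let `K = ℂ(t)`; `t` is transcendental (`hK.exists_tr`: if `t` were algebraic then all elements of `K` would be algebraic).
(1) `mob`: `IntermediateField.adjoin ℂ {t'} = ⊤` for `t' = t - c`, `t⁻¹`, `c t` (`c ≠ 0`): `t` is in `adjoin ℂ {t'}`.
(2) `oz_eq`: if `adjoin ℂ {s} = ⊤` then there is at most one place with `0 < ord s`, and `oz E s = 1` there (`sum_le` with `L = ⊤ = ℂ(s)`, `finrank ⊤ K = 1`, or with `T = {E}` and `T = {E, E'}`).  The same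
for `ord s < 0` and `oz E s = -1` (`s⁻¹`).
(3) Given places `E₁ ≠ E₂` there is `s` with `adjoin ℂ {s} = ⊤`, `0 < ord_{E₁} s`, `ord_{E₂} s < 0`: replacing `t` by `t⁻¹` if necessary we may assume that `t` has a value `c₂` at `E₂` (`exists_value`), replacing it by
`(t - c₂)⁻¹` we may assume that `ord_{E₂} t < 0`; by (2) `t` has no pole at `E₁`, so it has a value `c₁`: `s = t - c₁`.
(4) If all places in `B` are among two places `E₁, E₂`: if `E₁ ≠ E₂` take `t' = s` as in (3); if `E₁ = E₂` choose `t' = t - c` or `t` with `oz E₁ t' ≠ 0`.  If `B` is empty: `t' = t`.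
(5) Otherwise there are three different places `E₁, E₂, E₃` in `B`.  `s` as in (3); at `E₃` it has no pole and no zero (2), so it has a value `c ≠ 0`; replace `s` by `s / c`, so that the value at `E₃` is `1`.
`lgt_of_forms` with `m = 1`, `ω = dx s`, `f₀ = s⁻¹`, `f₁ = (s - 1)⁻¹`; `f₁ / f₀ = s / (s - 1)` is not a constant.  Check at a place `E` with `pole_mk` (`p = 1` in `B`, `p = 0` otherwise):
* `0 < ord s`: `E = E₁`, `oz E s = 1`, `oz E f₀ = -1`, `oz E f₁ = 0`: `-1 + (1 - 1) + 1 ≥ 0`.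
* `ord s < 0`: `E = E₂`, `oz E s = -1`, `oz E f₀ = oz E f₁ = 1`: `1 + (-1 - 1) + 1 ≥ 0`.
* otherwise `s` has a value `c ≠ 0` at `E`; `dx s = dx (s - c)` (`dx_sub_const`) and `oz E (s - c) = 1` by (2).  If `c = 1` then `E = E₃` by (2) for `s - 1`: `oz E f₁ = -1`, `oz E f₀ = 0`: `-1 + 0 + 1 ≥ 0`.
If `c ≠ 1`: `oz E f₀ = oz E f₁ = 0`.
-/

set_option autoImplicit false

open Pool.Agent.H23.Fano (PrimeDivisorOver Form regularForms)
open Pool.Agent.H17LG.Variety (PoleAtMost IsLogGeneralType)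

noncomputable section

namespace Pool.Agent.H13.CV

variable {K : Type} [Field K] [Algebra ℂ K]

private lemma tr_of_top (hK : CurveField K) {t : K} (ht : IntermediateField.adjoin ℂ {t} = ⊤) : Transcendental ℂ t := by
  by_contra hal
  obtain ⟨c, hc⟩ : ∃ c : ℂ, t = algebraMap ℂ K c := by
    by_contra h
    push Not at h
    exact hal (transcendental_of_not_const h)
  obtain ⟨x, hx⟩ := hK.exists_tr
  have h1 : IntermediateField.adjoin ℂ {t} = (⊥ : IntermediateField ℂ K) := by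
    rw [IntermediateField.adjoin_simple_eq_bot_iff, IntermediateField.mem_bot]
    exact ⟨c, hc.symm⟩
  have h2 : x ∈ (⊥ : IntermediateField ℂ K) := by
    rw [← h1, ht]
    exact IntermediateField.mem_top
  rw [IntermediateField.mem_bot] at h2
  obtain ⟨d, hd⟩ := h2
  exact hx (hd ▸ isAlgebraic_algebraMap d)

private lemma gen_top (hK : CurveField K) {t : K} (ht : IntermediateField.adjoin ℂ {t} = ⊤) : Gen (⊤ : IntermediateField ℂ K) t :=
  ⟨tr_of_top hK ht, ht.symm⟩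

private lemma fin_top : FiniteDimensional (⊤ : IntermediateField ℂ K) K :=
  Module.finite_of_finrank_pos (by rw [IntermediateField.finrank_top]; norm_num)

private lemma one_le_oz {s : K} (hs : Gen (⊤ : IntermediateField ℂ K) s) {E : Place K} (hE : 0 < E.ord s) : 1 ≤ oz E s :=
  (pos_iff.1 hE).resolve_left hs.ne_zero

private lemma oz_zero_eq {s : K} (hs : Gen (⊤ : IntermediateField ℂ K) s) {E : Place K} (hE : 0 < E.ord s) : oz E s = 1 := by
  have := fin_top (K := K)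
  have h1 := sum_le hs {E} (by
    intro E' hE'
    rw [Finset.mem_singleton] at hE'
    rwa [hE'])
  rw [Finset.sum_singleton, IntermediateField.finrank_top] at h1
  have h2 := one_le_oz hs hE
  push_cast at h1
  omega

private lemma zero_uniq {s : K} (hs : Gen (⊤ : IntermediateField ℂ K) s) {E E' : Place K} (hE : 0 < E.ord s) (hE' : 0 < E'.ord s) : E = E' := by
  classical
  by_contra hne
  have := fin_top (K := K)
  have h1 := sum_le hs {E, E'} (by
    intro E'' hE''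
    rw [Finset.mem_insert, Finset.mem_singleton] at hE''
    rcases hE'' with h | h
    · rwa [h]
    · rwa [h])
  rw [Finset.sum_pair hne, IntermediateField.finrank_top] at h1
  have h2 := one_le_oz hs hE
  have h3 := one_le_oz hs hE'
  push_cast at h1
  omega

private lemma oz_pole_eq {s : K} (hs : Gen (⊤ : IntermediateField ℂ K) s) {E : Place K} (hE : E.ord s < 0) : oz E s = -1 := by
  have h1 := oz_zero_eq hs.inv ((inv_pos_iff hs.ne_zero).2 hE)
  rw [oz_inv] at h1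
  omega

private lemma pole_uniq {s : K} (hs : Gen (⊤ : IntermediateField ℂ K) s) {E E' : Place K} (hE : E.ord s < 0) (hE' : E'.ord s < 0) : E = E' :=
  zero_uniq hs.inv ((inv_pos_iff hs.ne_zero).2 hE) ((inv_pos_iff hs.ne_zero).2 hE')

private lemma pole_sub {s : K} {E : Place K} (hE : E.ord s < 0) (c : ℂ) : E.ord (s - algebraMap ℂ K c) < 0 := by
  by_contra h
  push Not at h
  have h1 := nonneg_add h (const_nonneg E c)
  rw [sub_add_cancel] at h1
  exact absurd hE (not_lt.2 h1)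

private lemma oz_sub {s : K} (hs : Gen (⊤ : IntermediateField ℂ K) s) {E : Place K} {a b : ℂ} (h : 0 < E.ord (s - algebraMap ℂ K a)) (hab : a ≠ b) :
    oz E (s - algebraMap ℂ K b) = 0 := by
  have h1 : oz E (s - algebraMap ℂ K a) = 1 := oz_zero_eq (hs.sub_const a) h
  have h2 : (algebraMap ℂ K (a - b)) ≠ 0 := by
    rw [Ne, map_eq_zero, sub_eq_zero]
    exact hab
  have h3 := (oz_add_of_lt E h2 (hs.sub_const a).ne_zero (by rw [oz_const, h1]; norm_num)).2
  rw [oz_const] at h3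
  rw [← h3]
  congr 1
  rw [map_sub]
  ring

private lemma exists_two (hK : CurveField K) {t : K} (ht : Gen (⊤ : IntermediateField ℂ K) t) {E₁ E₂ : Place K} (hne : E₁ ≠ E₂) :
    ∃ s : K, Gen (⊤ : IntermediateField ℂ K) s ∧ 0 < E₁.ord s ∧ E₂.ord s < 0 := by
  obtain ⟨t', ht', hp⟩ : ∃ t' : K, Gen (⊤ : IntermediateField ℂ K) t' ∧ E₂.ord t' < 0 := by
    by_cases h : E₂.ord t < 0
    · exact ⟨t, ht, h⟩
    · push Not at h
      obtain ⟨c, hc⟩ := exists_value hK h
      refine ⟨(t - algebraMap ℂ K c)⁻¹, (ht.sub_const c).inv, ?_⟩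
      rw [neg_iff, oz_inv, oz_zero_eq (ht.sub_const c) hc]
      norm_num
  have h1 : 0 ≤ E₁.ord t' := by
    by_contra h
    push Not at h
    exact hne (pole_uniq ht' h hp)
  obtain ⟨c, hc⟩ := exists_value hK h1
  exact ⟨t' - algebraMap ℂ K c, ht'.sub_const c, hc, pole_sub hp c⟩

private lemma lgt_three (hK : CurveField K) {B : Place K → Prop} {s : K} (hs : Gen (⊤ : IntermediateField ℂ K) s) {E₁ E₂ E₃ : Place K}
    (hB₁ : B E₁) (hB₂ : B E₂) (hB₃ : B E₃) (h13 : E₁ ≠ E₃) (h23 : E₂ ≠ E₃) (h1 : 0 < E₁.ord s) (h2 : E₂.ord s < 0) : IsLogGeneralType B := by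
  have h3 : 0 ≤ E₃.ord s := by
    by_contra h
    push Not at h
    exact h23 (pole_uniq hs h2 h)
  obtain ⟨c, hc⟩ := exists_value hK h3
  have hc0 : c ≠ 0 := by
    rintro rfl
    rw [map_zero, sub_zero] at hc
    exact h13 (zero_uniq hs h1 hc)
  have h1' : 0 < E₁.ord (s - algebraMap ℂ K 0) := by rwa [map_zero, sub_zero]
  have hs0 : s ≠ 0 := hs.ne_zero
  have hsc : s - algebraMap ℂ K c ≠ 0 := (hs.sub_const c).ne_zero
  -- the orders of the two forms
  have key : ∀ E : Place K, (¬ B E → PoleAtMost 0 E 1 s⁻¹ (dx s) ∧ PoleAtMost 0 E 1 (s - algebraMap ℂ K c)⁻¹ (dx s)) ∧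
      (B E → PoleAtMost 1 E 1 s⁻¹ (dx s) ∧ PoleAtMost 1 E 1 (s - algebraMap ℂ K c)⁻¹ (dx s)) := by
    intro E
    by_cases hpos : 0 < E.ord s
    · obtain rfl := zero_uniq hs h1 hpos
      have e1 := oz_zero_eq hs h1
      have e2 := oz_sub hs h1' hc0.symm
      refine ⟨fun h => absurd hB₁ h, fun _ => ⟨pole_mk _ hs0 (Or.inr ?_), pole_mk _ hs0 (Or.inr ?_)⟩⟩
      · rw [oz_inv, e1]; norm_num
      · rw [oz_inv, e2, e1]; norm_num
    by_cases hneg : E.ord s < 0
    · obtain rfl := pole_uniq hs h2 hneg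
      have e1 := oz_pole_eq hs h2
      have e2 := oz_pole_eq (hs.sub_const c) (pole_sub h2 c)
      refine ⟨fun h => absurd hB₂ h, fun _ => ⟨pole_mk _ hs0 (Or.inr ?_), pole_mk _ hs0 (Or.inr ?_)⟩⟩
      · rw [oz_inv, e1]; norm_num
      · rw [oz_inv, e2, e1]; norm_num
    push Not at hneg
    obtain ⟨c', hc'⟩ := exists_value hK hneg
    have hc'0 : c' ≠ 0 := by
      rintro rfl
      rw [map_zero, sub_zero] at hc'
      exact hpos hc'
    have e0 : oz E s = 0 := by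
      have := oz_sub hs hc' hc'0
      rwa [map_zero, sub_zero] at this
    have e1 : oz E (s - algebraMap ℂ K c') = 1 := oz_zero_eq (hs.sub_const c') hc'
    have hsc' : s - algebraMap ℂ K c' ≠ 0 := (hs.sub_const c').ne_zero
    rw [← dx_sub_const s c']
    by_cases hcc : c' = c
    · subst hcc
      obtain rfl := zero_uniq (hs.sub_const c') hc hc'
      refine ⟨fun h => absurd hB₃ h, fun _ => ⟨pole_mk _ hsc' (Or.inr ?_), pole_mk _ hsc' (Or.inr ?_)⟩⟩
      · rw [oz_inv, e0, e1]; norm_num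
      · rw [oz_inv, e1]; norm_num
    · have e2 : oz E (s - algebraMap ℂ K c) = 0 := oz_sub hs hc' hcc
      refine ⟨fun _ => ⟨pole_mk _ hsc' (Or.inr ?_), pole_mk _ hsc' (Or.inr ?_)⟩, fun _ => ⟨pole_mk _ hsc' (Or.inr ?_), pole_mk _ hsc' (Or.inr ?_)⟩⟩
      · rw [oz_inv, e0, e1]; norm_num
      · rw [oz_inv, e2, e1]; norm_num
      · rw [oz_inv, e0, e1]; norm_num
      · rw [oz_inv, e2, e1]; norm_num
  refine lgt_of_forms hK (dx_ne_zero hs.tr) le_rfl (inv_ne_zero hs0) (f₁ := (s - algebraMap ℂ K c)⁻¹) ?_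
    (fun E => ⟨fun h => ((key E).1 h).1, fun h => ((key E).2 h).1⟩) (fun E => ⟨fun h => ((key E).1 h).2, fun h => ((key E).2 h).2⟩)
  apply tr_of_oz_ne (E := E₁)
  rw [oz_div E₁ (inv_ne_zero hsc) (inv_ne_zero hs0), oz_inv, oz_inv, oz_sub hs h1' hc0.symm, oz_zero_eq hs h1]
  norm_num

theorem rat_cases (hK : CurveField K) {t : K} (ht : IntermediateField.adjoin ℂ {t} = ⊤) (B : Place K → Prop) :
    IsLogGeneralType B ∨ ∃ t' : K, IntermediateField.adjoin ℂ {t'} = ⊤ ∧ ∀ E, B E → oz E t' ≠ 0 := by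
  have hg := gen_top hK ht
  by_cases h3 : ∃ E₁ E₂ E₃ : Place K, B E₁ ∧ B E₂ ∧ B E₃ ∧ E₁ ≠ E₂ ∧ E₁ ≠ E₃ ∧ E₂ ≠ E₃
  · left
    obtain ⟨E₁, E₂, E₃, hB₁, hB₂, hB₃, h12, h13, h23⟩ := h3
    obtain ⟨s, hs, h1, h2⟩ := exists_two hK hg h12
    exact lgt_three hK hs hB₁ hB₂ hB₃ h13 h23 h1 h2
  right
  by_cases h2 : ∃ E₁ E₂ : Place K, B E₁ ∧ B E₂ ∧ E₁ ≠ E₂
  · obtain ⟨E₁, E₂, hB₁, hB₂, h12⟩ := h2
    obtain ⟨s, hs, h1, h2⟩ := exists_two hK hg h12
    refine ⟨s, hs.eq.symm, fun E hE => ?_⟩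
    by_cases hE1 : E = E₁
    · rw [hE1, oz_zero_eq hs h1]
      norm_num
    by_cases hE2 : E = E₂
    · rw [hE2, oz_pole_eq hs h2]
      norm_num
    exact absurd ⟨E₁, E₂, E, hB₁, hB₂, hE, h12, fun h => hE1 h.symm, fun h => hE2 h.symm⟩ h3
  by_cases h1 : ∃ E₁ : Place K, B E₁
  · obtain ⟨E₁, hB₁⟩ := h1
    have hall : ∀ E, B E → E = E₁ := fun E hE => by
      by_contra hne
      exact h2 ⟨E, E₁, hE, hB₁, hne⟩
    by_cases hneg : E₁.ord t < 0
    · refine ⟨t, ht, fun E hE => ?_⟩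
      rw [hall E hE, oz_pole_eq hg hneg]
      norm_num
    · push Not at hneg
      obtain ⟨c, hc⟩ := exists_value hK hneg
      refine ⟨t - algebraMap ℂ K c, (hg.sub_const c).eq.symm, fun E hE => ?_⟩
      rw [hall E hE, oz_zero_eq (hg.sub_const c) hc]
      norm_num
  · exact ⟨t, ht, fun E hE => absurd ⟨E, hE⟩ h1⟩

end Pool.Agent.H13.CV
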