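import Pool.Agent.H13.CV.Tame
import Pool.Agent.H13.CV.BirkC
import Pool.Agent.H13.CV.Dx

/-!
# CV RegF: regular forms

Let `w, a` be a Birkhoff basis and `v` its dual basis for the trace form (`trace (v i * f) = w.repr f i`), `j + 2 ≤ a i`, `h = x ^ j * v i ≠ 0`.  The form `h dx` is regular at every place `E`.
Case 1: `0 ≤ ord x`: let `c` be the value of `x` (`exists_value`), `y = x - c`, `Gen L y` (`Gen.sub_const`), `0 < ord y`.  `AffB y w` (`AffB.sub_const`), so `LocB y w` (`AffB.locB`).  For `f` with `RegLoc y f`: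
`trace (h * f) = x ^ j * w.repr f i` (`x ∈ L`) is `RegLoc y` (`x = y + c` is `RegLoc y`).  So `1 - oz E y ≤ oz E h` (`tame`), and `pole_mk` for `dx y = dx x` (`dx_sub_const`).
Case 2: `ord x < 0`: `y = x⁻¹`, `Gen L y`, `0 < ord y`.  There is a `LocB y` basis (`exists_locB`).  `h' = - x ^ 2 * h`.  For `f` with `RegLoc y f`: `trace (h' * f) = - x ^ (j + 2) * w.repr f i`, and
`x ^ a i * w.repr f i` is `RegLoc y` by `Birk.inf`, so `x ^ (j + 2) * w.repr f i = y ^ (a i - j - 2) * (x ^ a i * w.repr f i)` is.  So `1 - oz E y ≤ oz E h' = 2 * oz E x + oz E h`, i.e. with `oz E y = - oz E x`: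
`0 ≤ oz E h + oz E x - 1`: `pole_mk`.
-/

set_option autoImplicit false

open Pool.Agent.H23.Fano (PrimeDivisorOver Form regularForms)
open Pool.Agent.H17LG.Variety (PoleAtMost IsLogGeneralType)

noncomputable section

namespace Pool.Agent.H13.CV

variable {K : Type} [Field K] [Algebra ℂ K] {L : IntermediateField ℂ K} {x : K} {n : ℕ}

theorem trace_pow_mul (hL : Gen L x) [FiniteDimensional L K] {w v : Module.Basis (Fin n) L K}
    (hv : ∀ i f, Algebra.trace L K (v i * f) = w.repr f i) (i : Fin n) (k : ℕ) (f : K) :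
    ((Algebra.trace L K (x ^ k * v i * f) : L) : K) = x ^ k * ((w.repr f i : L) : K) := by
  have h1 : x ^ k * v i * f = ((⟨x, hL.mem⟩ : L) ^ k) • (v i * f) := by
    rw [Algebra.smul_def, mul_assoc]
    congr 1
  rw [h1, map_smul, hv, smul_eq_mul]
  push_cast
  rfl

theorem regular_form (hK : CurveField K) (hL : Gen L x) [FiniteDimensional L K] {w : Module.Basis (Fin n) L K} {a : Fin n → ℕ} (hw : Birk x w a)
    {v : Module.Basis (Fin n) L K} (hv : ∀ i f, Algebra.trace L K (v i * f) = w.repr f i) {i : Fin n} {j : ℕ} (hj : j + 2 ≤ a i) (E : Place K) :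
    PoleAtMost 0 E 1 (x ^ j * v i) (dx x) := by
  have hx0 : x ≠ 0 := hL.ne_zero
  have hvi : v i ≠ 0 := v.ne_zero i
  have hxj : x ^ j ≠ 0 := pow_ne_zero _ hx0
  have h0 : x ^ j * v i ≠ 0 := mul_ne_zero hxj hvi
  by_cases hx : 0 ≤ E.ord x
  · obtain ⟨c, hc⟩ := exists_value hK hx
    have hLy : Gen L (x - algebraMap ℂ K c) := hL.sub_const c
    have hloc : LocB (x - algebraMap ℂ K c) w := (hw.aff.sub_const hL c).locB hK hLy
    have hh : ∀ f : K, RegLoc (x - algebraMap ℂ K c) f →
        RegLoc (x - algebraMap ℂ K c) ((Algebra.trace L K (x ^ j * v i * f) : L) : K) := by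
      intro f hf E' hE'
      rw [trace_pow_mul hL hv]
      have h2 : 0 ≤ E'.ord x := by
        have h3 : x = (x - algebraMap ℂ K c) + algebraMap ℂ K c := by ring
        rw [h3]
        exact nonneg_add hE'.le (const_nonneg E' c)
      exact nonneg_mul (nonneg_pow h2 j) ((hloc f).1 hf i E' hE')
    have ht := tame hK hLy hloc h0 hh hc
    rw [← dx_sub_const x c]
    apply pole_mk E hLy.ne_zero
    right
    push_cast
    linarith
  · have hx' : E.ord x < 0 := not_le.1 hx
    have hLy : Gen L x⁻¹ := hL.inv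
    obtain ⟨w', hw'⟩ := exists_locB hK hLy
    have hEy : 0 < E.ord x⁻¹ := (inv_pos_iff hx0).2 hx'
    have h0' : -(x ^ 2 * (x ^ j * v i)) ≠ 0 := neg_ne_zero.2 (mul_ne_zero (pow_ne_zero _ hx0) h0)
    have hh : ∀ f : K, RegLoc x⁻¹ f →
        RegLoc x⁻¹ ((Algebra.trace L K (-(x ^ 2 * (x ^ j * v i)) * f) : L) : K) := by
      intro f hf E' hE'
      have h1 : -(x ^ 2 * (x ^ j * v i)) * f = -(x ^ (j + 2) * v i * f) := by ring
      have h2 : ((Algebra.trace L K (-(x ^ 2 * (x ^ j * v i)) * f) : L) : K) =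
          -((x⁻¹) ^ (a i - (j + 2)) * (x ^ a i * ((w.repr f i : L) : K))) := by
        rw [h1, map_neg]
        push_cast
        rw [trace_pow_mul hL hv]
        have h3 : x ^ (j + 2) = (x⁻¹) ^ (a i - (j + 2)) * x ^ a i := by
          conv_rhs => rw [← Nat.sub_add_cancel hj, pow_add]
          rw [Nat.sub_add_cancel hj, ← mul_assoc, ← mul_pow, inv_mul_cancel₀ hx0, one_pow, one_mul]
        rw [h3, mul_assoc]
      rw [h2]
      have h4 : 0 ≤ E'.ord ((x⁻¹) ^ (a i - (j + 2)) * (x ^ a i * ((w.repr f i : L) : K))) :=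
        nonneg_mul (nonneg_pow hE'.le _) ((hw.inf f).1 hf i E' hE')
      rcases nonneg_iff.1 h4 with h5 | h5
      · rw [h5, neg_zero]
        exact nonneg_iff.2 (Or.inl rfl)
      · refine nonneg_iff.2 (Or.inr ?_)
        rw [oz_neg]
        exact h5
    have ht := tame hK hLy hw' h0' hh hEy
    rw [oz_neg, oz_mul E (pow_ne_zero _ hx0) h0, oz_pow, oz_inv] at ht
    apply pole_mk E hx0
    right
    push_cast at ht ⊢
    linarith

end Pool.Agent.H13.CV
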