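import Pool.Agent.H13.CV.Idem

/-!
# CV Tame: the trace lemma (tame ramification)

`tame`: let `e = oz E x`, and suppose that `oz E h ≤ - e`.  Let `T` be the finite set of the places over `x = 0` (`finite_over`).  By `approx` there is `c ∈ K` with: at `E`: `ord (c - (x * h)⁻¹) ≥ N`, at the
`E' ∈ T`, `E' ≠ E`: `ord c ≥ N`, with `N ≥ 0` so large that `N ≥ oz E' x - oz E' (x * h)` for all `E' ∈ T`, and `N ≥ e - oz E (x * h)`, `N ≥ e`.  Then `RegLoc x c` (at `E`: `(x h)⁻¹` has order
`- (e + oz E h) ≥ 0`).  Let `u = x * h * c`: `ord_E (u - 1) = ord_E (x h (c - (x h)⁻¹)) ≥ e`, and `ord_{E'} u ≥ oz E' x` for `E' ≠ E`.  So `RegLoc x u`, `RegLoc x ((u² - u) / x)`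
(`u² - u = u (u - 1)`), and `trace u = x * trace (h * c)` (`Algebra.trace` is `L`-linear, `x ∈ L`), so `RegLoc x (trace u / x)` by `hh` for `f = c`.  By `trace_idem`: `RegLoc x (u / x)`: so
`ord_E u ≥ e > 0`; but `ord_E (u - 1) ≥ e > 0`, so `ord_E 1 > 0`: contradiction.

`exists_dual`: `(Algebra.traceForm L K).dualBasis (traceForm_nondegenerate L K) w`; `Algebra.trace L K (v i * w j) = if i = j then 1 else 0`, so `trace (v i * f) = w.repr f i` for `f = ∑ (w.repr f j) • w j`.
-/

set_option autoImplicit false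

open Pool.Agent.H23.Fano (PrimeDivisorOver Form regularForms)

noncomputable section

namespace Pool.Agent.H13.CV

variable {K : Type} [Field K] [Algebra ℂ K] {L : IntermediateField ℂ K} {x : K} {n : ℕ}

private lemma tame_le_mul {E : Place K} {f g : K} {a b : ℤ} (hf : (a : WithTop ℤ) ≤ E.ord f) (hg : (b : WithTop ℤ) ≤ E.ord g) :
    ((a + b : ℤ) : WithTop ℤ) ≤ E.ord (f * g) := by
  rw [E.ord.map_mul, WithTop.coe_add]
  exact add_le_add hf hg

private lemma tame_div {E : Place K} {f : K} (hx : x ≠ 0) (hf : ((oz E x : ℤ) : WithTop ℤ) ≤ E.ord f) : 0 ≤ E.ord (f / x) := by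
  have h := tame_le_mul hf (ord_inv E hx).ge
  rw [add_neg_cancel] at h
  rw [div_eq_mul_inv]
  exact h

theorem tame (hK : CurveField K) (hL : Gen L x) [FiniteDimensional L K] {w : Module.Basis (Fin n) L K} (hw : LocB x w) {h : K} (h0 : h ≠ 0)
    (hh : ∀ f : K, RegLoc x f → RegLoc x ((Algebra.trace L K (h * f) : L) : K)) {E : Place K} (hE : 0 < E.ord x) : 1 - oz E x ≤ oz E h := by
  classical
  by_contra hcon
  have hx : x ≠ 0 := hL.ne_zero
  have he : 0 < oz E x := (pos_iff.1 hE).resolve_left hx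
  have hxh : x * h ≠ 0 := mul_ne_zero hx h0
  have hneg : oz E (x * h) ≤ 0 := by
    rw [oz_mul E hx h0]
    omega
  set T : Finset (Place K) := (finite_over (L := L) (x := x) hL).toFinset with hT
  have hmem : ∀ E' : Place K, 0 < E'.ord x → E' ∈ T := fun E' h' => by
    rw [hT, Set.Finite.mem_toFinset]
    exact h'
  obtain ⟨N, hN0, hN⟩ : ∃ N : ℤ, 0 ≤ N ∧ ∀ E' ∈ T, oz E' x - oz E' (x * h) ≤ N := by
    refine ⟨∑ E' ∈ T, |oz E' x - oz E' (x * h)|, Finset.sum_nonneg fun _ _ => abs_nonneg _, fun E' h' => ?_⟩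
    exact (le_abs_self _).trans (Finset.single_le_sum (f := fun E' => |oz E' x - oz E' (x * h)|) (fun _ _ => abs_nonneg _) h')
  obtain ⟨c, hc⟩ := approx T (fun E' => if E' = E then (x * h)⁻¹ else 0) N
  have hcE : ((N : ℤ) : WithTop ℤ) ≤ E.ord (c - (x * h)⁻¹) := by
    have h1 := hc E (hmem E hE)
    rwa [if_pos rfl] at h1
  have hcE' : ∀ E' : Place K, 0 < E'.ord x → E' ≠ E → ((N : ℤ) : WithTop ℤ) ≤ E'.ord c := by
    intro E' h' hne
    have h1 := hc E' (hmem E' h')
    rwa [if_neg hne, sub_zero] at h1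
  have hNtop : (0 : WithTop ℤ) ≤ ((N : ℤ) : WithTop ℤ) := by exact_mod_cast hN0
  set u : K := x * h * c with hu
  have hu1 : ((oz E x : ℤ) : WithTop ℤ) ≤ E.ord (u - 1) := by
    have e1 : u - 1 = x * h * (c - (x * h)⁻¹) := by
      rw [hu, mul_sub, mul_inv_cancel₀ hxh]
    have h1 := tame_le_mul (coe_oz E hxh).le hcE
    rw [← e1] at h1
    refine le_trans ?_ h1
    have h2 := hN E (hmem E hE)
    exact_mod_cast (by omega : oz E x ≤ oz E (x * h) + N)
  have hu2 : ∀ E' : Place K, 0 < E'.ord x → E' ≠ E → ((oz E' x : ℤ) : WithTop ℤ) ≤ E'.ord u := by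
    intro E' h' hne
    have h1 := tame_le_mul (coe_oz E' hxh).le (hcE' E' h' hne)
    refine le_trans ?_ h1
    have h2 := hN E' (hmem E' h')
    exact_mod_cast (by omega : oz E' x ≤ oz E' (x * h) + N)
  have hone : ∀ E' : Place K, E'.ord (1 : K) = 0 := fun E' => E'.ord.map_one
  have hx1 : ∀ E' : Place K, 0 < E'.ord x → (0 : WithTop ℤ) ≤ ((oz E' x : ℤ) : WithTop ℤ) := by
    intro E' h'
    rw [coe_oz E' hx]
    exact h'.le
  -- `c` is regular
  have hcreg : RegLoc x c := by
    intro E' h'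
    by_cases hEE : E' = E
    · subst hEE
      have h1 : 0 ≤ E'.ord ((x * h)⁻¹) := by
        rw [ord_inv E' hxh]
        exact_mod_cast (by omega : (0 : ℤ) ≤ -oz E' (x * h))
      have h2 := nonneg_add (hNtop.trans hcE) h1
      rwa [sub_add_cancel] at h2
    · exact hNtop.trans (hcE' E' h' hEE)
  have hu1' : 0 ≤ E.ord (u - 1) := (hx1 E hE).trans hu1
  have hureg : RegLoc x u := by
    intro E' h'
    by_cases hEE : E' = E
    · subst hEE
      have h2 := nonneg_add hu1' (hone E').ge
      rwa [sub_add_cancel] at h2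
    · exact (hx1 E' h').trans (hu2 E' h' hEE)
  have hreg2 : RegLoc x ((u ^ 2 - u) / x) := by
    intro E' h'
    have e1 : u ^ 2 - u = (u - 1) * u := by ring
    rw [e1]
    apply tame_div hx
    by_cases hEE : E' = E
    · subst hEE
      have h1 := tame_le_mul (a := oz E' x) (b := 0) hu1 (by exact_mod_cast hureg E' h')
      rwa [add_zero] at h1
    · have h1 := tame_le_mul (a := 0) (b := oz E' x) (f := u - 1) (g := u) (by exact_mod_cast nonneg_sub (hureg E' h') (hone E').ge) (hu2 E' h' hEE)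
      rwa [zero_add] at h1
  have htr : RegLoc x (((Algebra.trace L K u : L) : K) / x) := by
    have e1 : u = (⟨x, hL.mem⟩ : L) • (h * c) := by
      rw [hu, mul_assoc]
      rfl
    have e2 : ((Algebra.trace L K u : L) : K) = x * ((Algebra.trace L K (h * c) : L) : K) := by
      rw [e1, map_smul]
      rfl
    rw [e2, mul_div_cancel_left₀ _ hx]
    exact hh c hcreg
  have hfin := trace_idem hK hL hw hureg hreg2 htr E hE
  have hupos : 0 < E.ord u := by
    have e1 : u = u / x * x := by rw [div_mul_cancel₀ _ hx]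
    rw [e1, mul_comm]
    exact pos_mul hE hfin
  have hu1pos : 0 < E.ord (u - 1) := by
    refine lt_of_lt_of_le ?_ hu1
    exact_mod_cast he
  have h3 := pos_sub hupos hu1pos
  rw [sub_sub_cancel, hone E] at h3
  exact lt_irrefl _ h3

theorem exists_dual [FiniteDimensional L K] (w : Module.Basis (Fin n) L K) :
    ∃ v : Module.Basis (Fin n) L K, ∀ i f, Algebra.trace L K (v i * f) = w.repr f i := by
  classical
  have : CharZero L := charZero_of_injective_algebraMap (algebraMap ℂ L).injective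
  refine ⟨(Algebra.traceForm L K).dualBasis (traceForm_nondegenerate L K) w, fun i f => ?_⟩
  have h1 : ∀ j, Algebra.trace L K ((Algebra.traceForm L K).dualBasis (traceForm_nondegenerate L K) w i * w j) = if j = i then 1 else 0 := by
    intro j
    have h2 := LinearMap.BilinForm.apply_dualBasis_left (B := Algebra.traceForm L K) (traceForm_nondegenerate L K) w i j
    rwa [Algebra.traceForm_apply] at h2
  conv_lhs => rw [← w.sum_repr f]
  rw [Finset.mul_sum, map_sum]
  have h3 : ∀ j, Algebra.trace L K ((Algebra.traceForm L K).dualBasis (traceForm_nondegenerate L K) w i * (w.repr f j • w j)) = w.repr f j * if j = i then 1 else 0 := by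
    intro j
    rw [mul_smul_comm, map_smul, h1 j, smul_eq_mul]
  rw [Finset.sum_congr rfl fun j _ => h3 j]
  simp

end Pool.Agent.H13.CV
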