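import Pool.Agent.H13.CV.Tri
import Pool.Agent.H13.CV.HomM
import Pool.Agent.H13.CV.HomR
import Pool.Agent.H13.CV.Cub
import Pool.Agent.H13.CV.FunF

/-!
# CV ThmC: a curve which is not of log general type contains a non-constant entire curve

`exists_hom`: `trichotomy` for `B`.
Case `K = ℂ(t)`, `B E → oz E t ≠ 0`: `t` is transcendental (`K` has transcendental elements).  `T = toM (exp)` is transcendental (`tr_or_const`: it is not a constant).  `hom_rat`: `φ`; `ordM z₀ T = 0`
(`exp z₀ ≠ 0`), so `e • E.ord t = 0` and `E.ord t = 0`, `oz E t = 0`, so `¬ B E`.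
Case of the cubic: `exists_entire_cubic`: `F`; its coordinates are entire functions `a₀, a₁, a₂` (`EntFun`).  `a₂ ≠ 0` (if `a₂ = 0` then `a₀ = 0` by the equation and `F z = (0, a₁ z, 0)`, so the `F z` are
proportional).  `U = a₀ / a₂`, `V = a₁ / a₂`.  `V² = 4 U³ - α U - β`.  `U` is transcendental: otherwise it is a constant (`tr_or_const`), then `V` satisfies a polynomial equation and is a constant too, so
the `F z` with `a₂ z ≠ 0` are proportional to a fixed vector, so all `F z` are (if `a₀ = γ a₂`, `a₁ = δ a₂` as entire functions then `a₂ z = 0` implies `F z = 0`): contradiction.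
`hom_cubic`: `φ` (there are no places in `B`).
The two theorems: `exists_hom` for `curveField_funField Q hz`, `homMap`, `homMapL`.
-/

set_option autoImplicit false

open Topology Filter MvPolynomial
open Pool.Agent.H17 (PN VanishesAt ZariskiClosedIn HolomorphicInto puncturedDisc EntFun)
open Pool.Agent.H17LG.Variety (FunField OnBoundary IsLogGeneralType)
open Pool.Agent.H62.FC (Homog)
open Pool.Agent.H17R (openVar)
open Pool.Agent.H62.SA (locVar OnBd)

noncomputable section

namespace Pool.Agent.H13.CV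

private lemma tr_of_top {K : Type} [Field K] [Algebra ℂ K] (hK : CurveField K) {t : K} (ht : IntermediateField.adjoin ℂ {t} = ⊤) :
    Transcendental ℂ t := by
  by_contra hal
  obtain ⟨c, hc⟩ : ∃ c : ℂ, t = algebraMap ℂ K c := by
    by_contra h
    push Not at h
    exact hal (transcendental_of_not_const h)
  obtain ⟨x, hx⟩ := hK.exists_tr
  have h1 : IntermediateField.adjoin ℂ {t} = (⊥ : IntermediateField ℂ K) := by
    rw [IntermediateField.adjoin_simple_eq_bot_iff, IntermediateField.mem_bot]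
    exact ⟨c, hc.symm⟩
  have h2 : x ∈ (⊥ : IntermediateField ℂ K) := by
    rw [← h1, ht]
    exact IntermediateField.mem_top
  rw [IntermediateField.mem_bot] at h2
  obtain ⟨d, hd⟩ := h2
  exact hx (hd ▸ isAlgebraic_algebraMap d)

private def expE : EntFun := ⟨Complex.exp, Complex.differentiable_exp⟩

private lemma toM_inj {a b : EntFun} (h : toM a = toM b) : a = b := IsFractionRing.injective EntFun Mer h

private lemma expE_tr : Transcendental ℂ (toM expE) := by
  rcases tr_or_const (toM expE) with ⟨c, hc⟩ | h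
  · exfalso
    rw [algebraMap_eq] at hc
    have h1 := toM_inj hc
    have h2 : Complex.exp 0 = c := congrArg (fun f : EntFun => (f : ℂ → ℂ) 0) h1
    have h3 : Complex.exp (Real.pi * Complex.I) = c := congrArg (fun f : EntFun => (f : ℂ → ℂ) (Real.pi * Complex.I)) h1
    rw [← h2, Complex.exp_pi_mul_I, Complex.exp_zero] at h3
    norm_num at h3
  · exact h

private lemma ordM_expE (z₀ : ℂ) : ordM z₀ (toM expE) = 0 := by
  refine le_antisymm (not_lt.1 fun h => ?_) (ordM_toM_nonneg z₀ expE)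
  rw [ordM_toM_pos] at h
  exact Complex.exp_ne_zero z₀ h

private lemma exists_cubic_mer {α β : ℂ} (hd : α ^ 3 ≠ 27 * β ^ 2) :
    ∃ U V : Mer, V ^ 2 = 4 * U ^ 3 - algebraMap ℂ Mer α * U - algebraMap ℂ Mer β ∧ Transcendental ℂ U := by
  obtain ⟨F, hF, hcub, z, w, hzw⟩ := exists_entire_cubic hd
  have hFi : ∀ i : Fin 3, Differentiable ℂ fun z => F z i := fun i =>
    ((EuclideanSpace.proj i : EuclideanSpace ℂ (Fin 3) →L[ℂ] ℂ).differentiable).comp hF
  obtain ⟨a, ha⟩ : ∃ a : Fin 3 → EntFun, ∀ i x, (a i : ℂ → ℂ) x = F x i := ⟨fun i => ⟨_, hFi i⟩, fun i x => rfl⟩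
  have hne : ∀ x, F x ≠ 0 := fun x => (hcub x).1
  have heq : ∀ x, F x 1 ^ 2 * F x 2 - 4 * F x 0 ^ 3 + α * F x 0 * F x 2 ^ 2 + β * F x 2 ^ 3 = 0 := fun x => (hcub x).2
  have h2 : a 2 ≠ 0 := by
    intro h
    have h0 : ∀ x, F x 2 = 0 := fun x => by
      rw [← ha 2 x, h]
      rfl
    have h1 : ∀ x, F x 0 = 0 := fun x => by
      have h3 := heq x
      rw [h0 x] at h3
      have h4 : F x 0 ^ 3 = 0 := by linear_combination (-1 / 4) * h3
      exact pow_eq_zero_iff (by norm_num) |>.1 h4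
    have hw1 : F w 1 ≠ 0 := fun h3 => hne w (by
      ext i
      fin_cases i
      · exact h1 w
      · exact h3
      · exact h0 w)
    refine hzw (F z 1 / F w 1) ?_
    ext i
    fin_cases i
    · simp [h1]
    · simp [hw1]
    · simp [h0]
  have hA2 : toM (a 2) ≠ 0 := fun h => h2 (toM_inj (by rw [h, toM, map_zero]))
  have hent : a 1 ^ 2 * a 2 - 4 * a 0 ^ 3 + algebraMap ℂ EntFun α * a 0 * a 2 ^ 2 + algebraMap ℂ EntFun β * a 2 ^ 3 = 0 := by
    apply EntFun.ext'
    intro x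
    have := heq x
    rw [← ha 0 x, ← ha 1 x, ← ha 2 x] at this
    exact this
  have hmer : toM (a 1) ^ 2 * toM (a 2) - 4 * toM (a 0) ^ 3 + algebraMap ℂ Mer α * toM (a 0) * toM (a 2) ^ 2 +
      algebraMap ℂ Mer β * toM (a 2) ^ 3 = 0 := by
    have := congrArg (algebraMap EntFun Mer) hent
    rw [algebraMap_eq, algebraMap_eq]
    simpa only [map_add, map_sub, map_mul, map_pow, map_zero, map_ofNat] using this
  have hrel : (toM (a 1) / toM (a 2)) ^ 2 = 4 * (toM (a 0) / toM (a 2)) ^ 3 - algebraMap ℂ Mer α * (toM (a 0) / toM (a 2)) -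
      algebraMap ℂ Mer β := by
    field_simp
    linear_combination hmer
  refine ⟨_, _, hrel, ?_⟩
  rcases tr_or_const (toM (a 0) / toM (a 2)) with ⟨γ, hγ⟩ | h
  · exfalso
    obtain ⟨ε, hε⟩ := IsAlgClosed.exists_pow_nat_eq (4 * γ ^ 3 - α * γ - β) (n := 2) (by norm_num)
    have h3 : (toM (a 1) / toM (a 2)) ^ 2 = (algebraMap ℂ Mer ε) ^ 2 := by
      rw [hrel, hγ, ← map_pow (algebraMap ℂ Mer) ε, hε]
      simp only [map_sub, map_mul, map_pow, map_ofNat]
    obtain ⟨ε', hε'⟩ : ∃ ε' : ℂ, toM (a 1) / toM (a 2) = algebraMap ℂ Mer ε' := by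
      rcases sq_eq_sq_iff_eq_or_eq_neg.1 h3 with h | h
      · exact ⟨ε, h⟩
      · exact ⟨-ε, by rw [h, map_neg]⟩
    rw [div_eq_iff hA2, algebraMap_eq] at hγ hε'
    have h4 : a 0 = algebraMap ℂ EntFun γ * a 2 := toM_inj (hγ.trans (map_mul (algebraMap EntFun Mer) _ _).symm)
    have h5 : a 1 = algebraMap ℂ EntFun ε' * a 2 := toM_inj (hε'.trans (map_mul (algebraMap EntFun Mer) _ _).symm)
    have h6 : ∀ x, F x 0 = γ * F x 2 := fun x => by
      rw [← ha 0 x, ← ha 2 x, h4]
      rfl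
    have h7 : ∀ x, F x 1 = ε' * F x 2 := fun x => by
      rw [← ha 1 x, ← ha 2 x, h5]
      rfl
    have hw2 : F w 2 ≠ 0 := fun h8 => hne w (by
      ext i
      fin_cases i
      · simpa [h8] using h6 w
      · simpa [h8] using h7 w
      · exact h8)
    refine hzw (F z 2 / F w 2) ?_
    ext i
    fin_cases i
    · show F z 0 = F z 2 / F w 2 * F w 0
      rw [h6 z, h6 w]
      field_simp
    · show F z 1 = F z 2 / F w 2 * F w 1
      rw [h7 z, h7 w]
      field_simp
    · show F z 2 = F z 2 / F w 2 * F w 2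
      field_simp
  · exact h

theorem exists_hom {K : Type} [Field K] [Algebra ℂ K] (hK : CurveField K) {B : Place K → Prop} (hB : ¬ IsLogGeneralType B) :
    ∃ φ : K →ₐ[ℂ] Mer, ∀ (z₀ : ℂ) (E : Place K) (e : ℕ), 1 ≤ e → (∀ g, ordM z₀ (φ g) = e • E.ord g) → ¬ B E := by
  rcases trichotomy hK B with h | ⟨t, ht, hBt⟩ | ⟨hBe, u, v, α, β, huv, hu, htop, hv, hd⟩
  · exact absurd h hB
  · obtain ⟨φ, hφ⟩ := hom_rat ht (tr_of_top hK ht) expE_tr
    refine ⟨φ, fun z₀ E e he hE hBE => hBt E hBE ?_⟩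
    have h1 := hE t
    rw [hφ, ordM_expE] at h1
    have ht0 : t ≠ 0 := by
      rintro rfl
      rw [map_zero] at hφ
      have h2 := expE_tr
      rw [← hφ] at h2
      exact h2 (isAlgebraic_zero)
    rw [← coe_oz E ht0, ← WithTop.coe_nsmul] at h1
    have h2 : (0 : ℤ) = e • oz E t := by exact_mod_cast h1
    rw [nsmul_eq_mul] at h2
    have h3 : (e : ℤ) ≠ 0 := by
      have : e ≠ 0 := by omega
      exact_mod_cast this
    exact (mul_eq_zero.1 h2.symm).resolve_left h3
  · obtain ⟨U, V, hUV, hU⟩ := exists_cubic_mer hd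
    obtain ⟨φ, -⟩ := hom_cubic huv hu htop hv hU hUV
    exact ⟨φ, fun z₀ E e he hE => hBe E⟩

variable {N : ℕ}

/-- **A curve which is not of log general type contains a non-constant entire curve.** -/
theorem exists_entire_of_not_lgt (Q : Ideal (MvPolynomial (Fin (N + 1)) ℂ)) [Q.IsPrime] (hQ : Homog Q) (hX : ∃ i, (X i : MvPolynomial (Fin (N + 1)) ℂ) ∉ Q)
    (hz : ∃ z : Fin 1 → FunField Q, IsTranscendenceBasis ℂ z) {b : ℕ} {H : Fin b → MvPolynomial (Fin (N + 1)) ℂ} (hH : ∀ m, ∃ d, (H m).IsHomogeneous d)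
    (hlgt : ¬ IsLogGeneralType (OnBoundary Q H (k := 1))) :
    ∃ f : ℂ → PN N, HolomorphicInto f Set.univ ∧ (∀ z, f z ∈ openVar Q H) ∧ ∃ z w, f z ≠ f w := by
  have hK := curveField_funField Q hz
  obtain ⟨φ, hφ⟩ := exists_hom hK hlgt
  exact homMap Q hQ hX hK hH φ hφ

/-- the version for the complement of the common zeros of forms -/
theorem exists_entire_of_not_lgtL (Q : Ideal (MvPolynomial (Fin (N + 1)) ℂ)) [Q.IsPrime] (hX : ∃ i, (X i : MvPolynomial (Fin (N + 1)) ℂ) ∉ Q)
    (hz : ∃ z : Fin 1 → FunField Q, IsTranscendenceBasis ℂ z) {s : ℕ} {G : Fin s → MvPolynomial (Fin (N + 1)) ℂ} (hG : ∀ m, ∃ d, (G m).IsHomogeneous d)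
    (hlgt : ¬ IsLogGeneralType (OnBd Q G (k := 1))) :
    ∃ f : ℂ → PN N, HolomorphicInto f Set.univ ∧ (∀ z, f z ∈ locVar Q G) ∧ ∃ z w, f z ≠ f w := by
  have hK := curveField_funField Q hz
  obtain ⟨φ, hφ⟩ := exists_hom hK hlgt
  exact homMapL Q hX hK hG φ hφ

end Pool.Agent.H13.CV
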