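import Pool.Agent.H13.CV.RatB
import Pool.Agent.H13.CV.Cases
import Pool.Agent.H13.CV.EllA
import Pool.Agent.H13.CV.EllR
import Pool.Agent.H13.CV.EllB
import Pool.Agent.H13.CV.PoleF

/-!
# CV Tri: the trichotomy

`genus_cases`.  First case: `lgt_of_forms` with `m = 1`.  Second case: if `B E₀` for some `E₀`: `lgt_of_boundary`.  Otherwise `ell_gens`: `K = ℂ(t)` (`rat_cases`), or `u, v`; `ell_rel`,
`adjoin_eq_top_of_double_pole` (`-3` is odd), `normal_form`; if `α³ = 27 β²`: `singular_rational` and `rat_cases`.  Third case: `rat_cases`.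
-/

set_option autoImplicit false

open Pool.Agent.H23.Fano (PrimeDivisorOver Form regularForms)
open Pool.Agent.H17LG.Variety (PoleAtMost IsLogGeneralType)

noncomputable section

namespace Pool.Agent.H13.CV

variable {K : Type} [Field K] [Algebra ℂ K]

theorem trichotomy (hK : CurveField K) (B : Place K → Prop) :
    IsLogGeneralType B ∨ (∃ t : K, IntermediateField.adjoin ℂ {t} = ⊤ ∧ ∀ E, B E → oz E t ≠ 0) ∨
    ((∀ E, ¬ B E) ∧ ∃ (u v : K) (α β : ℂ), v ^ 2 = 4 * u ^ 3 - algebraMap ℂ K α * u - algebraMap ℂ K β ∧ Transcendental ℂ u ∧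
      IntermediateField.adjoin ℂ {u, v} = ⊤ ∧ v ∉ IntermediateField.adjoin ℂ {u} ∧ α ^ 3 ≠ 27 * β ^ 2) := by
  have hmono : ∀ (E : Place K) (h : K) (ω : Form K 1), PoleAtMost 0 E 1 h ω → PoleAtMost 1 E 1 h ω := by
    rintro E h ω ⟨g, η, hη, hω, hg⟩
    refine ⟨g, η, hη, hω, ?_⟩
    have h0 : (0 : WithTop ℤ) ≤ E.ord (h * g ^ 1) := by simpa using hg
    refine add_nonneg h0 ?_
    simp
  have hrat : ∀ t : K, IntermediateField.adjoin ℂ {t} = ⊤ →
      IsLogGeneralType B ∨ (∃ t : K, IntermediateField.adjoin ℂ {t} = ⊤ ∧ ∀ E, B E → oz E t ≠ 0) ∨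
      ((∀ E, ¬ B E) ∧ ∃ (u v : K) (α β : ℂ), v ^ 2 = 4 * u ^ 3 - algebraMap ℂ K α * u - algebraMap ℂ K β ∧ Transcendental ℂ u ∧
        IntermediateField.adjoin ℂ {u, v} = ⊤ ∧ v ∉ IntermediateField.adjoin ℂ {u} ∧ α ^ 3 ≠ 27 * β ^ 2) := by
    intro t ht
    rcases rat_cases hK ht B with h | h
    · exact Or.inl h
    · exact Or.inr (Or.inl h)
  rcases genus_cases hK with ⟨ω, h₁, h₂, hω, h10, htr, hP⟩ | ⟨⟨ω, h, hω, h0, hP⟩, E, hE⟩ | ⟨t, ht⟩
  · exact Or.inl (lgt_of_forms hK hω le_rfl h10 htr (fun E => ⟨fun _ => (hP E).1, fun _ => hmono E _ _ (hP E).1⟩)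
      (fun E => ⟨fun _ => (hP E).2, fun _ => hmono E _ _ (hP E).2⟩))
  · by_cases hB : ∃ E₀, B E₀
    · obtain ⟨E₀, hE₀⟩ := hB
      exact Or.inl (lgt_of_boundary hK hω h0 hP hE₀)
    · have hB' : ∀ E, ¬ B E := fun E hE' => hB ⟨E, hE'⟩
      rcases ell_gens hK hE with ⟨t, ht⟩ | ⟨h1, u, v, hu, hv, hu', hv'⟩
      · exact hrat t ht
      · obtain ⟨c, a, d, b, e, f, hc, hrel⟩ := ell_rel hK h1 hu hv hu' hv'
        obtain ⟨hvu, huv⟩ := adjoin_eq_top_of_double_pole hK (v := v) hu hu' (by rw [hv]; decide)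
        obtain ⟨u', v', α, β, h', htr', hadj', hv''⟩ :=
          normal_form hc hrel (tr_of_oz_ne (E := E) (by rw [hu]; norm_num)) huv hvu
        by_cases hαβ : α ^ 3 = 27 * β ^ 2
        · obtain ⟨t, ht⟩ := singular_rational h' htr' hadj' hαβ
          exact hrat t ht
        · exact Or.inr (Or.inr ⟨hB', u', v', α, β, h', htr', hadj', hv'', hαβ⟩)
  · exact hrat t ht

end Pool.Agent.H13.CV
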