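import Pool.Agent.H13.CV.Pl

/-!
# CV Val: the value of a function at a place

`exists_value`: let `0 ≤ ord f` and suppose that `0 < ord (f - c)` for no `c : ℂ`.  So `ord (f - c) = 0` for all `c` (it is `≥ 0`), in particular `f` is not a constant (`ord 0 = ⊤`), so `f` is
transcendental (`transcendental_of_not_const`).  Every non-zero polynomial in `f` is a constant times a product of factors `f - c` (`IsAlgClosed.splits`,
`Polynomial.Splits.aeval_eq_prod_aroots` or induction on the degree with a root), so it has order `0`; so all non-zero elements of `L = ℂ(f)` have order `0`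
(`IntermediateField.mem_adjoin_simple_iff`).  `K` is finite over `L` (`hK.fin`), so the uniformizer `t` (`oz E t = 1`) is algebraic over `L`; `t⁻¹` is also algebraic over `L`:
there is a monic polynomial `p` over `L` with `p (t⁻¹) = 0`, of degree `n > 0`.  `(t⁻¹) ^ n = - ∑ i < n, p_i (t⁻¹) ^ i` has order `- n`, but the right side has order `≥ - (n - 1)`: contradiction.

The other lemmas follow from `res_spec` and `res_eq` (uniqueness: `ord (c - c') > 0` with `c ≠ c'` contradicts `ord_const`).
-/

set_option autoImplicit false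

open Pool.Agent.H23.Fano (PrimeDivisorOver Form regularForms)

noncomputable section

namespace Pool.Agent.H13.CV

variable {K : Type} [Field K] [Algebra ℂ K] {E E' : Place K} {f g : K}

theorem exists_value (hK : CurveField K) (hf : 0 ≤ E.ord f) : ∃ c : ℂ, 0 < E.ord (f - algebraMap ℂ K c) := by
  by_contra hc
  push Not at hc
  have h0 : ∀ c : ℂ, E.ord (f - algebraMap ℂ K c) = 0 := fun c =>
    le_antisymm (hc c) (nonneg_sub hf (const_nonneg E c))
  have hne : ∀ c : ℂ, f ≠ algebraMap ℂ K c := by
    intro c hfc
    have h1 := h0 c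
    rw [hfc, sub_self, E.ord.map_zero] at h1
    exact WithTop.top_ne_zero h1
  have htr : Transcendental ℂ f := transcendental_of_not_const hne
  -- polynomials in `f` have order `0`
  have hA : ∀ (n : ℕ) (q : Polynomial ℂ), q ≠ 0 → q.natDegree = n → E.ord (Polynomial.aeval f q) = 0 := by
    intro n
    induction n with
    | zero =>
      intro q hq hn
      rw [Polynomial.eq_C_of_natDegree_eq_zero hn, Polynomial.aeval_C]
      refine ord_const E ?_
      intro h2
      apply hq
      rw [Polynomial.eq_C_of_natDegree_eq_zero hn, h2, Polynomial.C_0]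
    | succ n ih =>
      intro q hq hn
      obtain ⟨a, ha⟩ := IsAlgClosed.exists_root q (by
        intro h2
        have h3 : q.natDegree = 0 := Polynomial.natDegree_eq_zero_iff_degree_le_zero.2 (le_of_eq h2)
        omega)
      obtain ⟨q', hq'⟩ := Polynomial.dvd_iff_isRoot.2 ha
      have hq0 : q' ≠ 0 := by
        rintro rfl
        exact hq (by rw [hq', mul_zero])
      have hdeg : q'.natDegree = n := by
        have h3 := congrArg Polynomial.natDegree hq'
        rw [Polynomial.natDegree_mul (Polynomial.X_sub_C_ne_zero a) hq0, Polynomial.natDegree_X_sub_C] at h3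
        omega
      rw [hq', map_mul, E.ord.map_mul, ih q' hq0 hdeg, map_sub, Polynomial.aeval_X, Polynomial.aeval_C, h0 a,
        add_zero]
  -- elements of `ℂ(f)`
  have hB : ∀ l : K, l ∈ IntermediateField.adjoin ℂ {f} → l ≠ 0 → E.ord l = 0 := by
    intro l hl hl0
    obtain ⟨r, s, hrs⟩ := (IntermediateField.mem_adjoin_simple_iff ℂ l).1 hl
    have hs : Polynomial.aeval f s ≠ 0 := by
      intro h2
      rw [h2, div_zero] at hrs
      exact hl0 hrs
    have hr : Polynomial.aeval f r ≠ 0 := by
      intro h2
      rw [h2, zero_div] at hrs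
      exact hl0 hrs
    have hs' : s ≠ 0 := by
      rintro rfl
      exact hs (map_zero _)
    have hr' : r ≠ 0 := by
      rintro rfl
      exact hr (map_zero _)
    have h3 : l * Polynomial.aeval f s = Polynomial.aeval f r := by
      rw [hrs, div_mul_cancel₀ _ hs]
    have h4 := congrArg E.ord h3
    rw [E.ord.map_mul, hA _ s hs' rfl, hA _ r hr' rfl, add_zero] at h4
    exact h4
  have := hK.fin f htr
  obtain ⟨t, ht0, ht⟩ := exists_uni E
  have hu0 : t⁻¹ ≠ 0 := inv_ne_zero ht0
  have hint : IsIntegral (IntermediateField.adjoin ℂ {f}) t⁻¹ := Algebra.IsIntegral.isIntegral t⁻¹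
  obtain ⟨p, hp, hpe⟩ := hint
  have hoz : ∀ n : ℕ, E.ord (t⁻¹ ^ n) = ((-(n : ℤ) : ℤ) : WithTop ℤ) := by
    intro n
    rw [← coe_oz E (pow_ne_zero n hu0), oz_pow, oz_inv, ht]
    congr 1
    ring
  rw [Polynomial.eval₂_eq_sum_range, Finset.sum_range_succ, hp.coeff_natDegree, map_one, one_mul] at hpe
  have h5 : t⁻¹ ^ p.natDegree = -∑ i ∈ Finset.range p.natDegree,
      (algebraMap (IntermediateField.adjoin ℂ {f}) K) (p.coeff i) * t⁻¹ ^ i := by
    rw [eq_neg_iff_add_eq_zero, add_comm]
    exact hpe
  have h6 : ((-((p.natDegree : ℤ) - 1) : ℤ) : WithTop ℤ) ≤ E.ord (∑ i ∈ Finset.range p.natDegree,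
      (algebraMap (IntermediateField.adjoin ℂ {f}) K) (p.coeff i) * t⁻¹ ^ i) := by
    refine E.ord.map_le_sum fun i hi => ?_
    rw [Finset.mem_range] at hi
    by_cases hz : (algebraMap (IntermediateField.adjoin ℂ {f}) K) (p.coeff i) = 0
    · rw [hz, zero_mul, E.ord.map_zero]
      exact le_top
    · have h7 : E.ord ((algebraMap (IntermediateField.adjoin ℂ {f}) K) (p.coeff i)) = 0 :=
        hB _ (p.coeff i).2 hz
      rw [E.ord.map_mul, h7, zero_add, hoz]
      rw [WithTop.coe_le_coe]
      omega
  have h8 := hoz p.natDegree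
  rw [h5, E.ord.map_neg] at h8
  rw [h8, WithTop.coe_le_coe] at h6
  omega

theorem value_unique {c c' : ℂ} (h : 0 < E.ord (f - algebraMap ℂ K c)) (h' : 0 < E.ord (f - algebraMap ℂ K c')) : c = c' := by
  by_contra hcc
  have h1 := pos_sub h' h
  have h2 : f - algebraMap ℂ K c' - (f - algebraMap ℂ K c) = algebraMap ℂ K (c - c') := by
    rw [map_sub]
    ring
  rw [h2, ord_const E (sub_ne_zero.2 hcc)] at h1
  exact lt_irrefl _ h1

theorem res_eq {c : ℂ} (h : 0 < E.ord (f - algebraMap ℂ K c)) : res E f = c := by
  classical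
  have h1 : ∃ c : ℂ, 0 < E.ord (f - algebraMap ℂ K c) := ⟨c, h⟩
  unfold res
  rw [dif_pos h1]
  exact value_unique h1.choose_spec h

theorem res_spec (hK : CurveField K) (hf : 0 ≤ E.ord f) : 0 < E.ord (f - algebraMap ℂ K (res E f)) := by
  obtain ⟨c, hc⟩ := exists_value hK hf
  rw [res_eq hc]
  exact hc

theorem res_const (E : Place K) (c : ℂ) : res E (algebraMap ℂ K c) = c := by
  refine res_eq ?_
  rw [sub_self, E.ord.map_zero]
  exact WithTop.coe_lt_top (0 : ℤ)

theorem res_zero (E : Place K) : res E (0 : K) = 0 := by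
  have h := res_const E 0
  rwa [map_zero] at h

theorem res_one (E : Place K) : res E (1 : K) = 1 := by
  have h := res_const E 1
  rwa [map_one] at h

theorem res_add (hK : CurveField K) (hf : 0 ≤ E.ord f) (hg : 0 ≤ E.ord g) : res E (f + g) = res E f + res E g := by
  refine res_eq ?_
  have h : f + g - algebraMap ℂ K (res E f + res E g) =
      (f - algebraMap ℂ K (res E f)) + (g - algebraMap ℂ K (res E g)) := by
    rw [map_add]
    ring
  rw [h]
  exact pos_add (res_spec hK hf) (res_spec hK hg)

theorem res_mul (hK : CurveField K) (hf : 0 ≤ E.ord f) (hg : 0 ≤ E.ord g) : res E (f * g) = res E f * res E g := by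
  refine res_eq ?_
  have h : f * g - algebraMap ℂ K (res E f * res E g) =
      (f - algebraMap ℂ K (res E f)) * g + (g - algebraMap ℂ K (res E g)) * algebraMap ℂ K (res E f) := by
    rw [map_mul]
    ring
  rw [h]
  exact pos_add (pos_mul (res_spec hK hf) hg) (pos_mul (res_spec hK hg) (const_nonneg E _))

theorem res_smul (hK : CurveField K) (c : ℂ) (hf : 0 ≤ E.ord f) : res E (c • f) = c * res E f := by
  rw [Algebra.smul_def, res_mul hK (const_nonneg E c) hf, res_const]

theorem res_sum (hK : CurveField K) {ι : Type*} {s : Finset ι} {F : ι → K} (h : ∀ i ∈ s, 0 ≤ E.ord (F i)) :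
    res E (∑ i ∈ s, F i) = ∑ i ∈ s, res E (F i) := by
  classical
  induction s using Finset.induction_on with
  | empty => rw [Finset.sum_empty, Finset.sum_empty, res_zero]
  | insert a s ha ih =>
    rw [Finset.sum_insert ha, Finset.sum_insert ha,
      res_add hK (h a (Finset.mem_insert_self a s)) (nonneg_sum fun i hi => h i (Finset.mem_insert_of_mem hi)),
      ih fun i hi => h i (Finset.mem_insert_of_mem hi)]

theorem res_eq_zero_iff (hK : CurveField K) (hf : 0 ≤ E.ord f) : res E f = 0 ↔ 0 < E.ord f := by
  constructor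
  · intro h
    have h1 := res_spec hK hf
    rwa [h, map_zero, sub_zero] at h1
  · intro h
    refine res_eq ?_
    rwa [map_zero, sub_zero]

theorem res_aeval (hK : CurveField K) (hf : 0 ≤ E.ord f) (p : Polynomial ℂ) : res E (Polynomial.aeval f p) = p.eval (res E f) := by
  have hpow : ∀ n : ℕ, res E (f ^ n) = res E f ^ n := by
    intro n
    induction n with
    | zero => rw [pow_zero, pow_zero, res_one]
    | succ n ih => rw [pow_succ, pow_succ, res_mul hK (nonneg_pow hf n) hf, ih]
  rw [Polynomial.aeval_eq_sum_range, Polynomial.eval_eq_sum_range, res_sum hK]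
  · refine Finset.sum_congr rfl fun i _ => ?_
    rw [res_smul hK _ (nonneg_pow hf i), hpow]
  · intro i _
    rw [Algebra.smul_def]
    exact nonneg_mul (const_nonneg E _) (nonneg_pow hf i)

end Pool.Agent.H13.CV
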